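import Pool.Agent.Helper85.HN.St

/-!
# MP_b39980_an, project HN: module Bj
-/

set_option autoImplicit false

open Set Filter Topology

namespace Helper85.HN

private theorem rec_Bj (k j : ℕ) (h : j ≤ k) :
    ((2 * k).choose (k + (j + 1)) : ℝ) * ((k : ℝ) + j + 1) = ((2 * k).choose (k + j) : ℝ) * ((k : ℝ) - j) := by
  have h1 := Nat.choose_succ_right_eq (2 * k) (k + j)
  have h2 : 2 * k - (k + j) = k - j := by omega
  rw [h2] at h1
  have h3 : (((2 * k).choose (k + j + 1) * (k + j + 1) : ℕ) : ℝ) = (((2 * k).choose (k + j) * (k - j) : ℕ) : ℝ) := by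
    rw [h1]
  rw [Nat.cast_mul, Nat.cast_mul, Nat.cast_sub h] at h3
  push_cast at h3
  rw [← add_assoc]
  exact h3

private theorem sum1_Bj (k m : ℕ) (h : m ≤ k) :
    ∑ j ∈ Finset.Icc 1 m, 2 * (j : ℝ) * ((2 * k).choose (k + j) : ℝ) =
      k * ((2 * k).choose k : ℝ) - ((k : ℝ) + m + 1) * ((2 * k).choose (k + (m + 1)) : ℝ) := by
  induction m with
  | zero =>
    have := rec_Bj k 0 (Nat.zero_le k)
    simp only [Nat.cast_zero, add_zero, sub_zero, zero_add] at this ⊢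
    simp only [show Finset.Icc 1 0 = (∅ : Finset ℕ) from rfl, Finset.sum_empty]
    linarith
  | succ m ih =>
    have h1 := ih (by omega)
    have h2 := rec_Bj k (m + 1) h
    rw [Finset.sum_Icc_succ_top (by omega), h1]
    push_cast at h2 ⊢
    linarith

private theorem sum3_Bj (k m : ℕ) (h : m ≤ k) :
    ∑ j ∈ Finset.Icc 1 m, 2 * (j : ℝ) ^ 3 * ((2 * k).choose (k + j) : ℝ) =
      (k : ℝ) ^ 2 * ((2 * k).choose k : ℝ) -
        ((k : ℝ) + m + 1) * ((2 * k).choose (k + (m + 1)) : ℝ) * (k + (m + 1) * m) := by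
  induction m with
  | zero =>
    have := rec_Bj k 0 (Nat.zero_le k)
    simp only [Nat.cast_zero, add_zero, sub_zero, zero_add, mul_zero] at this ⊢
    simp only [show Finset.Icc 1 0 = (∅ : Finset ℕ) from rfl, Finset.sum_empty]
    have h2 : ((k : ℝ) + 1) * ((2 * k).choose (k + 1) : ℝ) * k = ((2 * k).choose k : ℝ) * k * k := by
      rw [← this]; ring
    rw [h2]; ring
  | succ m ih =>
    have h1 := ih (by omega)
    have h2 := rec_Bj k (m + 1) h
    rw [Finset.sum_Icc_succ_top (by omega), h1]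
    push_cast at h2 ⊢
    have h3 : ((k : ℝ) + (m + 1) + 1) * ((2 * k).choose (k + (m + 1 + 1)) : ℝ) * (k + (m + 1 + 1) * (m + 1)) =
        ((2 * k).choose (k + (m + 1)) : ℝ) * ((k : ℝ) - (m + 1)) * (k + (m + 1 + 1) * (m + 1)) := by
      rw [← h2]; ring
    rw [h3]; ring

private theorem pos_Bj (k : ℕ) : 0 < ((2 * k).choose k : ℝ) := by
  exact_mod_cast Nat.choose_pos (by omega)

private theorem abs_Bj (k j : ℕ) : |ak k j| = ((2 * k).choose (k + j) : ℝ) / (j * ((2 * k).choose k : ℝ)) := by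
  unfold ak
  rw [abs_div, abs_mul, abs_pow, abs_neg, abs_one, one_pow, one_mul, abs_of_nonneg (Nat.cast_nonneg _),
    abs_of_nonneg (by positivity)]

private theorem m2_Bj (k : ℕ) : ∑ j ∈ Finset.Icc 1 k, |ak k j| * (j : ℝ) ^ 2 = k / 2 := by
  have h0 := pos_Bj k
  have h1 := sum1_Bj k k le_rfl
  rw [Nat.choose_eq_zero_of_lt (by omega : 2 * k < k + (k + 1))] at h1
  have h2 : ∀ j ∈ Finset.Icc 1 k, |ak k j| * (j : ℝ) ^ 2 =
      (2 * (j : ℝ) * ((2 * k).choose (k + j) : ℝ)) * (1 / (2 * ((2 * k).choose k : ℝ))) := by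
    intro j hj
    have hj1 : (0 : ℝ) < j := by exact_mod_cast (Finset.mem_Icc.mp hj).1
    rw [abs_Bj]
    field_simp
  rw [Finset.sum_congr rfl h2, ← Finset.sum_mul, h1]
  field_simp
  simp

private theorem m4_Bj (k : ℕ) : ∑ j ∈ Finset.Icc 1 k, |ak k j| * (j : ℝ) ^ 4 = (k : ℝ) ^ 2 / 2 := by
  have h0 := pos_Bj k
  have h1 := sum3_Bj k k le_rfl
  rw [Nat.choose_eq_zero_of_lt (by omega : 2 * k < k + (k + 1)), Nat.cast_zero, mul_zero, zero_mul, sub_zero] at h1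
  have h2 : ∀ j ∈ Finset.Icc 1 k, |ak k j| * (j : ℝ) ^ 4 =
      (2 * (j : ℝ) ^ 3 * ((2 * k).choose (k + j) : ℝ)) * (1 / (2 * ((2 * k).choose k : ℝ))) := by
    intro j hj
    have hj1 : (0 : ℝ) < j := by exact_mod_cast (Finset.mem_Icc.mp hj).1
    rw [abs_Bj]
    field_simp
  rw [Finset.sum_congr rfl h2, ← Finset.sum_mul, h1]
  field_simp

theorem hBj : StBj := by
  intro k hk
  constructor
  · intro j hj
    have hj1 : (1 : ℝ) ≤ j := by exact_mod_cast (Finset.mem_Icc.mp hj).1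
    have h0 := pos_Bj k
    rw [abs_Bj, div_le_one (by positivity)]
    have h1 : ((2 * k).choose (k + j) : ℝ) ≤ ((2 * k).choose k : ℝ) := by
      have := Nat.choose_le_centralBinom (k + j) k
      rw [Nat.centralBinom_eq_two_mul_choose] at this
      exact_mod_cast this
    nlinarith
  · intro t ht
    have h1 : ∀ j ∈ Finset.Icc 1 k, |ak k j| * (j : ℝ) ^ 3 ≤
        t / 2 * (|ak k j| * (j : ℝ) ^ 2) + 1 / (2 * t) * (|ak k j| * (j : ℝ) ^ 4) := by
      intro j _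
      have ha := abs_nonneg (ak k j)
      have h2 : (j : ℝ) ^ 3 ≤ t / 2 * (j : ℝ) ^ 2 + 1 / (2 * t) * (j : ℝ) ^ 4 := by
        have h3 : t / 2 * (j : ℝ) ^ 2 + 1 / (2 * t) * (j : ℝ) ^ 4 - (j : ℝ) ^ 3 =
            (j : ℝ) ^ 2 * (t - j) ^ 2 / (2 * t) := by
          field_simp
          ring
        have h4 : 0 ≤ (j : ℝ) ^ 2 * (t - j) ^ 2 / (2 * t) := by positivity
        linarith
      calc |ak k j| * (j : ℝ) ^ 3 ≤ |ak k j| * (t / 2 * (j : ℝ) ^ 2 + 1 / (2 * t) * (j : ℝ) ^ 4) :=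
            mul_le_mul_of_nonneg_left h2 ha
        _ = _ := by ring
    calc ∑ j ∈ Finset.Icc 1 k, |ak k j| * (j : ℝ) ^ 3
        ≤ ∑ j ∈ Finset.Icc 1 k, (t / 2 * (|ak k j| * (j : ℝ) ^ 2) + 1 / (2 * t) * (|ak k j| * (j : ℝ) ^ 4)) :=
          Finset.sum_le_sum h1
      _ = t / 2 * (k / 2) + 1 / (2 * t) * ((k : ℝ) ^ 2 / 2) := by
          rw [Finset.sum_add_distrib, ← Finset.mul_sum, ← Finset.mul_sum, m2_Bj, m4_Bj]
      _ = (t * k + (k : ℝ) ^ 2 / t) / 4 := by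
          field_simp
          ring

end Helper85.HN
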