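import Pool.Agent.Helper85.HN.St

/-! # Project HN (MP_b39980), module `Cnt`: words with few changes of letter -/

set_option autoImplicit false

namespace Helper85.HN

open Finset

/-- the number of changes in `range (n+1)` -/
private lemma filt_succ_Cnt {N : ℕ} (w : ℕ → Fin N) (n : ℕ) :
    ((range (n + 1)).filter (fun i => w (i + 1) ≠ w i)).card =
      ((range n).filter (fun i => w (i + 1) ≠ w i)).card + if w (n + 1) ≠ w n then 1 else 0 := by
  rw [range_add_one, filter_insert]
  split_ifs with h
  · rw [card_insert_of_notMem (by simp)]
  · rfl

theorem hCnt : StCnt := by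
  classical
  intro N c n
  induction n generalizing c with
  | zero =>
    refine ⟨(univ : Finset (Fin N)).image (fun a _ => a), ?_, ?_⟩
    · refine card_image_le.trans ?_
      rw [card_univ, Fintype.card_fin]
      simpa using Nat.le_self_pow (by omega : c + 1 ≠ 0) N
    · intro w _
      refine ⟨fun _ => w 0, mem_image.2 ⟨w 0, mem_univ _, rfl⟩, fun i hi => ?_⟩
      obtain rfl : i = 0 := by omega
      rfl
  | succ n ih =>
    cases c with
    | zero =>
      obtain ⟨W, hW, hW'⟩ := ih 0
      refine ⟨W.image (fun w' => Function.update w' (n + 1) (w' n)), ?_, ?_⟩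
      · refine card_image_le.trans (hW.trans ?_)
        simp
      · intro w hw
        rw [filt_succ_Cnt] at hw
        have h1 : w (n + 1) = w n := by
          by_contra h
          rw [if_pos h] at hw
          omega
        obtain ⟨w', hw', he⟩ := hW' w (by omega)
        refine ⟨_, mem_image.2 ⟨w', hw', rfl⟩, fun i hi => ?_⟩
        by_cases hi' : i = n + 1
        · subst hi'
          rw [Function.update_self, h1, he n le_rfl]
        · rw [Function.update_of_ne hi', he i (by omega)]
    | succ c =>
      obtain ⟨W, hW, hW'⟩ := ih (c + 1)
      obtain ⟨V, hV, hV'⟩ := ih c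
      refine ⟨W.image (fun w' => Function.update w' (n + 1) (w' n)) ∪
        (V ×ˢ (univ : Finset (Fin N))).image (fun p => Function.update p.1 (n + 1) p.2), ?_, ?_⟩
      · refine (card_union_le _ _).trans ?_
        have h1 : (W.image (fun w' => Function.update w' (n + 1) (w' n))).card ≤
            N ^ (c + 1 + 1) * (n + 1) ^ (c + 1) := card_image_le.trans hW
        have h2 : ((V ×ˢ (univ : Finset (Fin N))).image (fun p => Function.update p.1 (n + 1) p.2)).card ≤
            N ^ (c + 1) * (n + 1) ^ c * N := by
          refine card_image_le.trans ?_
          rw [card_product, card_univ, Fintype.card_fin]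
          exact Nat.mul_le_mul_right _ hV
        refine (Nat.add_le_add h1 h2).trans ?_
        have e : N ^ (c + 1 + 1) * (n + 1) ^ (c + 1) + N ^ (c + 1) * (n + 1) ^ c * N =
            N ^ (c + 1 + 1) * ((n + 1) ^ c * (n + 1 + 1)) := by ring
        rw [e]
        refine Nat.mul_le_mul_left _ ?_
        rw [pow_succ (n + 1 + 1) c]
        exact Nat.mul_le_mul_right _ (Nat.pow_le_pow_left (by omega) c)
      · intro w hw
        rw [filt_succ_Cnt] at hw
        by_cases h1 : w (n + 1) = w n
        · obtain ⟨w', hw', he⟩ := hW' w (by omega)
          refine ⟨_, mem_union_left _ (mem_image.2 ⟨w', hw', rfl⟩), fun i hi => ?_⟩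
          by_cases hi' : i = n + 1
          · subst hi'
            rw [Function.update_self, h1, he n le_rfl]
          · rw [Function.update_of_ne hi', he i (by omega)]
        · rw [if_pos h1] at hw
          obtain ⟨w', hw', he⟩ := hV' w (by omega)
          refine ⟨_, mem_union_right _ (mem_image.2 ⟨(w', w (n + 1)),
            mem_product.2 ⟨hw', mem_univ _⟩, rfl⟩), fun i hi => ?_⟩
          by_cases hi' : i = n + 1
          · subst hi'
            rw [Function.update_self]
          · rw [Function.update_of_ne hi']
            exact he i (by omega)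

end Helper85.HN
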