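import Pool.Agent.Helper85.HN.St

/-! Module Cvt of project HN. -/

set_option autoImplicit false

open Set

namespace Helper85.HN

theorem hCvt (h1 : StKc) (h2 : StZer) : StCvt := by
  have key : ∀ (b c : ℝ) (x : ℤ → ℝ), Orb b c x ↔ Uo b ((1 + b) ^ 2 / 4 - c) (fun n => x n - (1 + b) / 2) := by
    intro b c x
    unfold Orb Uo
    constructor
    · intro h n
      have := h n
      simp only
      rw [this]
      ring
    · intro h n
      have := h n
      simp only at this
      linarith [this]
  refine ⟨key, ?_⟩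
  intro b c hc
  refine ⟨fun _ => 0, continuous_const, fun p _ => le_refl _, ?_⟩
  intro p hp _
  have hconst : ∀ q ∈ KK b c, q = ((1 + b) / 2, (1 + b) / 2) := by
    rintro q ⟨x, hx, ⟨M, hM⟩, hx0, hx1⟩
    have hu := (key b c x).1 hx
    have hb : Bd (fun n => x n - (1 + b) / 2) := by
      refine ⟨M + |(1 + b) / 2|, fun n => ?_⟩
      exact (abs_sub _ _).trans (add_le_add (hM n) le_rfl)
    have hz := (h2 b _ _ (by linarith) hu hb).2
    have e0 : x 0 = (1 + b) / 2 := by have := hz 0; linarith
    have e1 : x (-1) = (1 + b) / 2 := by have := hz (-1); linarith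
    ext
    · rw [← hx0, e0]
    · rw [← hx1, e1]
  have hm : hen b c p ∈ KK b c := (h1 b c).2.2.1 hp
  rw [hconst p hp] at hm ⊢
  exact hconst _ hm

end Helper85.HN
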