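import Pool.Agent.Helper85.HN.St

/-! # Project HN, module Err: the Leibniz defect is exponentially small -/

set_option autoImplicit false

namespace Helper85.HN

open Finset

private theorem sum_Err {k : ℕ} {a F G : ℕ → ℝ} {B : ℝ} (ha : ∀ j ∈ Finset.Icc 1 k, |a j| ≤ 1)
    (hG : ∑ j ∈ Finset.Icc 1 k, a j * G j = 0) (hFG : ∀ j ∈ Finset.Icc 1 k, |F j - G j| ≤ B) :
    |∑ j ∈ Finset.Icc 1 k, a j * F j| ≤ k * B := by
  have e : ∑ j ∈ Finset.Icc 1 k, a j * F j = ∑ j ∈ Finset.Icc 1 k, a j * (F j - G j) := by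
    simp_rw [mul_sub]
    rw [Finset.sum_sub_distrib, hG, sub_zero]
  rw [e]
  refine (Finset.abs_sum_le_sum_abs _ _).trans ?_
  have h1 : ∀ j ∈ Finset.Icc 1 k, |a j * (F j - G j)| ≤ B := by
    intro j hj
    rw [abs_mul]
    have h2 := ha j hj
    have h3 := hFG j hj
    calc |a j| * |F j - G j| ≤ 1 * |F j - G j| := mul_le_mul_of_nonneg_right h2 (abs_nonneg _)
      _ ≤ B := by linarith
  refine (Finset.sum_le_sum h1).trans ?_
  simp

private theorem dist_Err {u : ℤ → ℝ} {n : ℤ} {k : ℕ} {R : ℝ}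
    (h : ∀ i : ℤ, n - k ≤ i → i + 1 ≤ n + k → |u (i + 1) - u i| ≤ R) (j : ℕ) (hj : j ≤ k) :
    |u (n + j) - u n| ≤ j * R ∧ |u (n - j) - u n| ≤ j * R := by
  induction j with
  | zero => simp
  | succ j ih =>
    obtain ⟨h1, h2⟩ := ih (by omega)
    constructor
    · have h3 := h (n + j) (by omega) (by omega)
      have e : u (n + (j + 1 : ℕ)) - u n = (u (n + j + 1) - u (n + j)) + (u (n + j) - u n) := by
        rw [show n + ((j + 1 : ℕ) : ℤ) = n + j + 1 by push_cast; ring]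
        ring
      rw [e]
      refine (abs_add_le _ _).trans ?_
      push_cast
      linarith
    · have h3 := h (n - (j + 1 : ℕ)) (by omega) (by omega)
      have e : u (n - (j + 1 : ℕ)) - u n = -(u (n - (j + 1 : ℕ) + 1) - u (n - (j + 1 : ℕ))) + (u (n - j) - u n) := by
        rw [show n - ((j + 1 : ℕ) : ℤ) + 1 = n - j by push_cast; ring]
        ring
      rw [e]
      refine (abs_add_le _ _).trans ?_
      rw [abs_neg]
      push_cast at h3 ⊢
      linarith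

private theorem sq_Err {y q K R η : ℝ} (hy : |y| ≤ K * R) (hρ : |y - q| ≤ 2 * η * R) (hη : η ≤ K) (hη0 : 0 ≤ η)
    (hR : 0 ≤ R) (hK : 0 ≤ K) : |y ^ 2 - q ^ 2| ≤ 8 * K * η * R ^ 2 := by
  have e : y ^ 2 - q ^ 2 = (y - q) * (2 * y - (y - q)) := by ring
  rw [e, abs_mul]
  have h1 : |2 * y - (y - q)| ≤ 4 * K * R := by
    have h2 : |2 * y - (y - q)| ≤ |2 * y| + |y - q| := abs_sub _ _
    rw [abs_mul, abs_two] at h2
    have h3 : η * R ≤ K * R := mul_le_mul_of_nonneg_right hη hR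
    nlinarith
  calc |y - q| * |2 * y - (y - q)| ≤ (2 * η * R) * (4 * K * R) :=
        mul_le_mul hρ h1 (abs_nonneg _) (by positivity)
    _ = 8 * K * η * R ^ 2 := by ring

private theorem cu_Err {y q K R η : ℝ} (hy : |y| ≤ K * R) (hρ : |y - q| ≤ 2 * η * R) (hη : η ≤ K) (hη0 : 0 ≤ η)
    (hR : 0 ≤ R) (hK : 0 ≤ K) : |y ^ 3 - q ^ 3| ≤ 26 * K ^ 2 * η * R ^ 3 := by
  have e : y ^ 3 - q ^ 3 = (y - q) * (y ^ 2 + y * q + q ^ 2) := by ring
  rw [e, abs_mul]
  have hq : |q| ≤ 3 * K * R := by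
    have h2 : |q| ≤ |y| + |y - q| := by
      have := abs_sub_abs_le_abs_sub q y
      rw [abs_sub_comm q y] at this
      linarith
    have h3 : η * R ≤ K * R := mul_le_mul_of_nonneg_right hη hR
    nlinarith
  have h1 : |y ^ 2 + y * q + q ^ 2| ≤ 13 * K ^ 2 * R ^ 2 := by
    refine (abs_add_le _ _).trans ?_
    have h4 : |y ^ 2 + y * q| ≤ |y ^ 2| + |y * q| := abs_add_le _ _
    have h5 : |y ^ 2| ≤ (K * R) ^ 2 := by
      rw [abs_pow]; exact pow_le_pow_left₀ (abs_nonneg _) hy 2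
    have h6 : |q ^ 2| ≤ (3 * K * R) ^ 2 := by
      rw [abs_pow]; exact pow_le_pow_left₀ (abs_nonneg _) hq 2
    have h7 : |y * q| ≤ (K * R) * (3 * K * R) := by
      rw [abs_mul]; exact mul_le_mul hy hq (abs_nonneg _) (by positivity)
    nlinarith
  calc |y - q| * |y ^ 2 + y * q + q ^ 2| ≤ (2 * η * R) * (13 * K ^ 2 * R ^ 2) :=
        mul_le_mul hρ h1 (abs_nonneg _) (by positivity)
    _ = 26 * K ^ 2 * η * R ^ 3 := by ring

theorem hErr (h1 : StEx) (h2 : StBj) (h3 : StNew) : StErr := by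
  intro l u n R h hl hR hh hRh hlh hun hdl
  have hk1 : 1 ≤ 3 * l := by omega
  set k : ℕ := 3 * l with hk
  have hkl : (k : ℝ) = 3 * l := by rw [hk]; push_cast; ring
  have hl' : (1 : ℝ) ≤ l := by exact_mod_cast hl
  have hk' : (3 : ℝ) ≤ k := by rw [hkl]; linarith
  have hkh : (k : ℝ) * h ≤ 1 / 200 := by rw [hkl]; linarith
  obtain ⟨P, hPd, hP⟩ := h3 k (2 * l) u n R h hk1 hR hh (by linarith) (by
    intro m hm1 hm2
    exact hdl m (n - k) (by omega) le_rfl (by omega))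
  have hstep : ∀ i : ℤ, n - k ≤ i → i + 1 ≤ n + k → |u (i + 1) - u i| ≤ R := by
    intro i hi1 hi2
    have := hdl 1 i le_rfl hi1 (by exact_mod_cast hi2)
    simpa [dl] using this
  set η : ℝ := 3 * k * (1 / 10) ^ (2 * l) with hη
  have hη0 : 0 ≤ η := by positivity
  have hηk : η ≤ k := by
    have h4 : ((1 : ℝ) / 10) ^ (2 * l) ≤ 1 / 100 := by
      rw [pow_mul]
      calc (((1 : ℝ) / 10) ^ 2) ^ l ≤ (((1 : ℝ) / 10) ^ 2) ^ 1 :=
            pow_le_pow_of_le_one (by norm_num) (by norm_num) hl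
        _ = 1 / 100 := by norm_num
    rw [hη]
    nlinarith
  set Q : Polynomial ℝ := P - Polynomial.C (P.eval 0) with hQ
  have hQd : Q.natDegree ≤ 2 * l := by
    rw [hQ, Polynomial.natDegree_sub_C]
    exact hPd
  have hQ0 : Q.eval 0 = 0 := by simp [hQ]
  have hρ : ∀ j : ℤ, |j| ≤ k → |(u (n + j) - u n) - Q.eval (j : ℝ)| ≤ 2 * η * R := by
    intro j hj
    have a1 := hP j hj
    have a2 := hP 0 (by simp)
    have e : (u (n + j) - u n) - Q.eval (j : ℝ) =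
        (u (n + j) - P.eval (j : ℝ)) - (u (n + 0) - P.eval ((0 : ℤ) : ℝ)) := by
      rw [hQ]
      simp
      ring
    rw [e]
    refine (abs_sub _ _).trans ?_
    rw [hη]
    linarith
  obtain ⟨hak, -⟩ := h2 k hk1
  have hk0 : (0 : ℝ) ≤ k := by linarith
  have hy : ∀ j : ℕ, j ≤ k → |u (n + j) - u n| ≤ k * R ∧ |u (n - j) - u n| ≤ k * R := by
    intro j hj
    obtain ⟨a1, a2⟩ := dist_Err hstep j hj
    have a3 : (j : ℝ) * R ≤ k * R := mul_le_mul_of_nonneg_right (by exact_mod_cast hj) hR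
    exact ⟨a1.trans a3, a2.trans a3⟩
  have hb : ∀ j ∈ Finset.Icc 1 k, (|u (n + j) - u n| ≤ k * R ∧ |u (n - j) - u n| ≤ k * R) ∧
      |(u (n + j) - u n) - Q.eval (j : ℝ)| ≤ 2 * η * R ∧ |(u (n - j) - u n) - Q.eval (-(j : ℝ))| ≤ 2 * η * R := by
    intro j hj
    rw [Finset.mem_Icc] at hj
    refine ⟨hy j hj.2, ?_, ?_⟩
    · have := hρ (j : ℤ) (by rw [abs_of_nonneg (by positivity)]; exact_mod_cast hj.2)
      simpa using this
    · have := hρ (-(j : ℤ)) (by rw [abs_neg, abs_of_nonneg (by positivity)]; exact_mod_cast hj.2)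
      simpa [sub_eq_add_neg] using this
  have hx2 := h1 k (Q ^ 2) hk1 (by
    refine Polynomial.natDegree_pow_le.trans ?_
    omega)
  have hx3 := h1 k (Q ^ 3) hk1 (by
    refine Polynomial.natDegree_pow_le.trans ?_
    omega)
  have hz2 : (Polynomial.derivative (Q ^ 2)).eval 0 = 0 := by
    rw [Polynomial.derivative_pow]
    simp [hQ0]
  have hz3 : (Polynomial.derivative (Q ^ 3)).eval 0 = 0 := by
    rw [Polynomial.derivative_pow]
    simp [hQ0]
  rw [hz2] at hx2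
  rw [hz3] at hx3
  have b2 : |DD k (fun i => (u i - u n) ^ 2) n| ≤ k * (2 * (8 * k * η * R ^ 2)) := by
    refine sum_Err (G := fun j => (Q ^ 2).eval (j : ℝ) - (Q ^ 2).eval (-(j : ℝ))) hak hx2 ?_
    intro j hj
    obtain ⟨⟨c1, c2⟩, c3, c4⟩ := hb j hj
    have d1 := sq_Err c1 c3 hηk hη0 hR hk0
    have d2 := sq_Err c2 c4 hηk hη0 hR hk0
    simp only [Polynomial.eval_pow]
    have e : (u (n + j) - u n) ^ 2 - (u (n - j) - u n) ^ 2 - (Q.eval (j : ℝ) ^ 2 - Q.eval (-(j : ℝ)) ^ 2) =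
      ((u (n + j) - u n) ^ 2 - Q.eval (j : ℝ) ^ 2) - ((u (n - j) - u n) ^ 2 - Q.eval (-(j : ℝ)) ^ 2) := by ring
    rw [e]
    refine (abs_sub _ _).trans ?_
    linarith
  have b3 : |DD k (fun i => (u i - u n) ^ 3) n| ≤ k * (2 * (26 * k ^ 2 * η * R ^ 3)) := by
    refine sum_Err (G := fun j => (Q ^ 3).eval (j : ℝ) - (Q ^ 3).eval (-(j : ℝ))) hak hx3 ?_
    intro j hj
    obtain ⟨⟨c1, c2⟩, c3, c4⟩ := hb j hj
    have d1 := cu_Err c1 c3 hηk hη0 hR hk0
    have d2 := cu_Err c2 c4 hηk hη0 hR hk0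
    simp only [Polynomial.eval_pow]
    have e : (u (n + j) - u n) ^ 3 - (u (n - j) - u n) ^ 3 - (Q.eval (j : ℝ) ^ 3 - Q.eval (-(j : ℝ)) ^ 3) =
      ((u (n + j) - u n) ^ 3 - Q.eval (j : ℝ) ^ 3) - ((u (n - j) - u n) ^ 3 - Q.eval (-(j : ℝ)) ^ 3) := by ring
    rw [e]
    refine (abs_sub _ _).trans ?_
    linarith
  have hkh0 : 0 ≤ (k : ℝ) * h := by positivity
  have c1 : |u n * DD k (fun i => (u i - u n) ^ 2) n| ≤ (256 / 40000) * (η * R ^ 2) := by
    rw [abs_mul]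
    calc |u n| * |DD k (fun i => (u i - u n) ^ 2) n| ≤ (16 * h ^ 2) * (k * (2 * (8 * k * η * R ^ 2))) :=
          mul_le_mul hun b2 (abs_nonneg _) (by positivity)
      _ = 256 * (k * h) ^ 2 * (η * R ^ 2) := by ring
      _ ≤ 256 * (1 / 200) ^ 2 * (η * R ^ 2) := by gcongr
      _ = _ := by ring
  have c2 : |1 / 3 * DD k (fun i => (u i - u n) ^ 3) n| ≤ (1 / 10) * (η * R ^ 2) := by
    rw [abs_mul, abs_of_nonneg (by norm_num : (0 : ℝ) ≤ 1 / 3)]
    calc 1 / 3 * |DD k (fun i => (u i - u n) ^ 3) n| ≤ 1 / 3 * (k * (2 * (26 * k ^ 2 * η * R ^ 3))) := by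
          linarith
      _ = 52 / 3 * (k ^ 3 * R) * (η * R ^ 2) := by ring
      _ ≤ 52 / 3 * (k ^ 3 * (1300 * h ^ 3)) * (η * R ^ 2) := by gcongr
      _ = 67600 / 3 * (k * h) ^ 3 * (η * R ^ 2) := by ring
      _ ≤ 67600 / 3 * (1 / 200) ^ 3 * (η * R ^ 2) := by gcongr
      _ ≤ (1 / 10) * (η * R ^ 2) := by
          apply mul_le_mul_of_nonneg_right _ (by positivity)
          norm_num
  have hfin : |EE k u n| ≤ η * R ^ 2 := by
    rw [EE]
    refine (abs_add_le _ _).trans ?_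
    have : 0 ≤ η * R ^ 2 := by positivity
    linarith
  refine hfin.trans (le_of_eq ?_)
  rw [hη, hkl]
  ring

end Helper85.HN
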