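import Pool.Agent.Helper85.HN.St

/-!
Module Ex of project HN (MP_b39980_an).
-/

set_option autoImplicit false

namespace Helper85.HN

open Set Filter Topology Finset

private lemma icc_Ex (k : ℕ) (f : ℕ → ℝ) : ∑ j ∈ Finset.Icc 1 k, f j = ∑ j ∈ Finset.range k, f (j + 1) := by
  induction k with
  | zero => simp
  | succ k ih => rw [Finset.sum_Icc_succ_top (by omega), ih, Finset.sum_range_succ]

private lemma alt_Ex (k : ℕ) (q : Polynomial ℝ) (hq : q.natDegree < 2 * k) :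
    ((2 * k).choose k : ℝ) * q.eval 0 = ∑ j ∈ Finset.range k, (-1) ^ (j + 2) * ((2 * k).choose (k + (j + 1)) : ℝ) *
      (q.eval ((j + 1 : ℕ) : ℝ) + q.eval (-((j + 1 : ℕ) : ℝ))) := by
  have h := congrFun (Polynomial.fwdDiff_iter_eq_zero_of_degree_lt hq) (-(k : ℝ))
  rw [fwdDiff_iter_eq_sum_shift] at h
  simp only [Pi.zero_apply] at h
  have h2 : ∑ i ∈ Finset.range (2 * k + 1), (-1 : ℝ) ^ i * ((2 * k).choose i : ℝ) * q.eval (-(k : ℝ) + i) = 0 := by
    rw [← h]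
    refine Finset.sum_congr rfl fun i hi => ?_
    have hi' : i ≤ 2 * k := Nat.lt_succ_iff.mp (Finset.mem_range.mp hi)
    rw [zsmul_eq_mul, nsmul_one]
    push_cast
    have hs : (-1 : ℝ) ^ (2 * k - i) = (-1) ^ i := by
      have e : (-1 : ℝ) ^ (2 * k - i) * (-1) ^ i = 1 := by
        rw [← pow_add, Nat.sub_add_cancel hi', pow_mul]
        norm_num
      have e2 : (-1 : ℝ) ^ i * (-1) ^ i = 1 := by
        rw [← mul_pow]; norm_num
      have e3 : (-1 : ℝ) ^ i ≠ 0 := pow_ne_zero _ (by norm_num)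
      exact mul_right_cancel₀ e3 (e.trans e2.symm)
    rw [hs]
  rw [show 2 * k + 1 = k + (k + 1) by ring, Finset.sum_range_add, Finset.sum_range_succ',
    ← Finset.sum_range_reflect] at h2
  have hk : (-1 : ℝ) ^ k ≠ 0 := pow_ne_zero _ (by norm_num)
  apply mul_left_cancel₀ hk
  have e0 : (-1 : ℝ) ^ (k + 0) * ((2 * k).choose (k + 0) : ℝ) * q.eval (-(k : ℝ) + ((k + 0 : ℕ) : ℝ)) =
      (-1) ^ k * (((2 * k).choose k : ℝ) * q.eval 0) := by
    simp
    ring
  rw [e0] at h2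
  have e1 : ∀ j ∈ Finset.range k, (-1 : ℝ) ^ (k - 1 - j) * ((2 * k).choose (k - 1 - j) : ℝ) *
      q.eval (-(k : ℝ) + ((k - 1 - j : ℕ) : ℝ)) =
      -((-1) ^ k * ((-1) ^ (j + 2) * ((2 * k).choose (k + (j + 1)) : ℝ) * q.eval (-((j + 1 : ℕ) : ℝ)))) := by
    intro j hj
    have hj' : j < k := Finset.mem_range.mp hj
    have a1 : (2 * k).choose (k - 1 - j) = (2 * k).choose (k + (j + 1)) := by
      apply Nat.choose_symm_of_eq_add
      omega
    have a2 : -(k : ℝ) + ((k - 1 - j : ℕ) : ℝ) = -((j + 1 : ℕ) : ℝ) := by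
      have : ((k - 1 - j : ℕ) : ℝ) + ((j + 1 : ℕ) : ℝ) = (k : ℝ) := by
        rw [← Nat.cast_add]; congr 1; omega
      linarith
    have a3 : (-1 : ℝ) ^ (k - 1 - j) = -((-1) ^ k * (-1) ^ (j + 2)) := by
      have b1 : (-1 : ℝ) ^ (k - 1 - j) * (-1) ^ (j + 1) = (-1) ^ k := by
        rw [← pow_add]; congr 1; omega
      have b2 : (-1 : ℝ) ^ (j + 1) * (-1) ^ (j + 1) = 1 := by
        rw [← mul_pow]; norm_num
      have b3 : (-1 : ℝ) ^ (j + 2) = -(-1) ^ (j + 1) := by rw [pow_succ]; ring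
      rw [b3, ← b1]
      generalize (-1 : ℝ) ^ (j + 1) = t at b2 ⊢
      linear_combination (-(-1 : ℝ) ^ (k - 1 - j)) * b2
    rw [a1, a2, a3]; ring
  have e2 : ∀ j ∈ Finset.range k, (-1 : ℝ) ^ (k + (j + 1)) * ((2 * k).choose (k + (j + 1)) : ℝ) *
      q.eval (-(k : ℝ) + ((k + (j + 1) : ℕ) : ℝ)) =
      -((-1) ^ k * ((-1) ^ (j + 2) * ((2 * k).choose (k + (j + 1)) : ℝ) * q.eval ((j + 1 : ℕ) : ℝ))) := by
    intro j _
    have a2 : -(k : ℝ) + ((k + (j + 1) : ℕ) : ℝ) = ((j + 1 : ℕ) : ℝ) := by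
      push_cast; ring
    rw [a2, pow_add, pow_succ (-1 : ℝ) (j + 1)]
    ring
  rw [Finset.sum_congr rfl e1, Finset.sum_congr rfl e2, Finset.sum_neg_distrib, Finset.sum_neg_distrib,
    ← Finset.mul_sum, ← Finset.mul_sum] at h2
  have e3 : ∑ j ∈ Finset.range k, (-1) ^ (j + 2) * ((2 * k).choose (k + (j + 1)) : ℝ) *
      (q.eval ((j + 1 : ℕ) : ℝ) + q.eval (-((j + 1 : ℕ) : ℝ))) =
      ∑ j ∈ Finset.range k, (-1) ^ (j + 2) * ((2 * k).choose (k + (j + 1)) : ℝ) * q.eval ((j + 1 : ℕ) : ℝ) +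
      ∑ j ∈ Finset.range k, (-1) ^ (j + 2) * ((2 * k).choose (k + (j + 1)) : ℝ) * q.eval (-((j + 1 : ℕ) : ℝ)) := by
    rw [← Finset.sum_add_distrib]
    exact Finset.sum_congr rfl fun j _ => by ring
  rw [e3]
  linarith

theorem hEx : StEx := by
  intro k p hk hp
  have hC : ((2 * k).choose k : ℝ) ≠ 0 := by
    have := Nat.choose_pos (show k ≤ 2 * k by omega)
    positivity
  have hdeg : p.divX.natDegree < 2 * k := by
    rw [Polynomial.natDegree_divX_eq_natDegree_tsub_one]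
    omega
  have hx : ∀ x : ℝ, p.eval x = p.divX.eval x * x + p.coeff 0 := by
    intro x
    conv_lhs => rw [← Polynomial.divX_mul_X_add p]
    simp
  have hd : (Polynomial.derivative p).eval 0 = p.divX.eval 0 := by
    rw [← Polynomial.coeff_zero_eq_eval_zero, ← Polynomial.coeff_zero_eq_eval_zero,
      Polynomial.coeff_derivative, Polynomial.coeff_divX]
    simp
  have h := alt_Ex k p.divX hdeg
  rw [icc_Ex, hd]
  apply mul_left_cancel₀ hC
  rw [h, Finset.mul_sum]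
  refine Finset.sum_congr rfl fun j _ => ?_
  rw [hx, hx, ak]
  have hj : ((j + 1 : ℕ) : ℝ) ≠ 0 := by positivity
  rw [show j + 1 + 1 = j + 2 from rfl]
  field_simp
  ring

end Helper85.HN
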