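import Pool.Agent.Helper85.HN.St

/-!
Module Gen of project HN (MP_b39980_an).
-/

set_option autoImplicit false

namespace Helper85.HN

open Set Filter Topology

theorem hGen (h1 : StCnt) (h2 : StPoly) (h3 : StIti) : StGen := by
  classical
  intro f K L hf hK hm hL hle heq hfin
  apply h2 f K hm
  intro U hU
  obtain ⟨N, c, A, hA, hx⟩ := h3 f K L hf hK hm hL hle heq hfin U hU
  refine ⟨N ^ (c + 1), c, fun n => ?_⟩
  obtain ⟨W, hWc, hW⟩ := h1 N c n
  let g : (ℕ → Fin N) → ℝ × ℝ := fun w' =>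
    if h : ∃ y, y ∈ K ∧ ∀ i ≤ n, f^[i] y ∈ A (w' i) then h.choose else (0, 0)
  let s : Finset (ℝ × ℝ) := W.image g
  have hcov : Dynamics.IsDynCoverOf f K U n (s : Set (ℝ × ℝ)) := by
    intro x hxK
    obtain ⟨w, hw, hc⟩ := hx x hxK
    obtain ⟨w', hw'W, hw'⟩ := hW w (hc n)
    have hex : ∃ y, y ∈ K ∧ ∀ i ≤ n, f^[i] y ∈ A (w' i) :=
      ⟨x, hxK, fun i hi => by rw [hw' i hi]; exact hw i⟩
    refine ⟨g w', ?_, ?_⟩
    · exact Finset.mem_coe.mpr (Finset.mem_image_of_mem g hw'W)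
    · show (x, g w') ∈ Dynamics.dynEntourage f U n
      rw [Dynamics.mem_dynEntourage]
      intro k hk
      have hg : f^[k] (g w') ∈ A (w' k) := by
        simp only [g, dif_pos hex]
        exact hex.choose_spec.2 k hk.le
      exact hA (w' k) _ (by rw [hw' k hk.le]; exact hw k) _ hg
  refine hcov.coverMincard_le_card.trans ?_
  exact_mod_cast (Finset.card_image_le.trans hWc)

end Helper85.HN
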