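import Pool.Agent.Helper85.HN.St

/-!
# Module Gl of project HN: global bounds of all differences
-/

set_option autoImplicit false

namespace Helper85.HN

private theorem dl_succ_Gl (m : ℕ) (u : ℤ → ℝ) (n : ℤ) : dl (m + 1) u n = dl m u (n + 1) - dl m u n := rfl

/-- the recurrence for the second differences -/
private theorem two_Gl (b h : ℝ) (u : ℤ → ℝ) (hU : Uo b (h ^ 4) u) (n : ℤ) :
    dl 2 u n = (u (n + 1) * u (n + 1) + (-(h ^ 4)) * 1) + (-(1 - b)) * dl 1 u n := by
  have h1 := hU (n + 1)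
  have e1 : n + 1 - 1 = n := by ring
  rw [e1] at h1
  have e2 : dl 2 u n = (u (n + 1 + 1) - u (n + 1)) - (u (n + 1) - u n) := rfl
  have e3 : dl 1 u n = u (n + 1) - u n := rfl
  rw [e2, e3, h1]
  ring

/-- the bound of the differences of the square -/
private theorem sq_Gl (h1 : StLei) (h : ℝ) (u : ℤ → ℝ) (m : ℕ)
    (hb : ∀ j ≤ m, ∀ n, |dl j u n| ≤ 16 * (j.factorial : ℝ) * h ^ 2 * (10 * h) ^ j) (n : ℤ) :
    |dl m (fun i => u i * u i) n| ≤ 256 * ((m + 1).factorial : ℝ) * h ^ 4 * (10 * h) ^ m := by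
  rw [h1.1 m u u n]
  have hs : ∀ j ∈ Finset.range (m + 1),
      |(m.choose j : ℝ) * dl j u (n + ((m - j : ℕ) : ℤ)) * dl (m - j) u n|
        ≤ 256 * (m.factorial : ℝ) * h ^ 4 * (10 * h) ^ m := by
    intro j hj
    have hj' : j ≤ m := Nat.lt_succ_iff.1 (Finset.mem_range.1 hj)
    have a1 := hb j hj' (n + ((m - j : ℕ) : ℤ))
    have a2 := hb (m - j) (Nat.sub_le m j) n
    rw [abs_mul, abs_mul, Nat.abs_cast]
    have hc : (0 : ℝ) ≤ (m.choose j : ℝ) := Nat.cast_nonneg _
    calc (m.choose j : ℝ) * |dl j u (n + ((m - j : ℕ) : ℤ))| * |dl (m - j) u n|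
        = (m.choose j : ℝ) * (|dl j u (n + ((m - j : ℕ) : ℤ))| * |dl (m - j) u n|) := by ring
      _ ≤ (m.choose j : ℝ) * ((16 * (j.factorial : ℝ) * h ^ 2 * (10 * h) ^ j) *
            (16 * ((m - j).factorial : ℝ) * h ^ 2 * (10 * h) ^ (m - j))) :=
          mul_le_mul_of_nonneg_left
            (mul_le_mul a1 a2 (abs_nonneg _) ((abs_nonneg _).trans a1)) hc
      _ = 256 * ((m.choose j : ℝ) * (j.factorial : ℝ) * ((m - j).factorial : ℝ)) * h ^ 4 *
            ((10 * h) ^ j * (10 * h) ^ (m - j)) := by ring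
      _ = 256 * (m.factorial : ℝ) * h ^ 4 * (10 * h) ^ m := by
          rw [← pow_add, Nat.add_sub_cancel' hj']
          have := Nat.choose_mul_factorial_mul_factorial hj'
          rw [← this]
          push_cast
          ring
  calc |∑ j ∈ Finset.range (m + 1), (m.choose j : ℝ) * dl j u (n + ((m - j : ℕ) : ℤ)) * dl (m - j) u n|
      ≤ ∑ j ∈ Finset.range (m + 1), |(m.choose j : ℝ) * dl j u (n + ((m - j : ℕ) : ℤ)) * dl (m - j) u n| :=
        Finset.abs_sum_le_sum_abs _ _
    _ ≤ ∑ _j ∈ Finset.range (m + 1), 256 * (m.factorial : ℝ) * h ^ 4 * (10 * h) ^ m := Finset.sum_le_sum hs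
    _ = 256 * ((m + 1).factorial : ℝ) * h ^ 4 * (10 * h) ^ m := by
        rw [Finset.sum_const, Finset.card_range, nsmul_eq_mul, Nat.factorial_succ]
        push_cast
        ring

theorem hGl (h1 : StLei) : StGl := by
  intro b h u hb1 hb2 h0 h100 hU hu hv m
  have hb3 : 0 ≤ 1 - b := by linarith
  have hb4 : 1 - b ≤ h := by linarith
  have hv' : ∀ n, |dl 1 u n| ≤ 150 * h ^ 3 := by
    intro n
    have := hv (n + 1)
    rwa [show n + 1 - 1 = n by ring] at this
  induction m using Nat.strong_induction_on with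
  | _ m ih =>
    intro n
    match m, ih with
    | 0, _ =>
      have : dl 0 u n = u n := rfl
      rw [this]
      simpa using hu n
    | 1, _ =>
      refine (hv' n).trans ?_
      have : (0 : ℝ) < h ^ 3 := by positivity
      norm_num
      nlinarith
    | 2, _ =>
      rw [two_Gl b h u hU n]
      have hp : (0 : ℝ) < h ^ 4 := by positivity
      have a1 : |u (n + 1) * u (n + 1) + (-(h ^ 4)) * 1| ≤ 256 * h ^ 4 := by
        have hsq : u (n + 1) * u (n + 1) ≤ 256 * h ^ 4 := by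
          have := abs_mul_abs_self (u (n + 1))
          rw [← this]
          calc |u (n + 1)| * |u (n + 1)| ≤ (16 * h ^ 2) * (16 * h ^ 2) :=
                mul_le_mul (hu _) (hu _) (abs_nonneg _) (by positivity)
            _ = 256 * h ^ 4 := by ring
        have hsq0 : 0 ≤ u (n + 1) * u (n + 1) := mul_self_nonneg _
        rw [abs_le]
        constructor <;> linarith
      have a2 : |(-(1 - b)) * dl 1 u n| ≤ h * (150 * h ^ 3) := by
        rw [abs_mul, abs_neg, abs_of_nonneg hb3]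
        exact mul_le_mul hb4 (hv' n) (abs_nonneg _) h0.le
      calc |u (n + 1) * u (n + 1) + (-(h ^ 4)) * 1 + (-(1 - b)) * dl 1 u n|
          ≤ 256 * h ^ 4 + h * (150 * h ^ 3) := (abs_add_le _ _).trans (add_le_add a1 a2)
        _ = 406 * h ^ 4 := by ring
        _ ≤ 3200 * h ^ 4 := by linarith
        _ = 16 * ((2 : ℕ).factorial : ℝ) * h ^ 2 * (10 * h) ^ 2 := by
            norm_num [Nat.factorial]
            ring
    | m + 3, ih =>
      obtain ⟨hL1, hL2, hL3, hL4, hL5⟩ := h1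
      have e0 : dl (m + 3) u n = dl (m + 1) (dl 2 u) n := by
        rw [hL4 (m + 1) 2 u n]
      have e1 : dl 2 u = fun i => (fun i => u (i + 1) * u (i + 1) + (-(h ^ 4)) * (fun _ : ℤ => (1 : ℝ)) i) i
          + (-(1 - b)) * dl 1 u i := by
        funext i
        exact two_Gl b h u hU i
      have e2 : dl (m + 3) u n = dl (m + 1) (fun i => u i * u i) (n + 1) + (-(1 - b)) * dl (m + 2) u n := by
        rw [e0, e1, hL2 (m + 1) _ (dl 1 u) (-(1 - b)) n, hL4 (m + 1) 1 u n,
          hL2 (m + 1) (fun i => u (i + 1) * u (i + 1)) (fun _ => 1) (-(h ^ 4)) n, hL3 (m + 1) 1 n (by omega),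
          mul_zero, add_zero]
        have := hL5 (m + 1) (fun i => u i * u i) 1 n
        rw [← this]
      rw [e2]
      have a1 := sq_Gl ⟨hL1, hL2, hL3, hL4, hL5⟩ h u (m + 1) (fun j hj n => ih j (by omega) n) (n + 1)
      have a2 : |(-(1 - b)) * dl (m + 2) u n| ≤ h * (16 * ((m + 2).factorial : ℝ) * h ^ 2 * (10 * h) ^ (m + 2)) := by
        rw [abs_mul, abs_neg, abs_of_nonneg hb3]
        exact mul_le_mul hb4 (ih (m + 2) (by omega) n) (abs_nonneg _) h0.le
      have hf : (1 : ℝ) * ((m + 2).factorial : ℝ) ≤ ((m + 3).factorial : ℝ) := by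
        rw [Nat.factorial_succ (m + 2)]
        push_cast
        have : (0 : ℝ) ≤ ((m + 2).factorial : ℝ) := Nat.cast_nonneg _
        have hm : (0 : ℝ) ≤ (m : ℝ) := Nat.cast_nonneg _
        nlinarith
      have hp : (0 : ℝ) ≤ h ^ 4 * (10 * h) ^ (m + 1) := by positivity
      have hf0 : (0 : ℝ) ≤ ((m + 2).factorial : ℝ) := Nat.cast_nonneg _
      calc |dl (m + 1) (fun i => u i * u i) (n + 1) + (-(1 - b)) * dl (m + 2) u n|
          ≤ 256 * ((m + 1 + 1).factorial : ℝ) * h ^ 4 * (10 * h) ^ (m + 1)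
            + h * (16 * ((m + 2).factorial : ℝ) * h ^ 2 * (10 * h) ^ (m + 2)) :=
            (abs_add_le _ _).trans (add_le_add a1 a2)
        _ = 416 * (((m + 2).factorial : ℝ) * (h ^ 4 * (10 * h) ^ (m + 1))) := by
            rw [show m + 1 + 1 = m + 2 by ring, pow_succ (10 * h) (m + 1)]
            ring
        _ ≤ 1600 * (((m + 3).factorial : ℝ) * (h ^ 4 * (10 * h) ^ (m + 1))) := by
            have k1 : ((m + 2).factorial : ℝ) * (h ^ 4 * (10 * h) ^ (m + 1)) ≤
                ((m + 3).factorial : ℝ) * (h ^ 4 * (10 * h) ^ (m + 1)) :=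
              mul_le_mul_of_nonneg_right (by linarith) hp
            have k2 : 0 ≤ ((m + 2).factorial : ℝ) * (h ^ 4 * (10 * h) ^ (m + 1)) := mul_nonneg hf0 hp
            linarith
        _ = 16 * ((m + 3).factorial : ℝ) * h ^ 2 * (10 * h) ^ (m + 3) := by
            rw [show (10 * h) ^ (m + 3) = (10 * h) ^ (m + 1) * (10 * h) ^ 2 by rw [← pow_add]]
            ring

end Helper85.HN
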