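import Pool.Agent.Helper85.HN.St

/-! Module Hor of project HN. -/

set_option autoImplicit false

open Set

namespace Helper85.HN

theorem hHor (h1 : StPhi) (h2 : StRA) (h3 : StRB) (h4 : StNum) : StHor := by
  intro b c hb1 hb2 hc1 hc2 hex
  set e : ℝ := (1 + b) ^ 2 / 4 - c with he
  have he0 : 0 < e := by rw [he]; linarith
  have he1 : e < 1 / 10 ^ 48 := by rw [he]; linarith
  set h : ℝ := e ^ (1 / 4 : ℝ) with hh
  have hh0 : 0 < h := Real.rpow_pos_of_pos he0 _
  have h4e : h ^ 4 = e := by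
    rw [hh, ← Real.rpow_natCast, ← Real.rpow_mul he0.le]
    norm_num
  have hh1 : h ≤ 1 / 10 ^ 12 := by
    by_contra hcon
    push Not at hcon
    have h5 : (1 / 10 ^ 12 : ℝ) ^ 4 < h ^ 4 := pow_lt_pow_left₀ hcon (by positivity) (by norm_num)
    rw [h4e] at h5
    norm_num at h5 he1
    linarith
  rcases le_or_gt (1 - b) h with hcase | hcase
  · obtain ⟨l, hl1, hl2, hl3⟩ := h4 h hh0 hh1
    refine h1 b c ((1 - b) / (1000 * h ^ 2)) (3 * l) (by linarith) ?_
    intro u hu hbd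
    have := h3 b h u l hh0 hh1 (by linarith) hb2 hl1 hl2 (hl3.trans hex) (by rw [h4e]; exact hu) hbd
    rw [h4e] at this
    exact this
  · refine h1 b c ((1 - b) / (1000 * (h ^ 2 + (1 - b) ^ 2))) 1 (by linarith) ?_
    intro u hu hbd
    have h5 : 5000 * h ^ 3 ≤ 1 - b := by
      have h6 : h ^ 2 ≤ (1 / 10 ^ 12) ^ 2 := pow_le_pow_left₀ hh0.le hh1 2
      have h7 : 5000 * h ^ 3 = 5000 * h ^ 2 * h := by ring
      rw [h7]
      nlinarith
    have := h2 b h u hh0 (hh1.trans (by norm_num)) hb1 hb2 h5 (by rw [h4e]; exact hu) hbd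
    rw [h4e] at this
    exact this

end Helper85.HN
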