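import Pool.Agent.Helper85.HN.St

set_option autoImplicit false

open Set Filter Topology

noncomputable section

namespace Helper85.HN

/-- shifting a window by one -/
theorem tl_shift_Id (y : ℤ → ℝ) (p q : ℤ) (h : p ≤ q) : tl y (p + 1) (q + 1) - tl y p q = y q - y p := by
  obtain ⟨m, rfl⟩ : ∃ m : ℕ, q = p + m := ⟨(q - p).toNat, by omega⟩
  unfold tl
  induction m with
  | zero => simp
  | succ m ih =>
    have ih' := ih (by omega)
    have h1 : Finset.Ico (p + 1) (p + ((m + 1 : ℕ) : ℤ) + 1) =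
        insert (p + (m : ℤ) + 1) (Finset.Ico (p + 1) (p + (m : ℤ) + 1)) := by
      ext x; simp only [Finset.mem_Ico, Finset.mem_insert]; push_cast; omega
    have h2 : Finset.Ico p (p + ((m + 1 : ℕ) : ℤ)) = insert (p + (m : ℤ)) (Finset.Ico p (p + (m : ℤ))) := by
      ext x; simp only [Finset.mem_Ico, Finset.mem_insert]; push_cast; omega
    have n1 : p + (m : ℤ) + 1 ∉ Finset.Ico (p + 1) (p + (m : ℤ) + 1) := by simp
    have n2 : p + (m : ℤ) ∉ Finset.Ico p (p + (m : ℤ)) := by simp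
    rw [h1, h2, Finset.sum_insert n1, Finset.sum_insert n2]
    have e1 : p + ((m + 1 : ℕ) : ℤ) = p + (m : ℤ) + 1 := by push_cast; ring
    rw [e1]
    linarith

/-- the increment of the discrete energy -/
theorem WW_diff_Id (k : ℕ) (e : ℝ) (u : ℤ → ℝ) (n : ℤ) :
    WW k e u (n + 1) - WW k e u n = DD k u n * (u (n + 1) - 2 * u n + u (n - 1))
      - DD k (fun i => u i ^ 3 / 3 - e * u i) n := by
  unfold WW DD
  rw [← Finset.sum_sub_distrib, Finset.sum_mul, ← Finset.sum_sub_distrib]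
  refine Finset.sum_congr rfl ?_
  intro j hj
  have hj1 : 1 ≤ j := (Finset.mem_Icc.1 hj).1
  have hj2 : (1 : ℤ) ≤ (j : ℤ) := by exact_mod_cast hj1
  have t1 := tl_shift_Id (fun i => u i * u (i + j - 1)) (n - j) (n + 1) (by omega)
  have t2 := tl_shift_Id (fun i => u i * u (i + j + 1)) (n - j) (n - 1) (by omega)
  have t3 := tl_shift_Id (fun i => u i * u (i + j)) (n - j) n (by omega)
  have t4 := tl_shift_Id (fun i => u i ^ 3 / 3 - e * u i) (n - j) (n + j) (by omega)
  have e1 : n - (j : ℤ) + 1 = n + 1 - j := by ring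
  have e2 : n - 1 + 1 = n + 1 - 1 := by ring
  have e3 : n + (j : ℤ) + 1 = n + 1 + j := by ring
  rw [e1] at t1 t2 t3 t4
  rw [e2] at t2
  rw [e3] at t4
  beta_reduce at t1 t2 t3 t4
  have f1 : n + 1 + (j : ℤ) - 1 = n + j := by ring
  have f2 : n - (j : ℤ) + j - 1 = n - 1 := by ring
  have f3 : n - 1 + (j : ℤ) + 1 = n + j := by ring
  have f4 : n - (j : ℤ) + j + 1 = n + 1 := by ring
  have f5 : n - (j : ℤ) + j = n := by ring
  rw [f1, f2] at t1
  rw [f3, f4] at t2
  rw [f5] at t3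
  beta_reduce
  linear_combination (ak k j) * (t1 + t2 - 2 * t3 - t4)

/-- the Leibniz rule with defect -/
theorem DD_F_Id (k : ℕ) (e : ℝ) (u : ℤ → ℝ) (n : ℤ) :
    DD k (fun i => u i ^ 3 / 3 - e * u i) n = (u n ^ 2 - e) * DD k u n + EE k u n := by
  unfold EE DD
  rw [Finset.mul_sum, Finset.mul_sum, Finset.mul_sum, ← Finset.sum_add_distrib, ← Finset.sum_add_distrib]
  refine Finset.sum_congr rfl ?_
  intro j _
  ring

theorem hId : StId := by
  intro k b e lam u n hu
  have h1 := WW_diff_Id k e u n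
  have h2 := DD_F_Id k e u n
  have h3 := hu n
  have e1 : n + 1 - 1 = n := by ring
  unfold LL
  rw [e1]
  have h4 : u (n + 1) = u n + b * (u n - u (n - 1)) + (u n ^ 2 - e) := by linarith
  rw [h2] at h1
  have h5 : WW k e u (n + 1) = WW k e u n + (DD k u n * (u (n + 1) - 2 * u n + u (n - 1))
      - ((u n ^ 2 - e) * DD k u n + EE k u n)) := by linarith
  rw [h5, h4]
  ring

end Helper85.HN

end
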