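import Pool.Agent.Helper85.HN.St

/-! Module Int of project HN. -/

set_option autoImplicit false

open Set Filter Topology

namespace Helper85.HN

private lemma inside_Int (h1 : StSma) (h2 : StPar) (b : ℝ) (hb : |b| < 1) :
    ∃ δ > 0, ∀ b' c' : ℝ, |b' - b| < δ → |c' - (1 + b) ^ 2 / 4| < δ → Ly b' c' := by
  obtain ⟨ρ, hρ, hL⟩ := h2 ((1 + |b|) / 2) (by positivity) (by linarith)
  obtain ⟨δ, hδ, hS⟩ := h1 b (ρ / 2) (by linarith)
  refine ⟨min δ (min ρ ((1 - |b|) / 2)), lt_min hδ (lt_min hρ (by linarith)), ?_⟩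
  intro b' c' hb' hc'
  have e1 : |b' - b| < δ := lt_of_lt_of_le hb' (min_le_left _ _)
  have e2 : |b' - b| < ρ := lt_of_lt_of_le hb' ((min_le_right _ _).trans (min_le_left _ _))
  have e3 : |b' - b| < (1 - |b|) / 2 := lt_of_lt_of_le hb' ((min_le_right _ _).trans (min_le_right _ _))
  have e4 : |c' - (1 + b) ^ 2 / 4| < δ := lt_of_lt_of_le hc' (min_le_left _ _)
  have e5 : |b'| ≤ (1 + |b|) / 2 := by
    have : |b'| ≤ |b' - b| + |b| := by
      have := abs_add_le (b' - b) b
      simpa using this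
    linarith
  refine hL b' c' e5 ?_
  intro x hx hbd n
  have h3 := hS b' c' e1 e4 x hx hbd n
  have h4 : x n - (1 + b') / 2 = (x n - (1 + b) / 2) - (b' - b) / 2 := by ring
  rw [h4]
  calc |(x n - (1 + b) / 2) - (b' - b) / 2| ≤ |x n - (1 + b) / 2| + |(b' - b) / 2| := abs_sub _ _
    _ ≤ ρ / 2 + ρ / 2 := by
        rw [abs_div, abs_of_pos (two_pos : (0 : ℝ) < 2)]
        linarith
    _ = ρ := by ring

theorem hInt (h1 : StSma) (h2 : StPar) (h3 : StSym) : StInt := by
  intro b hb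
  rcases lt_or_gt_of_ne hb with hlt | hgt
  · exact inside_Int h1 h2 b hlt
  · have hb0 : b ≠ 0 := by
      rintro rfl
      simp at hgt
      linarith
    have hinv : |1 / b| < 1 := by
      rw [abs_div, abs_one, div_lt_one (by linarith)]
      exact hgt
    obtain ⟨δ, hδ, hL⟩ := inside_Int h1 h2 (1 / b) hinv
    -- continuity of the parameter map
    have hval : (1 + 1 / b) ^ 2 / 4 = (1 + b) ^ 2 / 4 / b ^ 2 := by
      field_simp
      ring
    have hc : ContinuousAt (fun q : ℝ × ℝ => ((1 / q.1, q.2 / q.1 ^ 2) : ℝ × ℝ)) (b, (1 + b) ^ 2 / 4) := by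
      refine ContinuousAt.prodMk ?_ ?_
      · exact continuousAt_const.div continuousAt_fst hb0
      · exact continuousAt_snd.div (continuousAt_fst.pow 2) (pow_ne_zero 2 hb0)
    have hev := Metric.continuousAt_iff.1 hc δ hδ
    obtain ⟨r, hr, hR⟩ := hev
    refine ⟨min r |b|, lt_min hr (by positivity), ?_⟩
    intro b' c' hb' hc'
    have e1 : |b' - b| < r := lt_of_lt_of_le hb' (min_le_left _ _)
    have e2 : |c' - (1 + b) ^ 2 / 4| < r := lt_of_lt_of_le hc' (min_le_left _ _)
    have e3 : |b' - b| < |b| := lt_of_lt_of_le hb' (min_le_right _ _)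
    have hb'0 : b' ≠ 0 := by
      rintro rfl
      simp at e3
    have hd : dist ((b', c') : ℝ × ℝ) (b, (1 + b) ^ 2 / 4) < r := by
      rw [Prod.dist_eq, Real.dist_eq, Real.dist_eq]
      exact max_lt e1 e2
    have h4 := hR hd
    rw [Prod.dist_eq, Real.dist_eq, Real.dist_eq] at h4
    have h5 := (max_lt_iff.1 h4).1
    have h6 := (max_lt_iff.1 h4).2
    simp only at h5 h6
    refine h3 b' c' hb'0 (hL _ _ h5 ?_)
    rw [hval]
    exact h6

end Helper85.HN
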