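import Pool.Agent.Helper85.HN.St

/-! Project HN, module Iti: itineraries from a strict Lyapunov function. -/

set_option autoImplicit false

open Set Filter Topology Metric

namespace Helper85.HN

theorem hIti : StIti := by
  intro f K L hf hK hfK hL hle heq hP U hU
  classical
  obtain ⟨ε, hε, hεU⟩ := Metric.mem_uniformity_dist.1 hU
  set P : Set (ℝ × ℝ) := {p | p ∈ K ∧ f p = p} with hPdef
  -- separation of the fixed points
  obtain ⟨δ, hδ0, hδε, hδs⟩ : ∃ δ : ℝ, 0 < δ ∧ 2 * δ ≤ ε ∧
      ∀ p ∈ P, ∀ q ∈ P, p ≠ q → 2 * δ ≤ dist p q := by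
    have h1 : ∀ᶠ δ in 𝓝[>] (0 : ℝ), ∀ p ∈ P, ∀ q ∈ P, p ≠ q → 2 * δ ≤ dist p q := by
      rw [eventually_all_finite hP]
      intro p hp
      rw [eventually_all_finite hP]
      intro q hq
      by_cases hpq : p = q
      · exact Eventually.of_forall fun δ h => absurd hpq h
      · have hd : 0 < dist p q / 2 := half_pos (dist_pos.2 hpq)
        filter_upwards [(eventually_lt_nhds hd).filter_mono nhdsWithin_le_nhds] with δ hδ _
        linarith
    have h2 : ∀ᶠ δ in 𝓝[>] (0 : ℝ), δ < ε / 2 :=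
      (eventually_lt_nhds (half_pos hε)).filter_mono nhdsWithin_le_nhds
    have h3 : ∀ᶠ δ in 𝓝[>] (0 : ℝ), 0 < δ := self_mem_nhdsWithin
    obtain ⟨δ, h⟩ := (h1.and (h2.and h3)).exists
    exact ⟨δ, h.2.2, by linarith [h.2.1], h.1⟩
  -- small neighbourhoods
  obtain ⟨r, hr0, hrδ, hrf⟩ : ∃ r : ℝ, 0 < r ∧ r ≤ δ ∧ ∀ p ∈ P, ∀ x ∈ ball p r, f x ∈ ball p δ := by
    have h1 : ∀ᶠ r in 𝓝[>] (0 : ℝ), ∀ p ∈ P, ∀ x ∈ ball p r, f x ∈ ball p δ := by
      rw [eventually_all_finite hP]
      intro p hp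
      obtain ⟨ρ, hρ, hρf⟩ := Metric.continuousAt_iff.1 hf.continuousAt δ hδ0
      filter_upwards [(eventually_lt_nhds hρ).filter_mono nhdsWithin_le_nhds] with r hr x hx
      have h := hρf (x := x) (lt_trans (mem_ball.1 hx) hr)
      rw [hp.2] at h
      exact h
    have h2 : ∀ᶠ r in 𝓝[>] (0 : ℝ), r < δ := (eventually_lt_nhds hδ0).filter_mono nhdsWithin_le_nhds
    have h3 : ∀ᶠ r in 𝓝[>] (0 : ℝ), 0 < r := self_mem_nhdsWithin
    obtain ⟨r, h⟩ := (h1.and (h2.and h3)).exists
    exact ⟨r, h.2.2, h.2.1.le, h.1⟩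
  have hstep : ∀ p ∈ P, ∀ q ∈ P, ∀ x, x ∈ ball p r → f x ∈ ball q r → p = q := by
    intro p hp q hq x hx hfx
    by_contra hpq
    have h1 := hδs p hp q hq hpq
    have h2 := mem_ball.1 (hrf p hp x hx)
    have h3 := mem_ball.1 hfx
    have h4 := dist_triangle_left p q (f x)
    linarith
  -- the complement
  set C : Set (ℝ × ℝ) := K \ ⋃ p ∈ P, ball p r with hCdef
  have hCc : IsCompact C := hK.diff (isOpen_biUnion fun p _ => isOpen_ball)
  have hCK : C ⊆ K := sdiff_subset
  obtain ⟨t, htC, htf, hcov⟩ := hCc.finite_cover_balls (half_pos hε)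
  -- positive decrease on `C`
  obtain ⟨m, hm0, hm⟩ : ∃ m : ℝ, 0 < m ∧ ∀ z ∈ C, m ≤ L z - L (f z) := by
    rcases C.eq_empty_or_nonempty with hC | hC
    · exact ⟨1, one_pos, fun z hz => by rw [hC] at hz; exact absurd hz (notMem_empty z)⟩
    · obtain ⟨z0, hz0, hmin⟩ := hCc.exists_isMinOn hC
        ((hL.sub (hL.comp hf)).continuousOn (s := C))
      refine ⟨L z0 - L (f z0), ?_, fun z hz => hmin hz⟩
      have h1 := hle z0 (hCK hz0)
      rcases h1.lt_or_eq with h | h
      · linarith
      · exfalso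
        have h2 := heq z0 (hCK hz0) h
        apply hz0.2
        exact mem_biUnion (show z0 ∈ P from ⟨hCK hz0, h2⟩) (mem_ball_self hr0)
  -- bound for `L`
  obtain ⟨Bd, hBd⟩ := hK.exists_bound_of_continuousOn hL.continuousOn
  -- letters
  have : Fintype P := hP.fintype
  have : Fintype t := htf.fintype
  let Lt : Type := (P : Type) ⊕ (t : Type)
  let N := Fintype.card Lt
  let e : Lt ≃ Fin N := Fintype.equivFin Lt
  let S : Lt → Set (ℝ × ℝ) := fun a => match a with
    | Sum.inl p => ball p.1 r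
    | Sum.inr y => ball y.1 (ε / 2)
  have hSd : ∀ a : Lt, ∀ x ∈ S a, ∀ y ∈ S a, (x, y) ∈ U := by
    intro a x hx y hy
    apply hεU
    cases a with
    | inl p =>
      have h1 := mem_ball.1 (show x ∈ ball p.1 r from hx)
      have h2 := mem_ball.1 (show y ∈ ball p.1 r from hy)
      have h3 := dist_triangle_right x y p.1
      linarith
    | inr q =>
      have h1 := mem_ball.1 (show x ∈ ball q.1 (ε / 2) from hx)
      have h2 := mem_ball.1 (show y ∈ ball q.1 (ε / 2) from hy)
      have h3 := dist_triangle_right x y q.1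
      linarith
  have hlet : ∀ z ∈ K, ∃ a : Lt, z ∈ S a ∧ ((∃ p ∈ P, z ∈ ball p r) → ∃ p : P, a = Sum.inl p) := by
    intro z hz
    by_cases h : ∃ p ∈ P, z ∈ ball p r
    · obtain ⟨p, hp, hzp⟩ := h
      exact ⟨Sum.inl ⟨p, hp⟩, hzp, fun _ => ⟨⟨p, hp⟩, rfl⟩⟩
    · have hzC : z ∈ C := by
        refine ⟨hz, fun hu => h ?_⟩
        obtain ⟨p, hp, hzp⟩ := mem_iUnion₂.1 hu
        exact ⟨p, hp, hzp⟩
      obtain ⟨y, hy, hzy⟩ := mem_iUnion₂.1 (hcov hzC)
      exact ⟨Sum.inr ⟨y, hy⟩, hzy, fun h' => absurd h' h⟩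
  refine ⟨N, 2 * ⌈2 * Bd / m⌉₊, fun a => S (e.symm a), fun a => hSd (e.symm a), ?_⟩
  intro x hx
  have hit : ∀ i, f^[i] x ∈ K := fun i => hfK.iterate i hx
  choose lam hlam1 hlam2 using hlet
  let w : ℕ → Fin N := fun i => e (lam (f^[i] x) (hit i))
  refine ⟨w, fun i => ?_, fun n => ?_⟩
  · show f^[i] x ∈ S (e.symm (e (lam (f^[i] x) (hit i))))
    rw [Equiv.symm_apply_apply]
    exact hlam1 _ _
  · -- changes happen near `C`
    have hch : ∀ i, w (i + 1) ≠ w i → f^[i] x ∈ C ∨ f^[i + 1] x ∈ C := by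
      intro i hne
      by_contra hcon
      rw [not_or] at hcon
      apply hne
      have hb : ∀ j, f^[j] x ∉ C → ∃ p ∈ P, f^[j] x ∈ ball p r := by
        intro j hj
        by_contra h
        apply hj
        refine ⟨hit j, fun hu => h ?_⟩
        obtain ⟨p, hp, hzp⟩ := mem_iUnion₂.1 hu
        exact ⟨p, hp, hzp⟩
      obtain ⟨p, hp⟩ := hlam2 _ (hit i) (hb i hcon.1)
      obtain ⟨q, hq⟩ := hlam2 _ (hit (i + 1)) (hb (i + 1) hcon.2)
      have h1 : f^[i] x ∈ ball p.1 r := by
        have := hlam1 _ (hit i)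
        rw [hp] at this
        exact this
      have h2 : f^[i + 1] x ∈ ball q.1 r := by
        have := hlam1 _ (hit (i + 1))
        rw [hq] at this
        exact this
      rw [Function.iterate_succ_apply'] at h2
      have h3 : p = q := Subtype.ext (hstep p.1 p.2 q.1 q.2 _ h1 h2)
      show e (lam (f^[i + 1] x) (hit (i + 1))) = e (lam (f^[i] x) (hit i))
      rw [hp, hq, h3]
    -- number of visits to `C`
    have hvis : ((Finset.range (n + 1)).filter (fun i => f^[i] x ∈ C)).card ≤ ⌈2 * Bd / m⌉₊ := by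
      have h1 : (((Finset.range (n + 1)).filter (fun i => f^[i] x ∈ C)).card : ℝ) * m ≤
          ∑ i ∈ Finset.range (n + 1), (L (f^[i] x) - L (f^[i + 1] x)) := by
        calc (((Finset.range (n + 1)).filter (fun i => f^[i] x ∈ C)).card : ℝ) * m
            = ∑ i ∈ (Finset.range (n + 1)).filter (fun i => f^[i] x ∈ C), m := by
              rw [Finset.sum_const, nsmul_eq_mul]
          _ ≤ ∑ i ∈ (Finset.range (n + 1)).filter (fun i => f^[i] x ∈ C),
                (L (f^[i] x) - L (f^[i + 1] x)) := by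
              refine Finset.sum_le_sum fun i hi => ?_
              have h := hm _ (Finset.mem_filter.1 hi).2
              rw [Function.iterate_succ_apply']
              exact h
          _ ≤ ∑ i ∈ Finset.range (n + 1), (L (f^[i] x) - L (f^[i + 1] x)) := by
              refine Finset.sum_le_sum_of_subset_of_nonneg (Finset.filter_subset _ _) fun i _ _ => ?_
              have h := hle _ (hit i)
              rw [Function.iterate_succ_apply']
              linarith
      have h2 : ∑ i ∈ Finset.range (n + 1), (L (f^[i] x) - L (f^[i + 1] x)) ≤ 2 * Bd := by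
        rw [Finset.sum_range_sub' (fun i => L (f^[i] x))]
        have h3 := hBd _ (hit 0)
        have h4 := hBd _ (hit (n + 1))
        rw [Real.norm_eq_abs] at h3 h4
        have h5 := le_abs_self (L (f^[0] x))
        have h6 := neg_abs_le (L (f^[n + 1] x))
        linarith
      have h7 : (((Finset.range (n + 1)).filter (fun i => f^[i] x ∈ C)).card : ℝ) ≤ 2 * Bd / m := by
        rw [le_div_iff₀ hm0]
        exact h1.trans h2
      exact_mod_cast h7.trans (Nat.le_ceil _)
    have hA : ((Finset.range n).filter (fun i => w (i + 1) ≠ w i)) ⊆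
        ((Finset.range n).filter (fun i => f^[i] x ∈ C)) ∪ ((Finset.range n).filter (fun i => f^[i + 1] x ∈ C)) := by
      intro i hi
      rw [Finset.mem_filter] at hi
      rcases hch i hi.2 with h | h
      · exact Finset.mem_union_left _ (Finset.mem_filter.2 ⟨hi.1, h⟩)
      · exact Finset.mem_union_right _ (Finset.mem_filter.2 ⟨hi.1, h⟩)
    have hB1 : ((Finset.range n).filter (fun i => f^[i] x ∈ C)).card ≤
        ((Finset.range (n + 1)).filter (fun i => f^[i] x ∈ C)).card := by
      apply Finset.card_le_card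
      exact Finset.filter_subset_filter _ (Finset.range_mono (Nat.le_succ n))
    have hB2 : ((Finset.range n).filter (fun i => f^[i + 1] x ∈ C)).card ≤
        ((Finset.range (n + 1)).filter (fun i => f^[i] x ∈ C)).card := by
      apply Finset.card_le_card_of_injOn (fun i => i + 1)
      · intro i hi
        have hi' := Finset.mem_filter.1 (Finset.mem_coe.1 hi)
        exact Finset.mem_coe.2 (Finset.mem_filter.2
          ⟨Finset.mem_range.2 (Nat.succ_lt_succ (Finset.mem_range.1 hi'.1)), hi'.2⟩)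
      · intro i _ j _ hij
        exact Nat.succ_injective hij
    calc _ ≤ _ := Finset.card_le_card hA
      _ ≤ _ := Finset.card_union_le _ _
      _ ≤ 2 * ⌈2 * Bd / m⌉₊ := by omega

end Helper85.HN
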