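import Pool.Agent.Helper85.HN.St

/-!
# MP_b39980_an, project HN: module Kc
-/

set_option autoImplicit false

open Set Filter Topology

namespace Helper85.HN

private theorem bound_Kc (b c : ℝ) (x : ℤ → ℝ) (hx : Orb b c x) (hB : Bd x) (n : ℤ) : |x n| ≤ 2 + |b| + |c| := by
  obtain ⟨M, hM⟩ := hB
  have hbd : BddAbove (range fun m : ℤ => |x m|) := ⟨M, by rintro _ ⟨m, rfl⟩; exact hM m⟩
  have hle : ∀ m, |x m| ≤ ⨆ m : ℤ, |x m| := fun m => le_ciSup hbd m
  generalize hXd : (⨆ m : ℤ, |x m|) = X at hle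
  have hX0 : 0 ≤ X := (abs_nonneg (x 0)).trans (hle 0)
  have hb0 := abs_nonneg b
  have hc0 := abs_nonneg c
  have hsq : ∀ m, x m ^ 2 ≤ (1 + |b|) * X + |c| := by
    intro m
    have h1 := hx m
    have h2 : x m ^ 2 = x (m + 1) - c + b * x (m - 1) := by linarith
    have h3 : x (m + 1) ≤ X := (le_abs_self _).trans (hle _)
    have h4 : -c ≤ |c| := neg_le_abs c
    have h5 : b * x (m - 1) ≤ |b| * X := by
      calc b * x (m - 1) ≤ |b * x (m - 1)| := le_abs_self _
        _ = |b| * |x (m - 1)| := abs_mul _ _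
        _ ≤ |b| * X := mul_le_mul_of_nonneg_left (hle _) hb0
    rw [h2]
    linarith
  have hXs : X ≤ Real.sqrt ((1 + |b|) * X + |c|) := by
    rw [← hXd]
    refine ciSup_le (fun m => ?_)
    rw [hXd]
    exact Real.abs_le_sqrt (hsq m)
  have hX2 : X ^ 2 ≤ (1 + |b|) * X + |c| := by
    have h0 : 0 ≤ (1 + |b|) * X + |c| := by positivity
    calc X ^ 2 ≤ Real.sqrt ((1 + |b|) * X + |c|) ^ 2 := by gcongr
      _ = _ := Real.sq_sqrt h0
  have hXR : X ≤ 2 + |b| + |c| := by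
    by_contra hc
    push Not at hc
    nlinarith
  exact (hle n).trans hXR

private theorem closed_Kc (b c : ℝ) : IsClosed {x : ℤ → ℝ | Orb b c x} := by
  have : {x : ℤ → ℝ | Orb b c x} = ⋂ n : ℤ, {x : ℤ → ℝ | x (n + 1) = x n ^ 2 + c - b * x (n - 1)} := by
    ext x
    simp [Orb]
  rw [this]
  exact isClosed_iInter (fun n => isClosed_eq (by fun_prop) (by fun_prop))

private theorem compact_Kc (b c : ℝ) : IsCompact (KK b c) := by
  have h1 : IsCompact ({x : ℤ → ℝ | Orb b c x} ∩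
      Set.pi univ (fun _ : ℤ => Icc (-(2 + |b| + |c|)) (2 + |b| + |c|))) :=
    (isCompact_univ_pi (fun _ => isCompact_Icc)).inter_left (closed_Kc b c)
  have h2 : KK b c = (fun x : ℤ → ℝ => (x 0, x (-1))) '' ({x : ℤ → ℝ | Orb b c x} ∩
      Set.pi univ (fun _ : ℤ => Icc (-(2 + |b| + |c|)) (2 + |b| + |c|))) := by
    ext p
    constructor
    · rintro ⟨x, hx, hB, h0, h1⟩
      refine ⟨x, ⟨hx, fun n _ => abs_le.mp (bound_Kc b c x hx hB n)⟩, ?_⟩
      exact Prod.ext h0 h1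
    · rintro ⟨x, ⟨hx, hI⟩, rfl⟩
      exact ⟨x, hx, ⟨2 + |b| + |c|, fun n => abs_le.mpr (hI n (mem_univ n))⟩, rfl, rfl⟩
  rw [h2]
  exact h1.image (by fun_prop)

private theorem maps_Kc (b c : ℝ) : MapsTo (hen b c) (KK b c) (KK b c) := by
  rintro p ⟨x, hx, ⟨M, hM⟩, h0, h1⟩
  refine ⟨fun n => x (n + 1), fun n => ?_, ⟨M, fun n => hM (n + 1)⟩, ?_, ?_⟩
  · have := hx (n + 1)
    simpa [add_sub_assoc, sub_add_eq_add_sub] using this
  · have := hx 0
    simp only [zero_add, zero_sub] at this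
    simp [hen, this, h0, h1]
  · simp [hen, h0]

private theorem fin_Kc (b c : ℝ) : {p | p ∈ KK b c ∧ hen b c p = p}.Finite := by
  have key : ∀ p : ℝ × ℝ, hen b c p = p → p.1 = p.2 ∧ p.1 ^ 2 - (1 + b) * p.1 + c = 0 := by
    intro p hp
    have e1 := congrArg Prod.fst hp
    have e2 := congrArg Prod.snd hp
    simp only [hen] at e1 e2
    refine ⟨e2, ?_⟩
    rw [← e2] at e1
    linarith
  by_cases hne : ∃ t : ℝ, t ^ 2 - (1 + b) * t + c = 0
  · obtain ⟨t, ht⟩ := hne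
    refine (Set.toFinite {((t, t) : ℝ × ℝ), (1 + b - t, 1 + b - t)}).subset ?_
    rintro p ⟨_, hp⟩
    obtain ⟨e1, e2⟩ := key p hp
    have e3 : (p.1 - t) * (p.1 - (1 + b - t)) = 0 := by nlinarith
    simp only [mem_insert_iff, mem_singleton_iff]
    rcases mul_eq_zero.mp e3 with h | h
    · left
      exact Prod.ext (by linarith) (by rw [← e1]; linarith)
    · right
      exact Prod.ext (by linarith) (by rw [← e1]; linarith)
  · refine Set.finite_empty.subset ?_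
    rintro p ⟨_, hp⟩
    exact (hne ⟨p.1, (key p hp).2⟩).elim

theorem hKc : StKc := fun b c =>
  ⟨fun x hx hB n => bound_Kc b c x hx hB n, compact_Kc b c, maps_Kc b c, fin_Kc b c⟩

end Helper85.HN
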