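import Pool.Agent.Helper85.HN.St

/-! Module LE of project HN. -/

set_option autoImplicit false

open Set

namespace Helper85.HN

theorem hLE (h1 : StGen) (h2 : StKc) : StLE := by
  rintro b c ⟨L, hL, hle, hlt⟩
  obtain ⟨-, hK, hm, hf⟩ := h2 b c
  have hc : Continuous (hen b c) := by
    unfold hen
    fun_prop
  exact h1 (hen b c) (KK b c) L hc hK hm hL hle hlt hf

end Helper85.HN
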