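import Pool.Agent.Helper85.HN.St

/-!
# Module Lei of project HN: discrete Leibniz rule
-/

set_option autoImplicit false

namespace Helper85.HN

private theorem dl_succ_Lei (m : ℕ) (u : ℤ → ℝ) (n : ℤ) : dl (m + 1) u n = dl m u (n + 1) - dl m u n := rfl

private theorem leib_Lei (m : ℕ) (u v : ℤ → ℝ) : ∀ n : ℤ, dl m (fun i => u i * v i) n =
    ∑ ij ∈ Finset.HasAntidiagonal.antidiagonal m, (m.choose ij.1 : ℝ) * (dl ij.1 u (n + (ij.2 : ℤ)) * dl ij.2 v n) := by
  induction m with
  | zero =>
    intro n
    simp [dl]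
  | succ m ih =>
    intro n
    rw [dl_succ_Lei, ih (n + 1), ih n,
      Finset.sum_antidiagonal_choose_succ_mul (fun j k => dl j u (n + (k : ℤ)) * dl k v n) m,
      ← Finset.sum_sub_distrib, ← Finset.sum_add_distrib]
    refine Finset.sum_congr rfl (fun ij hij => ?_)
    have hs : ij.1 + ij.2 = m := Finset.HasAntidiagonal.mem_antidiagonal.1 hij
    have hc : (m.choose ij.2 : ℝ) = (m.choose ij.1 : ℝ) := by
      rw [Nat.choose_symm_of_eq_add hs.symm]
    rw [hc]
    simp only [dl_succ_Lei]
    have e1 : n + 1 + (ij.2 : ℤ) = n + ((ij.2 + 1 : ℕ) : ℤ) := by push_cast; ring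
    have e2 : n + (ij.2 : ℤ) + 1 = n + ((ij.2 + 1 : ℕ) : ℤ) := by push_cast; ring
    rw [e1, e2]
    ring

theorem hLei : StLei := by
  refine ⟨?_, ?_, ?_, ?_, ?_⟩
  · intro m u v n
    rw [leib_Lei, Finset.Nat.sum_antidiagonal_eq_sum_range_succ
      (fun i j => (m.choose i : ℝ) * (dl i u (n + (j : ℤ)) * dl j v n)) m]
    refine Finset.sum_congr rfl (fun j _ => ?_)
    ring
  · intro m u v x
    induction m with
    | zero => intro n; simp [dl]
    | succ m ih =>
      intro n
      simp only [dl_succ_Lei, ih]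
      ring
  · intro m x
    induction m with
    | zero => intro n h; omega
    | succ m ih =>
      intro n _
      rw [dl_succ_Lei]
      rcases Nat.eq_zero_or_pos m with h0 | h0
      · subst h0
        simp [dl]
      · rw [ih (n + 1) h0, ih n h0, sub_self]
  · intro m j u
    induction m with
    | zero => intro n; simp [dl]
    | succ m ih =>
      intro n
      rw [dl_succ_Lei, ih, ih, show m + 1 + j = (m + j) + 1 by ring, dl_succ_Lei]
  · intro m u s
    induction m with
    | zero => intro n; simp [dl]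
    | succ m ih =>
      intro n
      rw [dl_succ_Lei, ih, ih, dl_succ_Lei, show n + 1 + s = n + s + 1 by ring]

end Helper85.HN
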