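import Pool.Agent.Helper85.HN.St

/-! # Project HN, module Lo: lower bound for bounded orbits -/

set_option autoImplicit false

open Set Filter Topology

namespace Helper85.HN

theorem hLo (h1 : StUp) (h2 : StPass) : StLo := by
  intro b h u hb hb1 hh hh1 hU hBd n0
  have hb0 : 0 < b := by linarith
  have hup : ∀ n, u n ≤ h ^ 2 := by
    refine h1 b (h ^ 2) u hb0.le (by positivity) ?_ hBd
    have e : (h ^ 2) ^ 2 = h ^ 4 := by ring
    rw [e]; exact hU
  refine ⟨hup n0, ?_⟩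
  by_contra hcon
  rw [not_le] at hcon
  obtain ⟨M, hM⟩ := hBd
  have hbdd : BddBelow (range u) := ⟨-M, by rintro _ ⟨n, rfl⟩; exact (abs_le.1 (hM n)).1⟩
  have hI1 : (⨅ n, u n) < min ((⨅ n, u n) + h ^ 4) (-(16 * h ^ 2)) := by
    refine lt_min (by have : 0 < h ^ 4 := by positivity
                      linarith) ?_
    exact lt_of_le_of_lt (ciInf_le hbdd n0) hcon
  obtain ⟨n, hn⟩ := exists_lt_of_ciInf_lt hI1
  obtain ⟨hn1, hn2⟩ := lt_min_iff.1 hn
  have hlow : ∀ m, u n - h ^ 4 ≤ u m := fun m => by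
    have := ciInf_le hbdd m
    linarith
  obtain ⟨w, hw⟩ : ∃ w : ℕ → ℝ, ∀ j, w j = u (n - j) := ⟨fun j => u (n - j), fun _ => rfl⟩
  have hrec : ∀ j, b * (w (j + 2) - w (j + 1)) = (w (j + 1) - w j) + (w (j + 1) ^ 2 - h ^ 4) := by
    intro j
    have := hU (n - ((j + 1 : ℕ) : ℤ))
    have e1 : n - ((j + 1 : ℕ) : ℤ) + 1 = n - (j : ℤ) := by push_cast; ring
    have e2 : n - ((j + 1 : ℕ) : ℤ) - 1 = n - ((j + 2 : ℕ) : ℤ) := by push_cast; ring
    rw [e1, e2, ← hw, ← hw, ← hw] at this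
    linarith
  have hwu : ∀ j, w j ≤ h ^ 2 := fun j => by rw [hw]; exact hup _
  have hG : ∀ j, w (j + 1) - w j < 4 * h ^ 3 := by
    intro j
    by_contra hc
    rw [not_lt] at hc
    refine h2 b h (fun i => w (j + i)) hb0 hb1 hh (by linarith) ?_ (fun i => hwu _) ?_
    · intro i
      have := hrec (j + i)
      simpa [add_assoc] using this
    · simpa using hc
  have hw0 : w 0 < -(16 * h ^ 2) := by rw [hw]; simpa using hn2
  have hG0 : -h ^ 4 ≤ w 1 - w 0 := by
    have := hlow (n - ((1 : ℕ) : ℤ))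
    rw [hw 1, hw 0]
    have e : n - ((0 : ℕ) : ℤ) = n := by simp
    rw [e]
    linarith
  have hwj : ∀ j : ℕ, w j ≤ w 0 + 4 * h ^ 3 * j := by
    intro j
    induction j with
    | zero => simp
    | succ j ih =>
      have := hG j
      push_cast
      linarith
  have hsq : ∀ j : ℕ, (j : ℝ) * h ≤ 3 → 15 * h ^ 4 ≤ w j ^ 2 - h ^ 4 := by
    intro j hj
    have := hwj j
    have e : 4 * h ^ 3 * (j : ℝ) = 4 * h ^ 2 * (j * h) := by ring
    have h3 : 4 * h ^ 2 * ((j : ℝ) * h) ≤ 4 * h ^ 2 * 3 := mul_le_mul_of_nonneg_left hj (by positivity)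
    have h4 : w j ≤ -(4 * h ^ 2) := by linarith
    have h5 : (4 * h ^ 2) ^ 2 ≤ w j ^ 2 := by
      have := pow_le_pow_left₀ (by positivity : 0 ≤ 4 * h ^ 2) (by linarith : 4 * h ^ 2 ≤ -(w j)) 2
      rwa [neg_sq] at this
    nlinarith
  have hind : ∀ j : ℕ, (j : ℝ) * h ≤ 3 → 15 * h ^ 4 * j - h ^ 4 ≤ w (j + 1) - w j := by
    intro j
    induction j with
    | zero => intro _; simpa using hG0
    | succ j ih =>
      intro hj
      have hj' : (j : ℝ) * h ≤ 3 := by
        push_cast at hj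
        nlinarith
      have i1 := ih hj'
      have i2 := hsq (j + 1) hj
      have i3 := hrec j
      have i4 : 15 * h ^ 4 * ((j + 1 : ℕ) : ℝ) - h ^ 4 ≤ b * (w (j + 2) - w (j + 1)) := by
        rw [i3]; push_cast; linarith
      have hpos : 0 < 15 * h ^ 4 * ((j + 1 : ℕ) : ℝ) - h ^ 4 := by
        push_cast
        have : 0 < h ^ 4 := by positivity
        have hj0 : (0 : ℝ) ≤ j := Nat.cast_nonneg j
        nlinarith
      have hG' : 0 < w (j + 2) - w (j + 1) := by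
        by_contra hc
        rw [not_lt] at hc
        have := mul_nonpos_of_nonneg_of_nonpos hb0.le hc
        linarith
      have : b * (w (j + 2) - w (j + 1)) ≤ 1 * (w (j + 2) - w (j + 1)) :=
        mul_le_mul_of_nonneg_right hb1 hG'.le
      have e : j + 1 + 1 = j + 2 := rfl
      rw [e]
      linarith
  -- contradiction at `J = ⌈1 / h⌉`
  obtain ⟨J, hJ1, hJ2⟩ : ∃ J : ℕ, 1 / h ≤ (J : ℝ) ∧ (J : ℝ) < 1 / h + 1 :=
    ⟨⌈1 / h⌉₊, Nat.le_ceil _, Nat.ceil_lt_add_one (by positivity)⟩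
  have hJh : 1 ≤ (J : ℝ) * h := by
    have := mul_le_mul_of_nonneg_right hJ1 hh.le
    rwa [one_div, inv_mul_cancel₀ hh.ne'] at this
  have hJh2 : (J : ℝ) * h ≤ 3 := by
    have := mul_le_mul_of_nonneg_right hJ2.le hh.le
    rw [add_mul, one_div, inv_mul_cancel₀ hh.ne'] at this
    linarith
  have f1 := hind _ hJh2
  have f2 := hG J
  have f3 : 15 * h ^ 3 ≤ 15 * h ^ 4 * (J : ℝ) := by
    have : 15 * h ^ 3 * 1 ≤ 15 * h ^ 3 * ((J : ℝ) * h) :=
      mul_le_mul_of_nonneg_left hJh (by positivity)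
    calc 15 * h ^ 3 = 15 * h ^ 3 * 1 := by ring
      _ ≤ _ := this
      _ = _ := by ring
  have f4 : h ^ 4 ≤ h ^ 3 := by
    have : h ^ 4 = h ^ 3 * h := by ring
    rw [this]
    exact mul_le_of_le_one_right (by positivity) (by linarith)
  have f5 : 0 < h ^ 3 := by positivity
  linarith

end Helper85.HN
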