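import Pool.Agent.Helper85.HN.St

set_option autoImplicit false

open Set Filter Topology

namespace Helper85.HN

private lemma rec_Loc (h1 : StLei) (b e : ℝ) (u : ℤ → ℝ) (hu : Uo b e u) (m : ℕ) (hm : 1 ≤ m) (i : ℤ) :
    dl (m + 2) u i = dl m (fun k => u k * u k) (i + 1) - (1 - b) * dl (m + 1) u i := by
  obtain ⟨-, hlin, hconst, hcomp, hshift⟩ := h1
  have h2 : dl 2 u = fun k => (u (k + 1) * u (k + 1) + (-(1 - b)) * dl 1 u k) + 1 * ((fun _ : ℤ => -e) k) := by
    funext k
    have h := hu (k + 1)
    have e1 : k + 1 - 1 = k := by ring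
    have e2 : k + 1 + 1 = k + 2 := by ring
    rw [e1] at h
    show (u (k + 1 + 1) - u (k + 1)) - (u (k + 1) - u k) = _
    show _ = (u (k + 1) * u (k + 1) + (-(1 - b)) * (u (k + 1) - u k)) + 1 * (-e)
    rw [h]; ring
  rw [← hcomp m 2 u i, h2, hlin m (fun k => u (k + 1) * u (k + 1) + (-(1 - b)) * dl 1 u k) (fun _ => -e) 1 i,
    hconst m (-e) i hm, hlin m (fun k => u (k + 1) * u (k + 1)) (dl 1 u) (-(1 - b)) i, hcomp m 1 u i,
    hshift m (fun k => u k * u k) 1 i]
  ring

private lemma comb_Loc (M j : ℕ) (hj : 1 ≤ j) (hjM : j ≤ M) :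
    (M.choose j : ℝ) * ((j - 1).factorial : ℝ) * ((M - j).factorial : ℝ) ≤ (M.factorial : ℝ) := by
  have h := Nat.choose_mul_factorial_mul_factorial hjM
  have h2 : (j - 1).factorial ≤ j.factorial := Nat.factorial_le (by omega)
  have h3 : M.choose j * (j - 1).factorial * (M - j).factorial ≤ M.factorial := by
    rw [← h]
    exact Nat.mul_le_mul_right _ (Nat.mul_le_mul_left _ h2)
  exact_mod_cast h3

theorem hLoc (h1 : StLei) : StLoc := by
  intro b h R u p q hb hb1 hh hh1 hu hgl hv hg m
  induction m using Nat.strong_induction_on with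
  | _ m ih =>
    intro i hm hpi hiq
    have hR : 0 ≤ R := by
      have h2 := hv i hpi (by
        have : (1:ℤ) ≤ (m:ℤ) := by exact_mod_cast hm
        linarith)
      exact (abs_nonneg _).trans h2
    rcases Nat.lt_or_ge m 2 with h2 | h2
    · have hm1 : m = 1 := by omega
      subst hm1
      have h3 := hv i hpi (by push_cast at hiq; linarith)
      show |u (i + 1) - u i| ≤ _
      simpa using h3
    rcases Nat.eq_or_lt_of_le h2 with h3 | h3
    · subst h3
      push_cast at hiq
      have e1 : dl 2 u i = (u (i + 1) ^ 2 - h ^ 4) - (1 - b) * (u (i + 1) - u i) := by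
        have h := hu (i + 1)
        have e1 : i + 1 - 1 = i := by ring
        rw [e1] at h
        show (u (i + 1 + 1) - u (i + 1)) - (u (i + 1) - u i) = _
        rw [h]; ring
      rw [e1]
      have a1 := hg (i + 1) (by linarith) (by linarith)
      have a2 := hv i hpi (by linarith)
      have a3 : |(1 - b) * (u (i + 1) - u i)| ≤ h * R := by
        rw [abs_mul, abs_of_nonneg (by linarith : (0:ℝ) ≤ 1 - b)]
        exact mul_le_mul (by linarith) a2 (abs_nonneg _) hh.le
      have a4 := abs_sub (u (i + 1) ^ 2 - h ^ 4) ((1 - b) * (u (i + 1) - u i))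
      have a5 : 0 ≤ h * R := mul_nonneg hh.le hR
      simp only [Nat.reduceSub, Nat.factorial_one, Nat.cast_one, mul_one, pow_one]
      linarith
    · obtain ⟨M, rfl⟩ : ∃ M, m = M + 2 := ⟨m - 2, by omega⟩
      have hM : 1 ≤ M := by omega
      push_cast at hiq
      rw [rec_Loc h1 b (h ^ 4) u hu M hM i]
      have hh10 : 0 ≤ 10 * h := by linarith
      set Q : ℝ := 16 * h ^ 2 * R * (10 * h) ^ (M - 1) with hQ
      have hQ0 : 0 ≤ Q := by positivity
      -- the square term
      have hsq : |dl M (fun k => u k * u k) (i + 1)| ≤ Q * ((M + 1).factorial : ℝ) := by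
        rw [h1.1 M u u (i + 1)]
        refine (Finset.abs_sum_le_sum_abs _ _).trans ?_
        rw [Finset.sum_range_succ']
        have hj0 : |((M.choose 0 : ℕ) : ℝ) * dl 0 u (i + 1 + ((M - 0 : ℕ) : ℤ)) * dl (M - 0) u (i + 1)| ≤
            Q * ((M - 1).factorial : ℝ) := by
          have b1 := hgl 0 (i + 1 + ((M - 0 : ℕ) : ℤ))
          have b2 := ih M (by omega) (i + 1) hM (by linarith) (by linarith)
          rw [abs_mul, abs_mul]
          simp only [Nat.choose_zero_right, Nat.cast_one, abs_one, one_mul, Nat.sub_zero] at b1 b2 ⊢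
          simp only [Nat.factorial_zero, Nat.cast_one, mul_one, pow_zero] at b1
          calc |dl 0 u (i + 1 + (M : ℤ))| * |dl M u (i + 1)|
              ≤ (16 * h ^ 2) * (R * ((M - 1).factorial : ℝ) * (10 * h) ^ (M - 1)) :=
                mul_le_mul b1 b2 (abs_nonneg _) (by positivity)
            _ = Q * ((M - 1).factorial : ℝ) := by rw [hQ]; ring
        have hj1 : ∀ j ∈ Finset.range M,
            |((M.choose (j + 1) : ℕ) : ℝ) * dl (j + 1) u (i + 1 + ((M - (j + 1) : ℕ) : ℤ)) *
              dl (M - (j + 1)) u (i + 1)| ≤ Q * (M.factorial : ℝ) := by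
          intro j hj
          have hjM : j + 1 ≤ M := by have := Finset.mem_range.mp hj; omega
          have c1 : ((M - (j + 1) : ℕ) : ℤ) = (M : ℤ) - ((j : ℤ) + 1) := by
            rw [Nat.cast_sub hjM]; push_cast; ring
          have b1 := ih (j + 1) (by omega) (i + 1 + ((M - (j + 1) : ℕ) : ℤ)) (by omega)
            (by
              have : (0:ℤ) ≤ ((M - (j + 1) : ℕ) : ℤ) := Int.natCast_nonneg _
              linarith)
            (by rw [c1]; push_cast; linarith)
          have b2 := hgl (M - (j + 1)) (i + 1)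
          rw [abs_mul, abs_mul, abs_of_nonneg (Nat.cast_nonneg (α := ℝ) (M.choose (j + 1)))]
          have e3 : j + 1 - 1 = j := by omega
          rw [e3] at b1
          have cb := comb_Loc M (j + 1) (by omega) hjM
          rw [e3] at cb
          calc (M.choose (j + 1) : ℝ) * |dl (j + 1) u (i + 1 + ((M - (j + 1) : ℕ) : ℤ))| * |dl (M - (j + 1)) u (i + 1)|
              ≤ (M.choose (j + 1) : ℝ) * (R * (j.factorial : ℝ) * (10 * h) ^ j) *
                (16 * ((M - (j + 1)).factorial : ℝ) * h ^ 2 * (10 * h) ^ (M - (j + 1))) := by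
                apply mul_le_mul _ b2 (abs_nonneg _) (by positivity)
                exact mul_le_mul_of_nonneg_left b1 (Nat.cast_nonneg _)
            _ = (16 * h ^ 2 * R * ((10 * h) ^ j * (10 * h) ^ (M - (j + 1)))) *
                ((M.choose (j + 1) : ℝ) * (j.factorial : ℝ) * ((M - (j + 1)).factorial : ℝ)) := by ring
            _ = Q * ((M.choose (j + 1) : ℝ) * (j.factorial : ℝ) * ((M - (j + 1)).factorial : ℝ)) := by
                rw [← pow_add, hQ]
                congr 4
                omega
            _ ≤ Q * (M.factorial : ℝ) := mul_le_mul_of_nonneg_left cb hQ0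
        have hsum := Finset.sum_le_sum hj1
        rw [Finset.sum_const, Finset.card_range, nsmul_eq_mul] at hsum
        have hf : ((M - 1).factorial : ℝ) ≤ (M.factorial : ℝ) := by
          exact_mod_cast Nat.factorial_le (by omega)
        have hf2 : ((M + 1).factorial : ℝ) = ((M : ℝ) + 1) * (M.factorial : ℝ) := by
          rw [Nat.factorial_succ]; push_cast; ring
        rw [hf2]
        have := mul_le_mul_of_nonneg_left hf hQ0
        nlinarith
      have hfr : |(1 - b) * dl (M + 1) u i| ≤ h * (R * (M.factorial : ℝ) * (10 * h) ^ M) := by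
        have b1 := ih (M + 1) (by omega) i (by omega) hpi (by push_cast; linarith)
        rw [abs_mul, abs_of_nonneg (by linarith : (0:ℝ) ≤ 1 - b)]
        have e3 : M + 1 - 1 = M := by omega
        rw [e3] at b1
        exact mul_le_mul (by linarith) b1 (abs_nonneg _) hh.le
      have hab := abs_sub (dl M (fun k => u k * u k) (i + 1)) ((1 - b) * dl (M + 1) u i)
      have e4 : M + 2 - 1 = M + 1 := by omega
      rw [e4]
      have hf : (M.factorial : ℝ) ≤ ((M + 1).factorial : ℝ) := by
        exact_mod_cast Nat.factorial_le (by omega)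
      set F : ℝ := ((M + 1).factorial : ℝ) with hF
      have hF0 : 0 ≤ F := by positivity
      have hpw : (10 * h) ^ (M + 1) = (10 * h) ^ (M - 1) * (10 * h) ^ 2 := by
        rw [← pow_add]; congr 1; omega
      have hQ' : Q * F = 16 / 100 * (R * F * (10 * h) ^ (M + 1)) := by
        rw [hQ, hpw]; ring
      have hfr' : h * (R * (M.factorial : ℝ) * (10 * h) ^ M) ≤ 1 / 10 * (R * F * (10 * h) ^ (M + 1)) := by
        calc h * (R * (M.factorial : ℝ) * (10 * h) ^ M) = 1 / 10 * (R * (M.factorial : ℝ) * (10 * h) ^ (M + 1)) := by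
              rw [pow_succ]; ring
          _ ≤ _ := by
              apply mul_le_mul_of_nonneg_left _ (by norm_num)
              apply mul_le_mul_of_nonneg_right _ (by positivity)
              exact mul_le_mul_of_nonneg_left hf hR
      have hpos : 0 ≤ R * F * (10 * h) ^ (M + 1) := by positivity
      rw [hQ'] at hsq
      linarith

end Helper85.HN
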