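import Pool.Agent.Helper85.HN.St

/-! Module New of project HN: Newton interpolation with exponentially small remainder. -/

set_option autoImplicit false

open Finset

namespace Helper85.HN

private theorem dl_eq_New (w : ℤ → ℝ) (m : ℕ) (a : ℤ) : dl m w a = (fwdDiff (1 : ℤ))^[m] w a := by
  induction m generalizing a with
  | zero => rfl
  | succ m ih =>
    rw [Function.iterate_succ_apply', fwdDiff]
    show dl m w (a + 1) - dl m w a = _
    rw [ih, ih]

private theorem newton_New (w : ℤ → ℝ) (a : ℤ) (N : ℕ) :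
    w (a + N) = ∑ m ∈ range (N + 1), (N.choose m : ℝ) * dl m w a := by
  have h := shift_eq_sum_fwdDiff_iter (1 : ℤ) w N a
  simp only [nsmul_eq_mul, mul_one] at h
  rw [h]
  exact sum_congr rfl fun m _ => by rw [dl_eq_New]

private theorem newton_ext_New (w : ℤ → ℝ) (a : ℤ) (N L : ℕ) (hL : N + 1 ≤ L) :
    w (a + N) = ∑ m ∈ range L, (N.choose m : ℝ) * dl m w a := by
  rw [newton_New w a N]
  refine sum_subset (range_subset_range.mpr hL) fun m _ hm => ?_
  have h : N < m := by
    rw [mem_range, not_lt] at hm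
    omega
  rw [Nat.choose_eq_zero_of_lt h]
  simp

private theorem geo_New (e : ℕ) : ∑ i ∈ range e, (1 / 10 : ℝ) ^ i ≤ 10 / 9 := by
  have h : ∑ i ∈ range e, (1 / 10 : ℝ) ^ i = 10 / 9 * (1 - (1 / 10) ^ e) := by
    induction e with
    | zero => simp
    | succ e ih =>
      rw [sum_range_succ, ih]
      ring
  rw [h]
  have : (0 : ℝ) ≤ (1 / 10) ^ e := by positivity
  linarith

private theorem geo_Ico_New (d L : ℕ) :
    ∑ m ∈ Ico (d + 1) L, (1 / 10 : ℝ) ^ (m - 1) ≤ (1 / 10) ^ d * (10 / 9) := by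
  rw [sum_Ico_eq_sum_range]
  have h : ∀ i ∈ range (L - (d + 1)), (1 / 10 : ℝ) ^ (d + 1 + i - 1) = (1 / 10) ^ d * (1 / 10) ^ i := by
    intro i _
    rw [← pow_add]
    congr 1
    omega
  rw [sum_congr rfl h, ← mul_sum]
  exact mul_le_mul_of_nonneg_left (geo_New _) (by positivity)

private theorem choose_New (N m k : ℕ) (hN : N ≤ 2 * k) :
    (N.choose m : ℝ) * ((m - 1).factorial : ℝ) ≤ (2 * k : ℝ) ^ m := by
  have h1 : N.choose m * (m - 1).factorial ≤ (2 * k) ^ m := by
    calc N.choose m * (m - 1).factorial ≤ N.choose m * m.factorial :=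
          Nat.mul_le_mul_left _ (Nat.factorial_le (Nat.sub_le m 1))
      _ = N.descFactorial m := by rw [Nat.descFactorial_eq_factorial_mul_choose, mul_comm]
      _ ≤ N ^ m := Nat.descFactorial_le_pow N m
      _ ≤ (2 * k) ^ m := Nat.pow_le_pow_left hN m
  exact_mod_cast h1

private theorem term_New (k d : ℕ) (w : ℤ → ℝ) (a : ℤ) (R h : ℝ) (hk : 1 ≤ k) (hR : 0 ≤ R) (hh : 0 < h)
    (hkh : 20 * k * h ≤ 1 / 10)
    (hd : ∀ m : ℕ, d + 1 ≤ m → m ≤ 2 * k →
      |dl m w a| ≤ R * ((m - 1).factorial : ℝ) * (10 * h) ^ (m - 1))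
    (N m : ℕ) (hN : N ≤ 2 * k) (hm : d + 1 ≤ m) :
    |(N.choose m : ℝ) * dl m w a| ≤ 2 * k * R * (1 / 10) ^ (m - 1) := by
  by_cases hmk : m ≤ 2 * k
  · rw [abs_mul, abs_of_nonneg (Nat.cast_nonneg _ : (0 : ℝ) ≤ (N.choose m : ℝ))]
    have hpow : (2 * (k : ℝ)) ^ m = 2 * k * (2 * k) ^ (m - 1) := by
      obtain ⟨q, rfl⟩ : ∃ q, m = q + 1 := ⟨m - 1, by omega⟩
      rw [pow_succ]
      simp
      ring
    have hc0 : (0 : ℝ) ≤ (N.choose m : ℝ) := Nat.cast_nonneg _
    calc (N.choose m : ℝ) * |dl m w a|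
        ≤ (N.choose m : ℝ) * (R * ((m - 1).factorial : ℝ) * (10 * h) ^ (m - 1)) :=
          mul_le_mul_of_nonneg_left (hd m hm hmk) hc0
      _ = ((N.choose m : ℝ) * ((m - 1).factorial : ℝ)) * (R * (10 * h) ^ (m - 1)) := by ring
      _ ≤ (2 * k : ℝ) ^ m * (R * (10 * h) ^ (m - 1)) := by
          refine mul_le_mul_of_nonneg_right (choose_New N m k hN) (by positivity)
      _ = 2 * k * R * (20 * k * h) ^ (m - 1) := by
          have e : (20 * (k : ℝ) * h) ^ (m - 1) = (2 * k) ^ (m - 1) * (10 * h) ^ (m - 1) := by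
            rw [← mul_pow]
            congr 1
            ring
          rw [hpow, e]
          ring
      _ ≤ 2 * k * R * (1 / 10) ^ (m - 1) := by
          refine mul_le_mul_of_nonneg_left ?_ (by positivity)
          exact pow_le_pow_left₀ (by positivity) hkh _
  · rw [Nat.choose_eq_zero_of_lt (by omega)]
    simp only [Nat.cast_zero, zero_mul, abs_zero]
    positivity

theorem hNew : StNew := by
  intro k d w n R h hk hR hh hkh hd
  refine ⟨∑ m ∈ range (d + 1), Polynomial.C (dl m w (n - k) / (m.factorial : ℝ)) *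
    (descPochhammer ℝ m).comp (Polynomial.X + Polynomial.C (k : ℝ)), ?_, ?_⟩
  · refine Polynomial.natDegree_sum_le_of_forall_le _ _ fun m hm => ?_
    rw [mem_range] at hm
    refine (Polynomial.natDegree_C_mul_le _ _).trans ?_
    refine Polynomial.natDegree_comp_le.trans ?_
    rw [descPochhammer_natDegree, Polynomial.natDegree_X_add_C]
    omega
  · intro j hj
    obtain ⟨N, hN⟩ : ∃ N : ℕ, (N : ℤ) = j + k := ⟨(j + k).toNat, by
      rw [Int.toNat_of_nonneg]
      have := (abs_le.mp hj).1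
      omega⟩
    have hN2 : N ≤ 2 * k := by
      have := (abs_le.mp hj).2
      omega
    have hev : (∑ m ∈ range (d + 1), Polynomial.C (dl m w (n - k) / (m.factorial : ℝ)) *
        (descPochhammer ℝ m).comp (Polynomial.X + Polynomial.C (k : ℝ))).eval (j : ℝ) =
        ∑ m ∈ range (d + 1), (N.choose m : ℝ) * dl m w (n - k) := by
      rw [Polynomial.eval_finsetSum]
      refine sum_congr rfl fun m _ => ?_
      rw [Polynomial.eval_mul, Polynomial.eval_C, Polynomial.eval_comp, Polynomial.eval_add,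
        Polynomial.eval_X, Polynomial.eval_C]
      have e : (j : ℝ) + (k : ℝ) = (N : ℝ) := by
        have := congrArg (fun z : ℤ => (z : ℝ)) hN
        push_cast at this
        exact this.symm
      rw [e, descPochhammer_eval_eq_descFactorial, Nat.descFactorial_eq_factorial_mul_choose]
      have hf : (m.factorial : ℝ) ≠ 0 := by positivity
      push_cast
      field_simp
    have hw : w (n + j) = ∑ m ∈ range (max (N + 1) (d + 1)), (N.choose m : ℝ) * dl m w (n - k) := by
      rw [← newton_ext_New w (n - k) N _ (le_max_left _ _)]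
      congr 1
      omega
    rw [hev, hw]
    have hsplit : ∑ m ∈ range (max (N + 1) (d + 1)), (N.choose m : ℝ) * dl m w (n - k) -
        ∑ m ∈ range (d + 1), (N.choose m : ℝ) * dl m w (n - k) =
        ∑ m ∈ Ico (d + 1) (max (N + 1) (d + 1)), (N.choose m : ℝ) * dl m w (n - k) := by
      rw [sum_Ico_eq_sub _ (le_max_right _ _)]
    rw [hsplit]
    calc |∑ m ∈ Ico (d + 1) (max (N + 1) (d + 1)), (N.choose m : ℝ) * dl m w (n - k)|
        ≤ ∑ m ∈ Ico (d + 1) (max (N + 1) (d + 1)), |(N.choose m : ℝ) * dl m w (n - k)| :=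
          abs_sum_le_sum_abs _ _
      _ ≤ ∑ m ∈ Ico (d + 1) (max (N + 1) (d + 1)), 2 * k * R * (1 / 10 : ℝ) ^ (m - 1) := by
          refine sum_le_sum fun m hm => ?_
          exact term_New k d w (n - k) R h hk hR hh hkh hd N m hN2 (mem_Ico.mp hm).1
      _ = 2 * k * R * ∑ m ∈ Ico (d + 1) (max (N + 1) (d + 1)), (1 / 10 : ℝ) ^ (m - 1) := by
          rw [mul_sum]
      _ ≤ 2 * k * R * ((1 / 10) ^ d * (10 / 9)) :=
          mul_le_mul_of_nonneg_left (geo_Ico_New _ _) (by positivity)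
      _ ≤ 3 * k * R * (1 / 10) ^ d := by
          have h0 : (0 : ℝ) ≤ k * R * (1 / 10) ^ d := by positivity
          nlinarith

end Helper85.HN
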