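import Pool.Agent.Helper85.HN.St

/-!
# Project HN, module Num: choice of the order of the difference formula
-/

set_option autoImplicit false

open Set Filter Topology

namespace Helper85.HN

theorem hNum : StNum := by
  intro h h0 h1
  obtain ⟨y, hy⟩ : ∃ y : ℝ, y = 1 / h := ⟨_, rfl⟩
  have hyh : y * h = 1 := by rw [hy]; field_simp
  have hy12 : (10 : ℝ) ^ 12 ≤ y := by
    rw [hy, le_div_iff₀ h0]
    calc (10 : ℝ) ^ 12 * h ≤ 10 ^ 12 * (1 / 10 ^ 12) := by gcongr
      _ = 1 := by norm_num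
  have hy0 : 0 < y := by linarith [show (0 : ℝ) < 10 ^ 12 by positivity]
  have hl1 : ((⌊y / 600⌋₊ : ℕ) : ℝ) ≤ y / 600 := Nat.floor_le (by positivity)
  have hl2 : y / 600 < (⌊y / 600⌋₊ : ℕ) + 1 := Nat.lt_floor_add_one _
  set l : ℕ := ⌊y / 600⌋₊ with hl
  have hl3 : y / 1200 ≤ (l : ℝ) := by
    have : (1 : ℝ) ≤ y / 1200 := by
      rw [le_div_iff₀ (by norm_num)]; linarith [show (1200 : ℝ) ≤ 10 ^ 12 by norm_num]
    linarith
  refine ⟨l, ?_, ?_, ?_⟩
  · have : (1 : ℝ) ≤ (l : ℝ) := by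
      refine le_trans ?_ hl3
      rw [le_div_iff₀ (by norm_num)]; linarith [show (1200 : ℝ) ≤ 10 ^ 12 by norm_num]
    exact_mod_cast this
  · calc 600 * (l : ℝ) * h ≤ 600 * (y / 600) * h := by gcongr
      _ = y * h := by ring
      _ = 1 := hyh
      _ ≤ 1 := le_refl _
  · have e2 : Real.exp 2 ≤ 10 := by
      have h3 : Real.exp 2 = Real.exp 1 * Real.exp 1 := by rw [← Real.exp_add]; norm_num
      rw [h3]
      nlinarith [Real.exp_one_lt_d9, Real.exp_pos 1]
    have p1 : ((1 : ℝ) / 10) ≤ Real.exp (-2) := by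
      rw [Real.exp_neg, one_div]
      exact inv_anti₀ (Real.exp_pos 2) e2
    have p2 : ((1 : ℝ) / 10) ^ (2 * l) ≤ Real.exp (-(y / 300)) := by
      calc ((1 : ℝ) / 10) ^ (2 * l) ≤ Real.exp (-2) ^ (2 * l) := by gcongr
        _ = Real.exp (((2 * l : ℕ) : ℝ) * (-2)) := by rw [Real.exp_nat_mul]
        _ ≤ Real.exp (-(y / 300)) := by
          apply Real.exp_le_exp.2
          push_cast
          linarith
    have q1 : 45000 * y ≤ Real.exp (7 * y / 3000) := by
      refine le_trans ?_ (Real.quadratic_le_exp_of_nonneg (by positivity : (0 : ℝ) ≤ 7 * y / 3000))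
      nlinarith [mul_nonneg hy0.le (sub_nonneg.2 hy12)]
    have hf : (1 : ℝ) / (1000 * h) = y / 1000 := by rw [hy]; field_simp
    rw [hf]
    calc 9 * (l : ℝ) * (1 / 10) ^ (2 * l) * 3000000
        ≤ 9 * (y / 600) * Real.exp (-(y / 300)) * 3000000 := by gcongr
      _ = (45000 * y) * Real.exp (-(y / 300)) := by ring
      _ ≤ Real.exp (7 * y / 3000) * Real.exp (-(y / 300)) := by gcongr
      _ = Real.exp (-(y / 1000)) := by rw [← Real.exp_add]; congr 1; ring

end Helper85.HN
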