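import Pool.Agent.Helper85.HN.St

set_option autoImplicit false

open Set Filter Topology

noncomputable section

namespace Helper85.HN

/-- the Lyapunov function in the coordinates `u 0`, `u (-1)` -/
private def Lf_Par (b e lam u a : ℝ) : ℝ :=
  (u - a) ^ 2 / 2 - ((u ^ 3 / 3 - e * u) + (a ^ 3 / 3 - e * a)) / 2 - (1 - b) * (u - a) ^ 2 / 4
    - lam * (u - a) * (a ^ 2 - e)

private lemma id_Par (b lam u v g : ℝ) :
    Lf_Par b (u ^ 2 - g) lam (u + b * v + g) u - Lf_Par b (u ^ 2 - g) lam u (u - v) =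
      -((1 - b) * ((1 + b) * v + g) ^ 2 / 4)
      - (u * ((1 + b) * v + g) * (g - (1 - b) * v)
        + ((1 + b) * v + g) * (((1 + b) * v + g) ^ 2 + 3 * (g - (1 - b) * v) ^ 2) / 12) / 2
      - lam * (g * (g - (1 - b) * v) + v ^ 2 * (u + (u - v))) := by
  unfold Lf_Par
  ring

private lemma gd_Par (b κ β g s d : ℝ) (hκ0 : 0 < κ) (hb1 : κ ≤ 1 + b) (hb2 : 1 + b ≤ 2)
    (hβ0 : 0 ≤ β) (hβ2 : β ≤ 2) (e2 : (1 + b) * d = 2 * g - β * s) :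
    κ ^ 2 * g ^ 2 / 2 - κ * (β * s ^ 2) / 2 ≤ κ ^ 2 * (g * d) := by
  have h1 : (1 + b) * (g * d) = 2 * g ^ 2 - β * s * g := by
    calc (1 + b) * (g * d) = g * ((1 + b) * d) := by ring
      _ = _ := by rw [e2]; ring
  have h3 : β ^ 2 * s ^ 2 ≤ 2 * (β * s ^ 2) := by
    have h := mul_le_mul_of_nonneg_right (mul_le_mul_of_nonneg_left hβ2 hβ0) (sq_nonneg s)
    linarith only [h]
  have h2 : g ^ 2 - β * s ^ 2 / 2 ≤ (1 + b) * (g * d) := by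
    rw [h1]
    linarith only [sq_nonneg (g - β * s / 2), h3]
  have h4 : 0 ≤ β * s ^ 2 := mul_nonneg hβ0 (sq_nonneg s)
  have h6 : (1 + b) * (κ * (g ^ 2 / 2) - β * s ^ 2 / 2) ≤ (1 + b) * (κ * (g * d)) := by
    have h8 := mul_le_mul_of_nonneg_left h2 hκ0.le
    have h9 : κ * (β * s ^ 2) ≤ (1 + b) * (β * s ^ 2) := mul_le_mul_of_nonneg_right hb1 h4
    have h10 : (1 + b) * (κ * g ^ 2) ≤ 2 * (κ * g ^ 2) :=
      mul_le_mul_of_nonneg_right hb2 (mul_nonneg hκ0.le (sq_nonneg g))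
    linarith only [h8, h9, h10]
  have h5 : κ * (g ^ 2 / 2) - β * s ^ 2 / 2 ≤ κ * (g * d) :=
    le_of_mul_le_mul_left h6 (lt_of_lt_of_le hκ0 hb1)
  have h := mul_le_mul_of_nonneg_left h5 hκ0.le
  linarith only [h]

private lemma vd_Par (b κ β v g s d : ℝ) (hκ0 : 0 < κ) (hb1 : κ ≤ 1 + b)
    (hβ0 : 0 ≤ β) (hβ2 : β ≤ 2) (e1 : (1 + b) * v = s - g) (e2 : (1 + b) * d = 2 * g - β * s) :
    κ ^ 2 * v ^ 2 ≤ 2 * (s ^ 2 + g ^ 2) ∧ κ ^ 2 * d ^ 2 ≤ 8 * (s ^ 2 + g ^ 2) := by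
  have sq_up : κ ^ 2 ≤ (1 + b) ^ 2 := pow_le_pow_left₀ hκ0.le hb1 2
  constructor
  · have h1 : κ ^ 2 * v ^ 2 ≤ (1 + b) ^ 2 * v ^ 2 := mul_le_mul_of_nonneg_right sq_up (sq_nonneg v)
    have h2 : (1 + b) ^ 2 * v ^ 2 = (s - g) ^ 2 := by rw [← e1]; ring
    linarith only [sq_nonneg (s + g), h1, h2]
  · have h1 : κ ^ 2 * d ^ 2 ≤ (1 + b) ^ 2 * d ^ 2 := mul_le_mul_of_nonneg_right sq_up (sq_nonneg d)
    have h2 : (1 + b) ^ 2 * d ^ 2 = (2 * g - β * s) ^ 2 := by rw [← e2]; ring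
    have h3 : (β * s) ^ 2 ≤ 4 * s ^ 2 := by
      have h := mul_le_mul_of_nonneg_right (pow_le_pow_left₀ hβ0 hβ2 2) (sq_nonneg s)
      linarith only [h]
    linarith only [sq_nonneg (2 * g + β * s), h1, h2, h3]

/-- the defect of the Leibniz rule -/
private lemma EE_Par (ρ u s d : ℝ) (hu : |u| ≤ ρ) (hs : |s| ≤ 2 * ρ) :
    -(u * s * d + s * (s ^ 2 + 3 * d ^ 2) / 12) / 2 ≤ ρ * (s ^ 2 + d ^ 2) := by
  have hρ : 0 ≤ ρ := le_trans (abs_nonneg _) hu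
  have h1 : -(u * s * d) ≤ ρ * ((s ^ 2 + d ^ 2) / 2) := by
    have h2 : -(u * s * d) ≤ |u| * |s * d| := by
      rw [← abs_mul]
      have := neg_abs_le (u * (s * d))
      linarith only [this]
    have h3 : |s * d| ≤ (s ^ 2 + d ^ 2) / 2 := by
      rw [abs_le]
      constructor
      · linarith only [sq_nonneg (s + d)]
      · linarith only [sq_nonneg (s - d)]
    exact h2.trans (mul_le_mul hu h3 (abs_nonneg _) hρ)
  have h2 : -(s * (s ^ 2 + 3 * d ^ 2)) ≤ 2 * ρ * (s ^ 2 + 3 * d ^ 2) := by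
    have h3 : 0 ≤ s ^ 2 + 3 * d ^ 2 := by positivity
    have h4 := mul_le_mul_of_nonneg_right ((neg_le_abs s).trans hs) h3
    linarith only [h4]
  have h3 : 0 ≤ ρ * s ^ 2 := mul_nonneg hρ (sq_nonneg s)
  have h4 : 0 ≤ ρ * d ^ 2 := mul_nonneg hρ (sq_nonneg d)
  linarith only [h1, h2, h3, h4]

private lemma key_Par (b κ lam β u a v g s d : ℝ) (hκ0 : 0 < κ) (hκ1 : κ ≤ 1) (hb1 : κ ≤ 1 + b)
    (hβ : β = 1 - b) (hβκ : κ ≤ β) (hlam : lam = κ ^ 2 / 16)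
    (hu : |u| ≤ κ ^ 4 / 1000) (ha : |a| ≤ κ ^ 4 / 1000)
    (hs : s = (1 + b) * v + g) (hd : d = g - β * v)
    (hs2 : |s| ≤ 2 * (κ ^ 4 / 1000)) :
    -(β * s ^ 2 / 4) - (u * s * d + s * (s ^ 2 + 3 * d ^ 2) / 12) / 2
      - lam * (g * d + v ^ 2 * (u + a)) ≤ - (κ / 100 * s ^ 2) - κ ^ 2 / 100 * g ^ 2 := by
  have hβ2 : β ≤ 2 := by linarith
  have hβ0 : 0 ≤ β := by linarith
  have e1 : (1 + b) * v = s - g := by rw [hs]; ring
  have e2 : (1 + b) * d = 2 * g - β * s := by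
    rw [hd, hs, hβ]; ring
  have hgd := gd_Par b κ β g s d hκ0 hb1 (by linarith) hβ0 hβ2 e2
  obtain ⟨hv, hd2⟩ := vd_Par b κ β v g s d hκ0 hb1 hβ0 hβ2 e1 e2
  have hEE := EE_Par (κ ^ 4 / 1000) u s d hu hs2
  -- powers of κ
  have hκ2 : κ ^ 2 ≤ κ := by
    have h := mul_le_mul_of_nonneg_left hκ1 hκ0.le
    linarith only [h]
  have hκ3 : κ ^ 4 ≤ κ ^ 2 := by
    have h := mul_le_mul_of_nonneg_left (hκ2.trans hκ1) (sq_nonneg κ)
    linarith only [h]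
  have s0 := sq_nonneg s
  have g0 := sq_nonneg g
  have t1 : κ ^ 4 * d ^ 2 ≤ κ ^ 2 * (8 * (s ^ 2 + g ^ 2)) := by
    have h := mul_le_mul_of_nonneg_left hd2 (sq_nonneg κ)
    linarith only [h]
  have t2 : κ ^ 4 * s ^ 2 ≤ κ * s ^ 2 := mul_le_mul_of_nonneg_right (hκ3.trans hκ2) s0
  have t3 : κ ^ 2 * s ^ 2 ≤ κ * s ^ 2 := mul_le_mul_of_nonneg_right hκ2 s0
  have t4 : κ * s ^ 2 ≤ β * s ^ 2 := mul_le_mul_of_nonneg_right hβκ s0
  have t5 : κ * (β * s ^ 2) ≤ 1 * (β * s ^ 2) :=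
    mul_le_mul_of_nonneg_right hκ1 (mul_nonneg hβ0 s0)
  have t6 : -(κ ^ 2 * (v ^ 2 * (u + a))) ≤ κ ^ 2 / 500 * (2 * (s ^ 2 + g ^ 2)) := by
    have h1 : -(u + a) ≤ κ ^ 4 / 500 := by
      have h2 := neg_le_abs u
      have h3 := neg_le_abs a
      linarith only [h2, h3, hu, ha]
    have h2 : -(κ ^ 2 * (v ^ 2 * (u + a))) = (κ ^ 2 * v ^ 2) * (-(u + a)) := by ring
    rw [h2]
    have h0 : 0 ≤ κ ^ 2 * v ^ 2 := mul_nonneg (sq_nonneg _) (sq_nonneg _)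
    have h3 := mul_le_mul_of_nonneg_left h1 h0
    have h4 : κ ^ 2 * v ^ 2 * (κ ^ 4 / 500) ≤ κ ^ 2 * v ^ 2 * (κ ^ 2 / 500) :=
      mul_le_mul_of_nonneg_left (by linarith only [hκ3]) h0
    have h5 : κ ^ 2 * v ^ 2 * (κ ^ 2 / 500) ≤ 2 * (s ^ 2 + g ^ 2) * (κ ^ 2 / 500) :=
      mul_le_mul_of_nonneg_right hv (by positivity)
    linarith only [h3, h4, h5]
  have t7 : 0 ≤ κ ^ 2 * g ^ 2 := mul_nonneg (sq_nonneg _) g0
  have t8 : 0 ≤ κ * s ^ 2 := mul_nonneg hκ0.le s0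
  rw [hlam]
  linarith only [hgd, hEE, t1, t2, t3, t4, t5, t6, t7, t8]

theorem hPar (h1 : StCvt) (h2 : StId) : StPar := by
  intro b1 hb10 hb11
  set κ := 1 - b1 with hκ
  have hκ0 : 0 < κ := by rw [hκ]; linarith
  have hκ1 : κ ≤ 1 := by rw [hκ]; linarith
  refine ⟨κ ^ 4 / 1000, by positivity, ?_⟩
  intro b c hb hbd
  have hb' := abs_le.1 hb
  have hbl : κ ≤ 1 + b := by rw [hκ]; linarith
  have hbu : κ ≤ 1 - b := by rw [hκ]; linarith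
  have hL : ∀ p ∈ KK b c,
      Lf_Par b ((1 + b) ^ 2 / 4 - c) (κ ^ 2 / 16) ((hen b c p).1 - (1 + b) / 2) ((hen b c p).2 - (1 + b) / 2)
        - Lf_Par b ((1 + b) ^ 2 / 4 - c) (κ ^ 2 / 16) (p.1 - (1 + b) / 2) (p.2 - (1 + b) / 2) ≤
        - (κ / 100 * ((hen b c p).1 - p.2) ^ 2)
          - κ ^ 2 / 100 * ((p.1 - (1 + b) / 2) ^ 2 - ((1 + b) ^ 2 / 4 - c)) ^ 2 := by
    rintro ⟨p1, p2⟩ ⟨x, hx, hxb, h0, h1'⟩
    simp only at h0 h1'
    have B0 := hbd x hx hxb 0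
    have B1 := hbd x hx hxb (-1)
    have B2 := hbd x hx hxb 1
    have hx1 := hx 0
    rw [zero_add, zero_sub, h0, h1'] at hx1
    rw [h0] at B0
    rw [h1'] at B1
    rw [hx1] at B2
    simp only [hen]
    set u := p1 - (1 + b) / 2 with hu
    set a := p2 - (1 + b) / 2 with ha
    set g := u ^ 2 - ((1 + b) ^ 2 / 4 - c) with hg
    have e1 : p1 ^ 2 + c - b * p2 - (1 + b) / 2 = u + b * (u - a) + g := by
      rw [hg, hu, ha]; ring
    have e2 : (1 + b) ^ 2 / 4 - c = u ^ 2 - g := by rw [hg]; ring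
    have e3 : p1 ^ 2 + c - b * p2 - p2 = (1 + b) * (u - a) + g := by
      rw [hg, hu, ha]; ring
    have e4 : a = u - (u - a) := by ring
    rw [e1] at B2
    rw [e1, e2, e3]
    have I := id_Par b (κ ^ 2 / 16) u (u - a) g
    rw [← e4] at I
    rw [I]
    have e5 : (1 + b) * (u - a) + g = (u + b * (u - a) + g) - a := by ring
    have hs2 : |(1 + b) * (u - a) + g| ≤ 2 * (κ ^ 4 / 1000) := by
      rw [e5]
      have h := abs_sub (u + b * (u - a) + g) a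
      linarith
    exact key_Par b κ (κ ^ 2 / 16) (1 - b) u a (u - a) g _ _ hκ0 hκ1 hbl rfl hbu rfl B0 B1 rfl rfl hs2
  refine ⟨fun p => Lf_Par b ((1 + b) ^ 2 / 4 - c) (κ ^ 2 / 16) (p.1 - (1 + b) / 2) (p.2 - (1 + b) / 2), ?_, ?_, ?_⟩
  · unfold Lf_Par
    fun_prop
  · intro p hp
    have h := hL p hp
    have h3 : 0 ≤ κ / 100 * ((hen b c p).1 - p.2) ^ 2 := by positivity
    have h4 : 0 ≤ κ ^ 2 / 100 * ((p.1 - (1 + b) / 2) ^ 2 - ((1 + b) ^ 2 / 4 - c)) ^ 2 := by positivity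
    simp only
    linarith
  · intro p hp heq
    have h := hL p hp
    simp only at heq
    rw [heq, sub_self] at h
    have h3 : 0 ≤ κ / 100 * ((hen b c p).1 - p.2) ^ 2 := by positivity
    have h4 : 0 ≤ κ ^ 2 / 100 * ((p.1 - (1 + b) / 2) ^ 2 - ((1 + b) ^ 2 / 4 - c)) ^ 2 := by positivity
    have h5 : κ / 100 * ((hen b c p).1 - p.2) ^ 2 = 0 := by linarith
    have h6 : κ ^ 2 / 100 * ((p.1 - (1 + b) / 2) ^ 2 - ((1 + b) ^ 2 / 4 - c)) ^ 2 = 0 := by linarith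
    have h7 : (hen b c p).1 - p.2 = 0 := by
      rcases mul_eq_zero.1 h5 with h | h
      · linarith
      · exact pow_eq_zero_iff (two_ne_zero) |>.1 h
    have h8 : (p.1 - (1 + b) / 2) ^ 2 - ((1 + b) ^ 2 / 4 - c) = 0 := by
      rcases mul_eq_zero.1 h6 with h | h
      · have : 0 < κ ^ 2 := by positivity
        linarith
      · exact pow_eq_zero_iff (two_ne_zero) |>.1 h
    obtain ⟨p1, p2⟩ := p
    simp only [hen] at h7 h8 ⊢
    have h9 : (1 + b) * (p1 - p2) = 0 := by linarith [h7, h8]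
    have h10 : p1 - p2 = 0 := by
      rcases mul_eq_zero.1 h9 with h | h
      · linarith
      · exact h
    ext
    · simp only; linarith
    · simp only; linarith

end Helper85.HN

end
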