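import Pool.Agent.Helper85.HN.St

/-! # Project HN (MP_b39980_an), module Pass: passing the saddle -/

set_option autoImplicit false

namespace Helper85.HN

theorem hPass : StPass := by
  intro b h w hb0 hb1 hh0 hh1 hrec hle h4
  have h3 : 0 < h ^ 3 := by positivity
  have h2 : 0 < h ^ 2 := by positivity
  have h44 : 0 < h ^ 4 := by positivity
  have h43 : h ^ 4 ≤ h ^ 3 := by
    have : h ^ 4 = h ^ 3 * h := by ring
    rw [this]
    nlinarith
  have hm_le : ∀ j, max (w j) (-h ^ 2) ≤ h ^ 2 := fun j => max_le (hle j) (by linarith)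
  have key : ∀ j, 7 / 2 * h ^ 3 ≤ (w (j + 1) - w j) + h / 2 * max (w (j + 1)) (-h ^ 2) := by
    intro j
    induction j with
    | zero =>
      have : -h ^ 2 ≤ max (w (0 + 1)) (-h ^ 2) := le_max_right _ _
      have h5 : h / 2 * (-h ^ 2) ≤ h / 2 * max (w (0 + 1)) (-h ^ 2) :=
        mul_le_mul_of_nonneg_left this (by linarith)
      simp only [zero_add] at h5 ⊢
      nlinarith
    | succ j ih =>
      have hr := hrec j
      have hG : 3 * h ^ 3 ≤ w (j + 1) - w j := by
        have h5 : h / 2 * max (w (j + 1)) (-h ^ 2) ≤ h / 2 * h ^ 2 :=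
          mul_le_mul_of_nonneg_left (hm_le (j + 1)) (by linarith)
        nlinarith
      by_cases hc : w (j + 1) < -h ^ 2
      · have hsq : h ^ 4 ≤ w (j + 1) ^ 2 := by nlinarith
        have hb : w (j + 1) - w j ≤ b * (w (j + 2) - w (j + 1)) := by rw [hr]; linarith
        have hpos : 0 < w (j + 2) - w (j + 1) := by
          by_contra hn
          push Not at hn
          have : b * (w (j + 2) - w (j + 1)) ≤ 0 := mul_nonpos_of_nonneg_of_nonpos hb0.le hn
          linarith
        have hG2 : w (j + 1) - w j ≤ w (j + 2) - w (j + 1) := by nlinarith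
        have hmx : max (w (j + 1)) (-h ^ 2) = -h ^ 2 := max_eq_right hc.le
        have h5 : h / 2 * (-h ^ 2) ≤ h / 2 * max (w (j + 1 + 1)) (-h ^ 2) :=
          mul_le_mul_of_nonneg_left (le_max_right _ _) (by linarith)
        rw [hmx] at ih
        have e : w (j + 1 + 1) = w (j + 2) := rfl
        rw [e] at h5 ⊢
        linarith
      · push Not at hc
        have hsq : 0 ≤ w (j + 1) ^ 2 := sq_nonneg _
        have hb : w (j + 1) - w j - h ^ 4 ≤ b * (w (j + 2) - w (j + 1)) := by rw [hr]; linarith
        have hpos : 0 < w (j + 2) - w (j + 1) := by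
          by_contra hn
          push Not at hn
          have : b * (w (j + 2) - w (j + 1)) ≤ 0 := mul_nonpos_of_nonneg_of_nonpos hb0.le hn
          linarith
        have hG2 : w (j + 1) - w j - h ^ 4 ≤ w (j + 2) - w (j + 1) := by nlinarith
        have hG3 : 2 * h ^ 3 ≤ w (j + 2) - w (j + 1) := by linarith
        have hmx : max (w (j + 1)) (-h ^ 2) = w (j + 1) := max_eq_left hc
        have h5 : w (j + 2) ≤ max (w (j + 2)) (-h ^ 2) := le_max_left _ _
        have h6 : h / 2 * w (j + 2) ≤ h / 2 * max (w (j + 2)) (-h ^ 2) :=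
          mul_le_mul_of_nonneg_left h5 (by linarith)
        have h7 : h / 2 * (2 * h ^ 3) ≤ h / 2 * (w (j + 2) - w (j + 1)) :=
          mul_le_mul_of_nonneg_left hG3 (by linarith)
        rw [hmx] at ih
        have e : w (j + 1 + 1) = w (j + 2) := rfl
        rw [e]
        have e2 : h / 2 * (2 * h ^ 3) = h ^ 4 := by ring
        rw [e2] at h7
        linarith
  have hG : ∀ j, 3 * h ^ 3 ≤ w (j + 1) - w j := by
    intro j
    have h5 : h / 2 * max (w (j + 1)) (-h ^ 2) ≤ h / 2 * h ^ 2 :=
      mul_le_mul_of_nonneg_left (hm_le (j + 1)) (by linarith)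
    have := key j
    nlinarith
  have hw : ∀ j : ℕ, w 0 + 3 * h ^ 3 * j ≤ w j := by
    intro j
    induction j with
    | zero => simp
    | succ j ih =>
      have := hG j
      push_cast
      linarith
  obtain ⟨j, hj⟩ := exists_nat_gt ((h ^ 2 - w 0) / (3 * h ^ 3))
  rw [div_lt_iff₀ (by positivity)] at hj
  have h8 := hw j
  have h9 := hle j
  linarith [mul_comm (j : ℝ) (3 * h ^ 3)]

end Helper85.HN
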