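import Pool.Agent.Helper85.HN.St

/-! # Project HN, module Phi: continuity and equivariance of `LL` -/

set_option autoImplicit false

open Set Filter Topology

noncomputable section

namespace Helper85.HN

private theorem tl_shift_Phi (y y' : ℤ → ℝ) (h : ∀ i, y' i = y (i + 1)) (p q p' q' : ℤ) (hp : p' = p + 1) (hq : q' = q + 1) :
    tl y' p q = tl y p' q' := by
  subst hp
  subst hq
  unfold tl
  rw [← Finset.sum_Ico_add' (fun i => y i) p q 1]
  exact Finset.sum_congr rfl (fun i _ => h i)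

theorem hPhi (h1 : StTra) (h2 : StCvt) : StPhi := by
  intro b c lam k hb hu
  refine h1 b c (fun x n => LL k b ((1 + b) ^ 2 / 4 - c) lam (fun i => x i - (1 + b) / 2) n) hb ?_ ?_ ?_
  · unfold LL WW tl
    fun_prop
  · intro u n
    have hW : WW k ((1 + b) ^ 2 / 4 - c) (fun i => u (i + 1) - (1 + b) / 2) n =
        WW k ((1 + b) ^ 2 / 4 - c) (fun i => u i - (1 + b) / 2) (n + 1) := by
      unfold WW
      refine Finset.sum_congr rfl (fun j _ => ?_)
      have e1 := tl_shift_Phi (fun i => (u i - (1 + b) / 2) * (u (i + j - 1) - (1 + b) / 2))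
        (fun i => (u (i + 1) - (1 + b) / 2) * (u (i + j - 1 + 1) - (1 + b) / 2))
        (fun i => by rw [show i + 1 + (j : ℤ) - 1 = i + j - 1 + 1 by ring]) (n - j) (n + 1) (n + 1 - j) (n + 1 + 1)
        (by ring) (by ring)
      have e2 := tl_shift_Phi (fun i => (u i - (1 + b) / 2) * (u (i + j + 1) - (1 + b) / 2))
        (fun i => (u (i + 1) - (1 + b) / 2) * (u (i + j + 1 + 1) - (1 + b) / 2))
        (fun i => by rw [show i + 1 + (j : ℤ) + 1 = i + j + 1 + 1 by ring]) (n - j) (n - 1) (n + 1 - j) (n + 1 - 1)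
        (by ring) (by ring)
      have e3 := tl_shift_Phi (fun i => (u i - (1 + b) / 2) * (u (i + j) - (1 + b) / 2))
        (fun i => (u (i + 1) - (1 + b) / 2) * (u (i + j + 1) - (1 + b) / 2))
        (fun i => by rw [show i + 1 + (j : ℤ) = i + j + 1 by ring]) (n - j) n (n + 1 - j) (n + 1)
        (by ring) (by ring)
      have e4 := tl_shift_Phi (fun i => (u i - (1 + b) / 2) ^ 3 / 3 - ((1 + b) ^ 2 / 4 - c) * (u i - (1 + b) / 2))
        (fun i => (u (i + 1) - (1 + b) / 2) ^ 3 / 3 - ((1 + b) ^ 2 / 4 - c) * (u (i + 1) - (1 + b) / 2))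
        (fun i => rfl) (n - j) (n + j) (n + 1 - j) (n + 1 + j) (by ring) (by ring)
      rw [e1, e2, e3, e4]
    simp only [LL, hW]
    rw [show n + 1 - 1 = n by ring, show n - 1 + 1 = n by ring]
  · intro x hx hB
    have hU := (h2.1 b c x).1 hx
    obtain ⟨M, hM⟩ := hB
    have hB' : Bd (fun n => x n - (1 + b) / 2) :=
      ⟨M + |(1 + b) / 2|, fun n => (abs_sub _ _).trans (add_le_add (hM n) le_rfl)⟩
    obtain ⟨h3, h4⟩ := hu _ hU hB'
    refine ⟨h3, fun h => ?_⟩
    obtain ⟨h5, h6⟩ := h4 h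
    exact ⟨by simpa using h5, by simpa using h6⟩

end Helper85.HN

end
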