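import Pool.Agent.Helper85.HN.St

/-! # Project HN, module Poly: polynomial covers imply zero entropy -/

set_option autoImplicit false

open Set Filter Topology

namespace Helper85.HN

/-- polynomials are eventually below exponentials -/
private theorem aux_Poly (C M : ℕ) (ε : ℝ) (hε : 0 < ε) :
    ∀ᶠ n : ℕ in atTop, (C : ℝ) * ((n : ℝ) + 1) ^ M ≤ Real.exp (ε * n) := by
  have h := isLittleO_pow_exp_pos_mul_atTop M hε
  have hc : 0 < Real.exp (-ε) / ((C : ℝ) + 1) := by positivity
  have h1 := h.def hc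
  have h2 : Tendsto (fun n : ℕ => (n : ℝ) + 1) atTop atTop :=
    tendsto_atTop_add_const_right _ _ tendsto_natCast_atTop_atTop
  filter_upwards [h2.eventually h1] with n hn
  have hn0 : (0 : ℝ) ≤ (n : ℝ) + 1 := by positivity
  rw [Real.norm_of_nonneg (pow_nonneg hn0 M), Real.norm_of_nonneg (Real.exp_pos _).le] at hn
  have e : Real.exp (ε * ((n : ℝ) + 1)) = Real.exp (ε * n) * Real.exp ε := by
    rw [← Real.exp_add]; ring_nf
  rw [e] at hn
  have e2 : Real.exp (-ε) / ((C : ℝ) + 1) * (Real.exp (ε * n) * Real.exp ε) =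
      Real.exp (ε * n) / ((C : ℝ) + 1) := by
    rw [Real.exp_neg]
    have := (Real.exp_pos ε).ne'
    field_simp
  rw [e2] at hn
  have hC : (0 : ℝ) ≤ C := Nat.cast_nonneg C
  calc (C : ℝ) * ((n : ℝ) + 1) ^ M ≤ C * (Real.exp (ε * n) / ((C : ℝ) + 1)) :=
        mul_le_mul_of_nonneg_left hn hC
    _ = Real.exp (ε * n) * (C / ((C : ℝ) + 1)) := by ring
    _ ≤ Real.exp (ε * n) * 1 := by
        apply mul_le_mul_of_nonneg_left _ (Real.exp_pos _).le
        rw [div_le_one (by positivity)]
        linarith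
    _ = Real.exp (ε * n) := mul_one _

theorem hPoly : StPoly := by
  intro T F _ hU
  unfold Dynamics.coverEntropy
  refine iSup₂_le fun U hUu => ?_
  obtain ⟨C, M, hCM⟩ := hU U hUu
  unfold Dynamics.coverEntropyEntourage
  refine EReal.le_of_forall_lt_iff_le.1 ?_
  intro z hz
  have hz' : 0 < z := by exact_mod_cast hz
  refine Eventually.expGrowthSup_le ?_
  filter_upwards [aux_Poly C M z hz'] with n hn
  have h1 : ((Dynamics.coverMincard T F U n : ℕ∞) : ENNReal) ≤ ((C * (n + 1) ^ M : ℕ) : ENNReal) := by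
    have := ENat.toENNReal_mono (hCM n)
    simpa using this
  refine le_trans h1 ?_
  have h2 : ((z : EReal) * (n : EReal)) = ((z * n : ℝ) : EReal) := by
    rw [EReal.coe_mul]; rfl
  rw [h2, EReal.exp_coe]
  rw [← ENNReal.ofReal_natCast]
  apply ENNReal.ofReal_le_ofReal
  push_cast
  exact hn

end Helper85.HN
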