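import Pool.Agent.Helper85.HN.St

/-! # Project HN, module RA -/

set_option autoImplicit false

open Set Filter Topology

noncomputable section

namespace Helper85.HN

private lemma ak11_RA : ak 1 1 = 1 / 2 := by
  simp [ak, Nat.choose]

private lemma DD1_RA (f : ℤ → ℝ) (n : ℤ) : DD 1 f n = (f (n + 1) - f (n - 1)) / 2 := by
  simp [DD, ak11_RA]
  ring

/-- the quadratic inequality; `S = |s|`, `G = |g|`, `V = |v|`, `D = |d|` -/
private lemma quad_RA (β h lam S G V D EEv T2 T3 : ℝ) (hh : 0 < h) (hh' : h ≤ 1 / 10 ^ 4) (hβ : 0 < β)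
    (hβ' : β ≤ 1 / 10) (h3 : 5000 * h ^ 3 ≤ β) (hlam : lam = β / (1000 * (h ^ 2 + β ^ 2)))
    (hS : 0 ≤ S) (hG : 0 ≤ G) (hV : 0 ≤ V) (hD : 0 ≤ D) (hVle : V ≤ S + G) (hDle : D ≤ 2 * G + β * S)
    (hDb : D ≤ 300 * h ^ 3) (hSb : S ≤ 300 * h ^ 3)
    (hE : EEv ≤ 8 * h ^ 2 * (S * D) + S * (S * S + 3 * (D * D)) / 24)
    (hT2 : T2 ≤ β * (V * G)) (hT3 : T3 ≤ 32 * h ^ 2 * (V * V)) :
    -β * S ^ 2 / 4 + EEv - lam * G ^ 2 + lam * T2 + lam * T3 ≤ -(β / 8 * S ^ 2 + lam / 2 * G ^ 2) := by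
  have hh2 : h ^ 2 ≤ 1 / 10 ^ 8 := by
    calc h ^ 2 ≤ (1 / 10 ^ 4) ^ 2 := by gcongr
      _ = 1 / 10 ^ 8 := by norm_num
  have hDD : 0 < h ^ 2 + β ^ 2 := by positivity
  have hlam0 : 0 < lam := by rw [hlam]; positivity
  have hlamD : lam * (1000 * (h ^ 2 + β ^ 2)) = β := by
    rw [hlam]; field_simp
  have l1 : lam * β ^ 2 ≤ β / 1000 := by
    have : 0 ≤ lam * h ^ 2 := by positivity
    nlinarith
  have l2 : lam * h ^ 2 ≤ β / 1000 := by
    have : 0 ≤ lam * β ^ 2 := by positivity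
    nlinarith
  -- `648 h⁴ ≤ (3/100) β lam`
  have l3 : 648 * h ^ 4 ≤ 3 / 100 * β * lam := by
    have e : h ^ 6 ≤ β ^ 2 / 25000000 := by
      have : (5000 * h ^ 3) ^ 2 ≤ β ^ 2 := by gcongr
      nlinarith
    have e2 : 648 * h ^ 4 * (1000 * (h ^ 2 + β ^ 2)) ≤ 3 / 100 * β ^ 2 := by
      have e3 : h ^ 4 * β ^ 2 ≤ 1 / 10 ^ 16 * β ^ 2 := by
        have : h ^ 4 ≤ 1 / 10 ^ 16 := by
          calc h ^ 4 ≤ (1 / 10 ^ 4) ^ 4 := by gcongr
            _ = 1 / 10 ^ 16 := by norm_num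
        gcongr
      have e4 : 0 ≤ β ^ 2 := by positivity
      nlinarith
    have e5 : 648 * h ^ 4 * (1000 * (h ^ 2 + β ^ 2)) ≤ (3 / 100 * β * lam) * (1000 * (h ^ 2 + β ^ 2)) := by
      have : (3 / 100 * β * lam) * (1000 * (h ^ 2 + β ^ 2)) = 3 / 100 * β ^ 2 := by
        calc _ = 3 / 100 * β * (lam * (1000 * (h ^ 2 + β ^ 2))) := by ring
          _ = _ := by rw [hlamD]; ring
      rw [this]; exact e2
    exact le_of_mul_le_mul_right e5 (by positivity)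
  -- T1
  have t1 : EEv ≤ (13 * h ^ 3 + 9 * β * h ^ 2) * S ^ 2 + 18 * h ^ 2 * (S * G) := by
    have a1 : S * D ≤ S * (2 * G + β * S) := by gcongr
    have a2 : S * S ≤ 300 * h ^ 3 * S := by gcongr
    have a3 : D * D ≤ 300 * h ^ 3 * (2 * G + β * S) := by
      exact mul_le_mul hDb hDle hD (by positivity)
    have a4 : 8 * h ^ 2 * (S * D) ≤ 8 * h ^ 2 * (S * (2 * G + β * S)) := by gcongr
    have a5 : S * (S * S + 3 * (D * D)) / 24 ≤ S * (300 * h ^ 3 * S + 3 * (300 * h ^ 3 * (2 * G + β * S))) / 24 := by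
      gcongr
    have a6 : h ^ 3 * (S * G) ≤ 1 / 10 ^ 4 * (h ^ 2 * (S * G)) := by
      have : h ^ 3 * (S * G) = h * (h ^ 2 * (S * G)) := by ring
      rw [this]; gcongr
    have a7 : h ^ 3 * (β * S ^ 2) ≤ 1 / 10 ^ 4 * (h ^ 2 * (β * S ^ 2)) := by
      have : h ^ 3 * (β * S ^ 2) = h * (h ^ 2 * (β * S ^ 2)) := by ring
      rw [this]; gcongr
    have p1 : 0 ≤ h ^ 2 * (S * G) := by positivity
    have p2 : 0 ≤ h ^ 2 * (β * S ^ 2) := by positivity
    have p3 : 0 ≤ h ^ 3 * S ^ 2 := by positivity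
    nlinarith
  have t2 : lam * T2 ≤ lam * β * (S * G) + lam * β * G ^ 2 := by
    have : T2 ≤ β * ((S + G) * G) := hT2.trans (by gcongr)
    calc lam * T2 ≤ lam * (β * ((S + G) * G)) := by gcongr
      _ = _ := by ring
  have t3 : lam * T3 ≤ 64 * (lam * h ^ 2) * S ^ 2 + 64 * (lam * h ^ 2) * G ^ 2 := by
    have e1 : V * V ≤ 2 * (S ^ 2 + G ^ 2) := by
      have : V * V ≤ (S + G) * (S + G) := by gcongr
      nlinarith [sq_nonneg (S - G)]
    have : T3 ≤ 32 * h ^ 2 * (2 * (S ^ 2 + G ^ 2)) := hT3.trans (by gcongr)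
    calc lam * T3 ≤ lam * (32 * h ^ 2 * (2 * (S ^ 2 + G ^ 2))) := by gcongr
      _ = _ := by ring
  have t4 : 18 * h ^ 2 * (S * G) ≤ lam / 8 * G ^ 2 + 3 / 100 * β * S ^ 2 := by
    have e : 0 ≤ lam * (lam / 8 * G ^ 2 + 3 / 100 * β * S ^ 2 - 18 * h ^ 2 * (S * G)) := by
      have e1 : 0 ≤ (3 / 100 * β * lam - 648 * h ^ 4) * S ^ 2 :=
        mul_nonneg (by linarith) (sq_nonneg _)
      have e2 : 0 ≤ (lam * G - 72 * h ^ 2 * S) ^ 2 / 8 := by positivity
      nlinarith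
    have := nonneg_of_mul_nonneg_right e hlam0
    linarith
  have t5 : lam * β * (S * G) ≤ lam / 8 * G ^ 2 + 2 * (lam * β ^ 2) * S ^ 2 := by
    have : 0 ≤ lam * (G - 4 * β * S) ^ 2 / 8 := by positivity
    nlinarith
  have q1 : (lam * β ^ 2) * S ^ 2 ≤ β / 1000 * S ^ 2 := by gcongr
  have q2 : (lam * h ^ 2) * S ^ 2 ≤ β / 1000 * S ^ 2 := by gcongr
  have q3 : lam * β * G ^ 2 ≤ 1 / 10 * (lam * G ^ 2) := by
    have : lam * β * G ^ 2 = β * (lam * G ^ 2) := by ring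
    rw [this]; gcongr
  have q4 : (lam * h ^ 2) * G ^ 2 ≤ 1 / 10 ^ 8 * (lam * G ^ 2) := by
    have : (lam * h ^ 2) * G ^ 2 = h ^ 2 * (lam * G ^ 2) := by ring
    rw [this]; gcongr
  have q5 : h ^ 3 * S ^ 2 ≤ β / 5000 * S ^ 2 := by
    have : h ^ 3 ≤ β / 5000 := by linarith
    gcongr
  have q6 : β * h ^ 2 * S ^ 2 ≤ 1 / 10 ^ 8 * (β * S ^ 2) := by
    have : β * h ^ 2 * S ^ 2 = h ^ 2 * (β * S ^ 2) := by ring
    rw [this]; gcongr
  have r1 : 0 ≤ β * S ^ 2 := by positivity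
  have r2 : 0 ≤ lam * G ^ 2 := by positivity
  nlinarith

theorem hRA (h1 : StVel) (h2 : StLo) (h3 : StId) : StRA := by
  intro b h u hh hh' hb hb' h5 hU hB
  have hb2 : 1 / 2 ≤ b := by linarith
  have hh2 : h ≤ 1 / 100 := hh'.trans (by norm_num)
  have hvel := h1 b h u hb2 hb'.le hh hh2 hU hB
  have hlo := h2 b h u hb2 hb'.le hh hh2 hU hB
  set lam := (1 - b) / (1000 * (h ^ 2 + (1 - b) ^ 2)) with hlam
  have hid := h3 1 b (h ^ 4) lam u 0 hU
  have hU0 := hU 0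
  simp only [EE, DD1_RA, zero_add, zero_sub] at hid hU0
  have v0 := hvel 0
  have v1 := hvel 1
  have b0 := hlo 0
  have bm := hlo (-1)
  simp only [zero_sub, sub_self] at v0 v1
  generalize u 1 = x at *
  generalize u 0 = y at *
  generalize u (-1) = z at *
  -- notation
  have hβ : 0 < 1 - b := by linarith
  have hlam0 : 0 < lam := by
    have : 0 < h ^ 2 + (1 - b) ^ 2 := by positivity
    rw [hlam]; positivity
  have hs : x - z = (1 + b) * (y - z) + (y ^ 2 - h ^ 4) := by linarith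
  have hd : (1 + b) * (x - 2 * y + z) = 2 * (y ^ 2 - h ^ 4) - (1 - b) * (x - z) := by
    have : x = y + b * (y - z) + (y ^ 2 - h ^ 4) := by linarith
    rw [this]; ring
  have hVle : |y - z| ≤ |x - z| + |y ^ 2 - h ^ 4| := by
    have e : (1 + b) * |y - z| = |(x - z) - (y ^ 2 - h ^ 4)| := by
      have e0 : (x - z) - (y ^ 2 - h ^ 4) = (1 + b) * (y - z) := by linarith
      rw [e0, abs_mul, abs_of_pos (show (0 : ℝ) < 1 + b by linarith)]
    have e2 := abs_sub (x - z) (y ^ 2 - h ^ 4)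
    have e3 := abs_nonneg (y - z)
    nlinarith
  have hDle : |x - 2 * y + z| ≤ 2 * |y ^ 2 - h ^ 4| + (1 - b) * |x - z| := by
    have e : (1 + b) * |x - 2 * y + z| = |2 * (y ^ 2 - h ^ 4) - (1 - b) * (x - z)| := by
      rw [← hd, abs_mul, abs_of_pos (show (0 : ℝ) < 1 + b by linarith)]
    have e2 := abs_sub (2 * (y ^ 2 - h ^ 4)) ((1 - b) * (x - z))
    rw [abs_mul, abs_mul, abs_of_pos hβ, abs_of_pos (show (0 : ℝ) < 2 by norm_num)] at e2
    have e3 := abs_nonneg (x - 2 * y + z)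
    nlinarith
  have hDb : |x - 2 * y + z| ≤ 300 * h ^ 3 := by
    have : x - 2 * y + z = (x - y) - (y - z) := by ring
    rw [this]
    have e2 := abs_sub (x - y) (y - z)
    linarith
  have hSb : |x - z| ≤ 300 * h ^ 3 := by
    have : x - z = (x - y) + (y - z) := by ring
    rw [this]
    have e2 := abs_add_le (x - y) (y - z)
    linarith
  have hy : |y| ≤ 16 * h ^ 2 := abs_le.2 ⟨b0.2, b0.1.trans (by nlinarith [sq_nonneg h])⟩
  have hyz : |y + z| ≤ 32 * h ^ 2 := abs_le.2 ⟨by linarith [b0.2, bm.2], by nlinarith [sq_nonneg h, b0.1, bm.1]⟩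
  have key := quad_RA (1 - b) h lam |x - z| |y ^ 2 - h ^ 4| |y - z| |x - 2 * y + z|
    (-(y * (x - z) * (x - 2 * y + z) / 2 + (x - z) * ((x - z) ^ 2 + 3 * (x - 2 * y + z) ^ 2) / 24))
    ((1 - b) * (y - z) * (y ^ 2 - h ^ 4)) (-((y - z) ^ 2 * (y + z))) hh hh' hβ (by linarith) h5 hlam
    (abs_nonneg _) (abs_nonneg _) (abs_nonneg _) (abs_nonneg _) hVle hDle hDb hSb ?_ ?_ ?_
  · rw [sq_abs, sq_abs] at key
    have hΔ : LL 1 b (h ^ 4) lam u 1 - LL 1 b (h ^ 4) lam u 0 =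
        -(1 - b) * (x - z) ^ 2 / 4 +
        (-(y * (x - z) * (x - 2 * y + z) / 2 + (x - z) * ((x - z) ^ 2 + 3 * (x - 2 * y + z) ^ 2) / 24)) -
        lam * (y ^ 2 - h ^ 4) ^ 2 + lam * ((1 - b) * (y - z) * (y ^ 2 - h ^ 4)) +
        lam * (-((y - z) ^ 2 * (y + z))) := by
      rw [hid]; ring
    rw [← hΔ] at key
    have r1 : 0 ≤ (1 - b) / 8 * (x - z) ^ 2 := by positivity
    have r2 : 0 ≤ lam / 2 * (y ^ 2 - h ^ 4) ^ 2 := by positivity
    refine ⟨by linarith, fun heq => ?_⟩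
    have z1 : (1 - b) / 8 * (x - z) ^ 2 = 0 := by linarith
    have z2 : lam / 2 * (y ^ 2 - h ^ 4) ^ 2 = 0 := by linarith
    have s0 : x - z = 0 := by
      have : (x - z) ^ 2 = 0 := by
        rcases mul_eq_zero.1 z1 with h | h
        · linarith
        · exact h
      exact pow_eq_zero_iff (two_ne_zero) |>.1 this
    have g0 : y ^ 2 - h ^ 4 = 0 := by
      have : (y ^ 2 - h ^ 4) ^ 2 = 0 := by
        rcases mul_eq_zero.1 z2 with h | h
        · linarith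
        · exact h
      exact pow_eq_zero_iff (two_ne_zero) |>.1 this
    rw [s0, g0, abs_zero, add_zero] at hVle
    have v00 : y - z = 0 := abs_eq_zero.1 (le_antisymm hVle (abs_nonneg _))
    constructor <;> linarith
  · -- the defect
    refine (neg_le_abs _).trans ?_
    refine (abs_add_le _ _).trans ?_
    have e1 : |y * (x - z) * (x - 2 * y + z) / 2| = |y| * (|x - z| * |x - 2 * y + z|) / 2 := by
      rw [abs_div, abs_mul, abs_mul, abs_of_pos (show (0 : ℝ) < 2 by norm_num)]; ring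
    have e2 : |(x - z) * ((x - z) ^ 2 + 3 * (x - 2 * y + z) ^ 2) / 24| =
        |x - z| * (|x - z| * |x - z| + 3 * (|x - 2 * y + z| * |x - 2 * y + z|)) / 24 := by
      rw [abs_div, abs_mul, abs_of_pos (show (0 : ℝ) < 24 by norm_num), abs_mul_abs_self, abs_mul_abs_self,
        abs_of_nonneg (show (0 : ℝ) ≤ (x - z) ^ 2 + 3 * (x - 2 * y + z) ^ 2 by positivity)]
      ring
    rw [e1, e2]
    have e3 : |y| * (|x - z| * |x - 2 * y + z|) ≤ 16 * h ^ 2 * (|x - z| * |x - 2 * y + z|) := by gcongr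
    linarith
  · rw [mul_assoc]
    refine mul_le_mul_of_nonneg_left ?_ hβ.le
    rw [← abs_mul]; exact le_abs_self _
  · refine (neg_le_abs _).trans ?_
    rw [abs_mul, abs_of_nonneg (sq_nonneg (y - z)), abs_mul_abs_self, mul_comm]
    have : (y - z) ^ 2 = (y - z) * (y - z) := sq _
    rw [this]
    exact mul_le_mul_of_nonneg_right hyz (mul_self_nonneg _)

end Helper85.HN

end
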