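import Pool.Agent.Helper85.HN.St

/-! # Project HN, module RB: the Lyapunov inequality, small friction -/

set_option autoImplicit false

namespace Helper85.HN

/-- the final estimate with real numbers -/
private lemma fin_RB {β h b s v g th E R lam U η : ℝ} (hβ0 : 0 < β) (hβh : β ≤ h) (hh : h ≤ 1 / 10 ^ 12)
    (hb : b = 1 - β) (hlam : lam = β / (1000 * h ^ 2)) (hvs : (1 + b) * v = s - g)
    (hR0 : 0 ≤ R) (hR : R ≤ 3 * (|b * v + g| + |g| / h)) (hth : |th| ≤ 4 / 10 ^ 8 * R)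
    (hE : |E| ≤ η * R ^ 2) (hη : η * 3000000 ≤ β) (hU : |U| ≤ 32 * h ^ 2) :
    -β * s ^ 2 / 4 - β * v * th - E - lam * (g ^ 2 - β * v * g + v ^ 2 * U) ≤
      -β * (s ^ 2 / 8 + (g / h) ^ 2 / 2000) := by
  have hh0 : 0 < h := lt_of_lt_of_le hβ0 hβh
  have hh1 : h ≤ 1 := hh.trans (by norm_num)
  set G : ℝ := |g| / h with hG
  have hG0 : 0 ≤ G := by positivity
  have hgG : |g| = h * G := by rw [hG]; field_simp
  have hG2 : G ^ 2 = (g / h) ^ 2 := by rw [hG, div_pow, div_pow, sq_abs]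
  have hb1 : 0 ≤ b := by
    rw [hb]
    have : h ≤ 1 := hh1
    linarith
  have hb2 : b ≤ 1 := by rw [hb]; linarith
  -- `|v| ≤ |s| + h G`
  have hv : |v| ≤ |s| + h * G := by
    have h1 : |(1 + b) * v| = |s - g| := by rw [hvs]
    rw [abs_mul, abs_of_nonneg (by linarith : (0 : ℝ) ≤ 1 + b)] at h1
    have h2 : |v| ≤ (1 + b) * |v| := by nlinarith [abs_nonneg v]
    have h3 : |s - g| ≤ |s| + |g| := abs_sub _ _
    linarith
  have hs0 : 0 ≤ |s| := abs_nonneg s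
  have hv0 : 0 ≤ |v| := abs_nonneg v
  have hss : |s| ^ 2 = s ^ 2 := sq_abs s
  have hvv : |v| ^ 2 = v ^ 2 := sq_abs v
  have hhG : h * G ≤ 1 / 10 ^ 12 * G := by gcongr
  -- `R ≤ 3 |s| + 6 G`
  have hR1 : R ≤ 3 * |s| + 6 * G := by
    have h1 : |b * v + g| ≤ |v| + |g| := by
      calc |b * v + g| ≤ |b * v| + |g| := abs_add_le _ _
        _ = b * |v| + |g| := by rw [abs_mul, abs_of_nonneg hb1]
        _ ≤ |v| + |g| := by nlinarith
    rw [hgG] at h1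
    have h2 : R ≤ 3 * (|b * v + g| + G) := hR
    have h3 : 1 / 10 ^ 12 * G ≤ 1 / 10 * G := by
      apply mul_le_mul_of_nonneg_right _ hG0
      norm_num
    linarith
  have hR2 : R ^ 2 ≤ 18 * s ^ 2 + 72 * G ^ 2 := by
    have h1 : R ^ 2 ≤ (3 * |s| + 6 * G) ^ 2 := pow_le_pow_left₀ hR0 hR1 2
    nlinarith [sq_nonneg (3 * |s| - 6 * G)]
  -- `v² ≤ 2 s² + G²/1000`
  have hv2 : v ^ 2 ≤ 2 * s ^ 2 + 1 / 10 ^ 6 * G ^ 2 := by
    have h1 : |v| ^ 2 ≤ (|s| + h * G) ^ 2 := pow_le_pow_left₀ hv0 hv 2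
    have h2 : (h * G) ^ 2 ≤ (1 / 10 ^ 12 * G) ^ 2 := pow_le_pow_left₀ (by positivity) hhG 2
    rw [hvv] at h1
    have h3 : (1 / 10 ^ 12 * G) ^ 2 ≤ 1 / 10 ^ 7 * G ^ 2 := by
      rw [mul_pow]
      apply mul_le_mul_of_nonneg_right _ (sq_nonneg G)
      norm_num
    nlinarith [sq_nonneg (|s| - h * G), sq_nonneg G]
  -- the terms
  have t1 : |β * v * th| ≤ β * (4 / 10 ^ 8 * (10 * s ^ 2 + 37 * G ^ 2)) := by
    rw [abs_mul, abs_mul, abs_of_pos hβ0, mul_assoc]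
    apply mul_le_mul_of_nonneg_left _ hβ0.le
    calc |v| * |th| ≤ |v| * (4 / 10 ^ 8 * R) := by gcongr
      _ = 4 / 10 ^ 8 * (|v| * R) := by ring
      _ ≤ 4 / 10 ^ 8 * (10 * s ^ 2 + 37 * G ^ 2) := by
          apply mul_le_mul_of_nonneg_left _ (by norm_num)
          have h1 : |v| * R ≤ (|v| ^ 2 + R ^ 2) / 2 := by nlinarith [sq_nonneg (|v| - R)]
          rw [hvv] at h1
          have h4 : 1 / 10 ^ 6 * G ^ 2 ≤ 1 * G ^ 2 := by
            apply mul_le_mul_of_nonneg_right _ (sq_nonneg G)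
            norm_num
          linarith
  have t2 : |E| ≤ β * (1 / 3000000 * (18 * s ^ 2 + 72 * G ^ 2)) := by
    have h1 : η ≤ β / 3000000 := by rw [le_div_iff₀ (by norm_num)]; exact hη
    calc |E| ≤ η * R ^ 2 := hE
      _ ≤ β / 3000000 * R ^ 2 := by gcongr
      _ ≤ β / 3000000 * (18 * s ^ 2 + 72 * G ^ 2) := by gcongr
      _ = _ := by ring
  have t3 : lam * g ^ 2 = β * (G ^ 2 / 1000) := by
    rw [hlam, hG2]
    field_simp
  have t4 : |lam * (β * v * g)| ≤ β * (1 / 1000 * (v ^ 2 + G ^ 2 / 4)) := by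
    have e : |lam * (β * v * g)| = β * (1 / 1000 * (β / h * (|v| * G))) := by
      rw [hlam, abs_mul, abs_mul, abs_mul, abs_of_pos (by positivity), abs_of_pos hβ0, hgG]
      field_simp
    rw [e]
    apply mul_le_mul_of_nonneg_left _ hβ0.le
    apply mul_le_mul_of_nonneg_left _ (by norm_num)
    have h1 : β / h ≤ 1 := by rw [div_le_one hh0]; exact hβh
    calc β / h * (|v| * G) ≤ 1 * (|v| * G) := by gcongr
      _ ≤ v ^ 2 + G ^ 2 / 4 := by
          rw [← hvv]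
          nlinarith [sq_nonneg (|v| - G / 2)]
  have t5 : |lam * (v ^ 2 * U)| ≤ β * (32 / 1000 * v ^ 2) := by
    rw [hlam, abs_mul, abs_mul, abs_of_pos (by positivity), abs_of_nonneg (sq_nonneg v)]
    calc β / (1000 * h ^ 2) * (v ^ 2 * |U|) ≤ β / (1000 * h ^ 2) * (v ^ 2 * (32 * h ^ 2)) := by gcongr
      _ = β * (32 / 1000 * v ^ 2) := by field_simp
  have hv2' : β * v ^ 2 ≤ β * (2 * s ^ 2 + 1 / 10 ^ 6 * G ^ 2) := mul_le_mul_of_nonneg_left hv2 hβ0.le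
  have a1 := neg_abs_le (β * v * th)
  have a2 := neg_abs_le E
  have a4 := le_abs_self (lam * (β * v * g))
  have a5 := neg_abs_le (lam * (v ^ 2 * U))
  have hbs : 0 ≤ β * s ^ 2 := by positivity
  have hbG : 0 ≤ β * G ^ 2 := by positivity
  rw [← hG2]
  have e1 : -β * s ^ 2 / 4 - β * v * th - E - lam * (g ^ 2 - β * v * g + v ^ 2 * U) =
      -(β * s ^ 2) / 4 - β * v * th - E - lam * g ^ 2 + lam * (β * v * g) - lam * (v ^ 2 * U) := by ring
  rw [e1, t3]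
  have e2 : -β * (s ^ 2 / 8 + G ^ 2 / 2000) = -(β * s ^ 2) / 8 - (β * G ^ 2) / 2000 := by ring
  rw [e2]
  have e3 : β * (4 / 10 ^ 8 * (10 * s ^ 2 + 37 * G ^ 2)) = 4 / 10 ^ 7 * (β * s ^ 2) + 148 / 10 ^ 8 * (β * G ^ 2) := by
    ring
  have e4 : β * (1 / 3000000 * (18 * s ^ 2 + 72 * G ^ 2)) =
      18 / 3000000 * (β * s ^ 2) + 72 / 3000000 * (β * G ^ 2) := by ring
  have e5 : β * (1 / 1000 * (v ^ 2 + G ^ 2 / 4)) = 1 / 1000 * (β * v ^ 2) + 1 / 4000 * (β * G ^ 2) := by ring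
  have e6 : β * (32 / 1000 * v ^ 2) = 32 / 1000 * (β * v ^ 2) := by ring
  have e7 : β * (2 * s ^ 2 + 1 / 10 ^ 6 * G ^ 2) = 2 * (β * s ^ 2) + 1 / 10 ^ 6 * (β * G ^ 2) := by ring
  have e8 : β * (G ^ 2 / 1000) = 1 / 1000 * (β * G ^ 2) := by ring
  rw [e3] at t1
  rw [e4] at t2
  rw [e5] at t4
  rw [e6] at t5
  rw [e7] at hv2'
  rw [e8]
  linarith

theorem hRB (h1 : StVel) (h2 : StLo) (h3 : StGl) (h4 : StSSg) (h5 : StLoc) (h6 : StTh) (h7 : StErr)
    (h8 : StId) : StRB := by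
  intro b h u l hh0 hh hb1 hb2 hl hlh hη hU hBd
  have hh100 : h ≤ 1 / 100 := hh.trans (by norm_num)
  have hbhalf : 1 / 2 ≤ b := by
    have : h ≤ 1 / 2 := hh.trans (by norm_num)
    linarith
  have hVel := h1 b h u hbhalf hb2.le hh0 hh100 hU hBd
  have hLo := h2 b h u hbhalf hb2.le hh0 hh100 hU hBd
  have habs : ∀ n, |u n| ≤ 16 * h ^ 2 := by
    intro n
    rw [abs_le]
    have h9 : 0 ≤ h ^ 2 := sq_nonneg h
    exact ⟨(hLo n).2, by linarith [(hLo n).1]⟩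
  have hGl := h3 b h u hb1 hb2.le hh0 hh100 hU habs hVel
  have hS := h4 b h u hb1 hb2.le hh0 hh100 hU habs
  have hg256 : ∀ n, |u n ^ 2 - h ^ 4| ≤ 256 * h ^ 4 := by
    intro n
    have h9 : (u n) ^ 2 ≤ (16 * h ^ 2) ^ 2 := by
      rw [← sq_abs]
      exact pow_le_pow_left₀ (abs_nonneg _) (habs n) 2
    have h10 : 0 ≤ (u n) ^ 2 := sq_nonneg _
    have h11 : 0 ≤ h ^ 4 := by positivity
    rw [abs_le]
    constructor <;> nlinarith
  have hSS1 : SS h u 1 = |u 1 - u 0| + |u 0 ^ 2 - h ^ 4| / h := by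
    simp [SS]
  set R : ℝ := 3 * SS h u 1 with hR
  have hR0 : 0 ≤ R := by
    rw [hR, hSS1]
    positivity
  have hR1300 : R ≤ 1300 * h ^ 3 := by
    rw [hR, hSS1]
    have a1 := hVel 1
    norm_num at a1
    have a2 : |u 0 ^ 2 - h ^ 4| / h ≤ 256 * h ^ 3 := by
      rw [div_le_iff₀ hh0]
      calc |u 0 ^ 2 - h ^ 4| ≤ 256 * h ^ 4 := hg256 0
        _ = 256 * h ^ 3 * h := by ring
    have a3 : 0 ≤ h ^ 3 := by positivity
    linarith
  have hk : (3 * l : ℝ) * h ≤ 1 / 200 := by linarith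
  have hSi : ∀ i : ℤ, -((3 * l : ℕ) : ℤ) ≤ i → i ≤ ((3 * l : ℕ) : ℤ) →
      |u (i + 1) - u i| + |u i ^ 2 - h ^ 4| / h ≤ R := by
    intro i hi1 hi2
    have habi : |(i : ℝ)| ≤ 3 * l := by
      rw [abs_le]
      constructor
      · have : -(3 * (l : ℤ)) ≤ i := by push_cast at hi1; exact hi1
        exact_mod_cast this
      · have : i ≤ 3 * (l : ℤ) := by push_cast at hi2; exact hi2
        exact_mod_cast this
    have h9 : 36 * h * |(i : ℝ)| ≤ 1 := by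
      calc 36 * h * |(i : ℝ)| ≤ 36 * h * (3 * l) := by gcongr
        _ = 36 * ((3 * l : ℝ) * h) := by ring
        _ ≤ 1 := by linarith
    have h10 := hS 1 i h9
    have e : SS h u (1 + i) = |u (i + 1) - u i| + |u i ^ 2 - h ^ 4| / h := by
      simp only [SS]
      rw [add_sub_cancel_left, add_comm 1 i]
    rw [e] at h10
    exact h10
  have hloc := h5 b h R u (-((3 * l : ℕ) : ℤ)) ((3 * l : ℕ) : ℤ) hb1 hb2.le hh0 hh100 hU hGl
    (fun i hi1 hi2 => by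
      have h9 := hSi i hi1 (by linarith)
      have h10 : 0 ≤ |u i ^ 2 - h ^ 4| / h := by positivity
      linarith)
    (fun i hi1 hi2 => by
      have h9 := hSi i hi1 hi2
      have h10 : 0 ≤ |u (i + 1) - u i| := abs_nonneg _
      have h11 : |u i ^ 2 - h ^ 4| / h ≤ R := by linarith
      rw [div_le_iff₀ hh0] at h11
      linarith)
  have hTh := h6 (3 * l) u 0 (200 * h ^ 2 * R) (10 ^ 5) (by omega) (by positivity) (by norm_num)
    (fun i hi1 hi2 => by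
      have h9 := hloc 3 i (by norm_num) (by simpa using hi1) (by simpa using hi2)
      have e : R * ((3 - 1).factorial : ℝ) * (10 * h) ^ (3 - 1) = 200 * h ^ 2 * R := by
        norm_num [Nat.factorial]
        ring
      rw [e] at h9
      exact h9)
  have hErr := h7 l u 0 R h hl hR0 hh0 hR1300 (by linarith) (habs 0)
    (fun m i hm hi1 hi2 => hloc m i hm (by simpa using hi1) (by simpa using hi2))
  have hId := h8 (3 * l) b (h ^ 4) ((1 - b) / (1000 * h ^ 2)) u 0 hU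
  simp only [zero_add, zero_sub] at hTh hId
  have hU0 := hU 0
  simp only [zero_add, zero_sub] at hU0
  have hth : |DD (3 * l) u 0 - (u 1 - u (-1)) / 2| ≤ 4 / 10 ^ 8 * R := by
    refine hTh.trans ?_
    have hl0 : (0 : ℝ) ≤ 3 * l := by positivity
    have k1 : (3 * l : ℝ) * h ^ 2 ≤ 1 / 200 * (1 / 10 ^ 12) := by
      calc (3 * l : ℝ) * h ^ 2 = ((3 * l : ℝ) * h) * h := by ring
        _ ≤ 1 / 200 * (1 / 10 ^ 12) := by gcongr
    have k2 : (3 * l : ℝ) ^ 2 * h ^ 2 ≤ (1 / 200) ^ 2 := by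
      calc (3 * l : ℝ) ^ 2 * h ^ 2 = ((3 * l : ℝ) * h) ^ 2 := by ring
        _ ≤ (1 / 200) ^ 2 := by gcongr
    have e : 200 * h ^ 2 * R * ((10 ^ 5 * ((3 * l : ℕ) : ℝ) + ((3 * l : ℕ) : ℝ) ^ 2 / 10 ^ 5) / 4) =
        (50 * (10 ^ 5 * ((3 * l : ℝ) * h ^ 2) + ((3 * l : ℝ) ^ 2 * h ^ 2) / 10 ^ 5)) * R := by
      push_cast
      ring
    rw [e]
    apply mul_le_mul_of_nonneg_right _ hR0
    calc 50 * (10 ^ 5 * ((3 * l : ℝ) * h ^ 2) + ((3 * l : ℝ) ^ 2 * h ^ 2) / 10 ^ 5)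
        ≤ 50 * (10 ^ 5 * (1 / 200 * (1 / 10 ^ 12)) + ((1 / 200) ^ 2) / 10 ^ 5) := by gcongr
      _ ≤ 4 / 10 ^ 8 := by norm_num
  set β : ℝ := 1 - b with hβ
  have hβ0 : 0 < β := by rw [hβ]; linarith
  have hβh : β ≤ h := by rw [hβ]; linarith
  set s : ℝ := u 1 - u (-1) with hs
  set v : ℝ := u 0 - u (-1) with hv
  set g : ℝ := u 0 ^ 2 - h ^ 4 with hg
  have hvs : (1 + b) * v = s - g := by
    rw [hs, hv, hg]
    linarith
  have hbv : b * v + g = u 1 - u 0 := by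
    rw [hv, hg]
    linarith
  have hfin := fin_RB (β := β) (h := h) (b := b) (s := s) (v := v) (g := g)
    (th := DD (3 * l) u 0 - s / 2) (E := EE (3 * l) u 0) (R := R)
    (lam := β / (1000 * h ^ 2)) (U := u 0 + u (-1)) (η := 9 * l * (1 / 10) ^ (2 * l)) hβ0 hβh hh
    (by rw [hβ]; ring) rfl hvs hR0 (by rw [hbv, hR, hSS1]) hth hErr hη
    (by
      calc |u 0 + u (-1)| ≤ |u 0| + |u (-1)| := abs_add_le _ _
        _ ≤ 32 * h ^ 2 := by linarith [habs 0, habs (-1)])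
  have hdiff : LL (3 * l) b (h ^ 4) (β / (1000 * h ^ 2)) u 1 -
      LL (3 * l) b (h ^ 4) (β / (1000 * h ^ 2)) u 0 ≤ -β * (s ^ 2 / 8 + (g / h) ^ 2 / 2000) := by
    rw [hId]
    exact hfin
  have hnn : 0 ≤ β * (s ^ 2 / 8 + (g / h) ^ 2 / 2000) := by positivity
  refine ⟨by linarith, fun heq => ?_⟩
  have hz : β * (s ^ 2 / 8 + (g / h) ^ 2 / 2000) = 0 := by
    have : -β * (s ^ 2 / 8 + (g / h) ^ 2 / 2000) = -(β * (s ^ 2 / 8 + (g / h) ^ 2 / 2000)) := by ring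
    rw [this] at hdiff
    linarith
  have hz2 : s ^ 2 / 8 + (g / h) ^ 2 / 2000 = 0 := by
    rcases mul_eq_zero.mp hz with h9 | h9
    · exact absurd h9 hβ0.ne'
    · exact h9
  have hs2 : s ^ 2 = 0 := by
    have a1 := sq_nonneg s
    have a2 := sq_nonneg (g / h)
    linarith
  have hg2 : (g / h) ^ 2 = 0 := by
    have a1 := sq_nonneg s
    have a2 := sq_nonneg (g / h)
    linarith
  have hs3 : s = 0 := pow_eq_zero_iff (by norm_num) |>.mp hs2
  have hg3 : g = 0 := by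
    have h9 : g / h = 0 := pow_eq_zero_iff (by norm_num) |>.mp hg2
    rcases div_eq_zero_iff.mp h9 with h10 | h10
    · exact h10
    · exact absurd h10 hh0.ne'
  rw [hs3, hg3, sub_zero] at hvs
  have hv3 : v = 0 := by
    rcases mul_eq_zero.mp hvs with h9 | h9
    · exact absurd h9 (by linarith)
    · exact h9
  rw [hv3, hg3] at hbv
  constructor
  · linarith
  · linarith

end Helper85.HN
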