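import Pool.Agent.Helper85.HN.St

/-! MP_b39980_an, project HN, module SSg: slow variation of the local size. -/

set_option autoImplicit false

namespace Helper85.HN

private lemma nonneg_SSg {h : ℝ} (hh : 0 < h) (u : ℤ → ℝ) (n : ℤ) : 0 ≤ SS h u n := by
  unfold SS; positivity

/-- the core inequalities for one step: `a, a'` are the absolute values of `v i, v (i+1)`, `p, q` those of `g (i-1), g i` -/
private lemma step_SSg {b h a a' p q : ℝ} (hb : 1 - h ≤ b) (hb1 : b ≤ 1) (hh : 0 < h) (hh1 : h ≤ 1 / 100)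
    (ha : 0 ≤ a) (ha' : 0 ≤ a') (hp : 0 ≤ p) (hq : 0 ≤ q)
    (h1 : a' ≤ b * a + q) (h2 : b * a ≤ a' + q) (h3 : q ≤ p + a * (32 * h ^ 2)) (h4 : p ≤ q + a * (32 * h ^ 2)) :
    a' + q / h ≤ (1 + 36 * h) * (a + p / h) ∧ a + p / h ≤ (1 + 36 * h) * (a' + q / h) := by
  have hb0 : 0 < b := by linarith
  constructor
  · have e1 : a' ≤ a + q := by nlinarith
    have e2 : q / h ≤ p / h + a * (32 * h) := by
      rw [div_le_iff₀ hh]
      have : (p / h + a * (32 * h)) * h = p + a * (32 * h ^ 2) := by field_simp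
      linarith
    have e3 : q ≤ h * (p / h) + a * (32 * h ^ 2) := by
      have : h * (p / h) = p := by field_simp
      linarith
    have hP : 0 ≤ p / h := by positivity
    generalize p / h = P at *
    generalize q / h = Q at *
    have e4 : a * h ^ 2 ≤ a * h * (1 / 100) := by nlinarith [mul_nonneg ha hh.le]
    have e5 : 0 ≤ P * h := mul_nonneg hP hh.le
    have e6 : 0 ≤ a * h := mul_nonneg ha hh.le
    nlinarith
  · have e1 : a ≤ (1 + 2 * h) * (a' + q) := by
      have k1 : 1 ≤ (1 + 2 * h) * b := by nlinarith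
      have k2 : a ≤ (1 + 2 * h) * (b * a) := by nlinarith
      nlinarith
    have e2 : p / h ≤ q / h + a * (32 * h) := by
      rw [div_le_iff₀ hh]
      have : (q / h + a * (32 * h)) * h = q + a * (32 * h ^ 2) := by field_simp
      linarith
    have e3 : q = h * (q / h) := by field_simp
    have hQ : 0 ≤ q / h := by positivity
    generalize p / h = P at *
    generalize q / h = Q at *
    subst e3
    have e4 : a + P ≤ (1 + 32 * h) * ((1 + 2 * h) * (a' + h * Q)) + Q := by nlinarith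
    have e5 : 0 ≤ a' * h := mul_nonneg ha' hh.le
    have e6 : 0 ≤ Q * h := mul_nonneg hQ hh.le
    have e7 : a' * h * h ≤ a' * h * (1 / 100) := mul_le_mul_of_nonneg_left hh1 e5
    have e8 : Q * h * h ≤ Q * h * (1 / 100) := mul_le_mul_of_nonneg_left hh1 e6
    have e9 : Q * h * h * h ≤ Q * h * h * (1 / 100) := mul_le_mul_of_nonneg_left hh1 (mul_nonneg e6 hh.le)
    nlinarith

private lemma one_SSg {b h : ℝ} {u : ℤ → ℝ} (hb : 1 - h ≤ b) (hb1 : b ≤ 1) (hh : 0 < h) (hh1 : h ≤ 1 / 100)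
    (hu : Uo b (h ^ 4) u) (hB : ∀ n, |u n| ≤ 16 * h ^ 2) (i : ℤ) :
    SS h u (i + 1) ≤ (1 + 36 * h) * SS h u i ∧ SS h u i ≤ (1 + 36 * h) * SS h u (i + 1) := by
  unfold SS
  have hb0 : 0 < b := by linarith
  have e := hu i
  have e1 : i + 1 - 1 = i := by ring
  rw [e1]
  have hg : u i ^ 2 - h ^ 4 = (u (i - 1) ^ 2 - h ^ 4) + (u i - u (i - 1)) * (u i + u (i - 1)) := by ring
  have hs : |u i + u (i - 1)| ≤ 32 * h ^ 2 := by
    refine (abs_add_le _ _).trans ?_
    linarith [hB i, hB (i - 1)]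
  have hvs : |(u i - u (i - 1)) * (u i + u (i - 1))| ≤ |u i - u (i - 1)| * (32 * h ^ 2) := by
    rw [abs_mul]; exact mul_le_mul_of_nonneg_left hs (abs_nonneg _)
  refine step_SSg hb hb1 hh hh1 (abs_nonneg _) (abs_nonneg _) (abs_nonneg _) (abs_nonneg _) ?_ ?_ ?_ ?_
  · rw [e]
    refine (abs_add_le _ _).trans ?_
    rw [abs_mul, abs_of_pos hb0]
  · have : b * (u i - u (i - 1)) = (u (i + 1) - u i) - (u i ^ 2 - h ^ 4) := by linarith
    have h2 : b * |u i - u (i - 1)| = |b * (u i - u (i - 1))| := by rw [abs_mul, abs_of_pos hb0]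
    rw [h2, this]
    exact abs_sub _ _
  · rw [hg]
    exact (abs_add_le _ _).trans (by linarith)
  · have : u (i - 1) ^ 2 - h ^ 4 = (u i ^ 2 - h ^ 4) - (u i - u (i - 1)) * (u i + u (i - 1)) := by ring
    rw [this]
    exact (abs_sub _ _).trans (by linarith)

private lemma iter_SSg {b h : ℝ} {u : ℤ → ℝ} (hb : 1 - h ≤ b) (hb1 : b ≤ 1) (hh : 0 < h) (hh1 : h ≤ 1 / 100)
    (hu : Uo b (h ^ 4) u) (hB : ∀ n, |u n| ≤ 16 * h ^ 2) (n : ℤ) (m : ℕ) :
    SS h u (n + m) ≤ (1 + 36 * h) ^ m * SS h u n ∧ SS h u (n - m) ≤ (1 + 36 * h) ^ m * SS h u n := by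
  have hc : 0 ≤ 1 + 36 * h := by linarith
  induction m with
  | zero => simp
  | succ m ih =>
    constructor
    · have h1 := (one_SSg hb hb1 hh hh1 hu hB (n + m)).1
      have e1 : n + ((m + 1 : ℕ) : ℤ) = n + m + 1 := by push_cast; ring
      rw [e1, pow_succ']
      calc SS h u (n + m + 1) ≤ (1 + 36 * h) * SS h u (n + m) := h1
        _ ≤ (1 + 36 * h) * ((1 + 36 * h) ^ m * SS h u n) := mul_le_mul_of_nonneg_left ih.1 hc
        _ = _ := by ring
    · have h1 := (one_SSg hb hb1 hh hh1 hu hB (n - m - 1)).2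
      have e1 : n - ((m + 1 : ℕ) : ℤ) = n - m - 1 := by push_cast; ring
      have e2 : n - (m : ℤ) - 1 + 1 = n - m := by ring
      rw [e2] at h1
      rw [e1, pow_succ']
      calc SS h u (n - m - 1) ≤ (1 + 36 * h) * SS h u (n - m) := h1
        _ ≤ (1 + 36 * h) * ((1 + 36 * h) ^ m * SS h u n) := mul_le_mul_of_nonneg_left ih.2 hc
        _ = _ := by ring

theorem hSSg : StSSg := by
  intro b h u hb hb1 hh hh1 hu hB n j hj
  have hS := nonneg_SSg hh u n
  obtain ⟨m, hm⟩ : ∃ m : ℕ, (m : ℤ) = |j| := ⟨j.natAbs, by simp⟩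
  have hmr : (m : ℝ) = |(j : ℝ)| := by
    rw [← Int.cast_abs, ← hm]; simp
  have hpow : (1 + 36 * h) ^ m ≤ 3 := by
    have h1 : 1 + 36 * h ≤ Real.exp (36 * h) := by
      have := Real.add_one_le_exp (36 * h)
      linarith
    have h2 : (1 + 36 * h) ^ m ≤ Real.exp (36 * h) ^ m := pow_le_pow_left₀ (by linarith) h1 m
    have h3 : Real.exp (36 * h) ^ m ≤ Real.exp 1 := by
      rw [← Real.exp_nat_mul]
      apply Real.exp_le_exp.2
      rw [hmr]; linarith
    have h4 : Real.exp 1 ≤ 3 := by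
      have := Real.exp_one_lt_d9
      linarith
    linarith
  have key := iter_SSg hb hb1 hh hh1 hu hB n m
  have hfin : SS h u (n + j) ≤ (1 + 36 * h) ^ m * SS h u n := by
    rcases abs_choice j with h1 | h1
    · have : j = m := by rw [hm, h1]
      rw [this]; exact key.1
    · have : j = -(m : ℤ) := by rw [hm, h1]; ring
      rw [this, ← sub_eq_add_neg]; exact key.2
  exact hfin.trans (mul_le_mul_of_nonneg_right hpow hS)

end Helper85.HN
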