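import Pool.Agent.Helper85.HN.St

/-! Project HN, module Sma: near the parabola bounded orbits are small. -/

set_option autoImplicit false

open Set Filter Topology

noncomputable section

namespace Helper85.HN

theorem hSma (h1 : StKc) (h2 : StZer) (h3 : StCvt) : StSma := by
  intro b0 ρ hρ
  by_contra hcon
  push Not at hcon
  have hd : ∀ m : ℕ, (0 : ℝ) < 1 / ((m : ℝ) + 1) := fun m => by positivity
  choose b c hb hc x hx hB n hn using fun m : ℕ => hcon (1 / ((m : ℝ) + 1)) (hd m)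
  let y : ℕ → ℤ → ℝ := fun m i => x m (i + n m)
  have hy : ∀ m, Orb (b m) (c m) (y m) := by
    intro m i
    have h := hx m (i + n m)
    have e1 : i + n m + 1 = i + 1 + n m := by ring
    have e2 : i + n m - 1 = i - 1 + n m := by ring
    rw [e1, e2] at h
    exact h
  have hyB : ∀ m, Bd (y m) := by
    intro m
    obtain ⟨M, hM⟩ := hB m
    exact ⟨M, fun i => hM _⟩
  have hle1 : ∀ m : ℕ, 1 / ((m : ℝ) + 1) ≤ 1 := by
    intro m
    rw [div_le_one (by positivity)]
    have : (0 : ℝ) ≤ m := Nat.cast_nonneg m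
    linarith
  let R : ℝ := 2 + (|b0| + 1) + (|(1 + b0) ^ 2 / 4| + 1)
  have hyR : ∀ m i, |y m i| ≤ R := by
    intro m i
    have h := (h1 (b m) (c m)).1 (y m) (hy m) (hyB m) i
    have hb' : |b m| ≤ |b0| + 1 := by
      have := abs_sub_abs_le_abs_sub (b m) b0
      have := hb m
      have := hle1 m
      linarith
    have hc' : |c m| ≤ |(1 + b0) ^ 2 / 4| + 1 := by
      have := abs_sub_abs_le_abs_sub (c m) ((1 + b0) ^ 2 / 4)
      have := hc m
      have := hle1 m
      linarith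
    show |y m i| ≤ 2 + (|b0| + 1) + (|(1 + b0) ^ 2 / 4| + 1)
    linarith
  have hcomp : IsCompact (Set.pi (Set.univ : Set ℤ) (fun _ => Set.Icc (-R) R)) :=
    isCompact_univ_pi (fun _ => isCompact_Icc)
  obtain ⟨z, -, φ, hφ, hz⟩ := hcomp.tendsto_subseq (x := y)
    (fun m i _ => abs_le.mp (hyR m i))
  have hz' : ∀ i : ℤ, Tendsto (fun k => y (φ k) i) atTop (𝓝 (z i)) := fun i =>
    (tendsto_pi_nhds.mp hz) i
  have hzero : Tendsto (fun m : ℕ => 1 / ((m : ℝ) + 1)) atTop (𝓝 0) :=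
    tendsto_one_div_add_atTop_nhds_zero_nat
  have hbt : Tendsto b atTop (𝓝 b0) := by
    rw [tendsto_iff_dist_tendsto_zero]
    refine squeeze_zero (fun _ => dist_nonneg) (fun m => ?_) hzero
    rw [Real.dist_eq]
    exact (hb m).le
  have hct : Tendsto c atTop (𝓝 ((1 + b0) ^ 2 / 4)) := by
    rw [tendsto_iff_dist_tendsto_zero]
    refine squeeze_zero (fun _ => dist_nonneg) (fun m => ?_) hzero
    rw [Real.dist_eq]
    exact (hc m).le
  have hbt' := hbt.comp hφ.tendsto_atTop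
  have hct' := hct.comp hφ.tendsto_atTop
  have hzO : Orb b0 ((1 + b0) ^ 2 / 4) z := by
    intro i
    have hlim : Tendsto (fun k => (y (φ k) i) ^ 2 + c (φ k) - b (φ k) * y (φ k) (i - 1)) atTop
        (𝓝 ((z i) ^ 2 + (1 + b0) ^ 2 / 4 - b0 * z (i - 1))) :=
      (((hz' i).pow 2).add hct').sub (hbt'.mul (hz' (i - 1)))
    have hlim2 : Tendsto (fun k => (y (φ k) i) ^ 2 + c (φ k) - b (φ k) * y (φ k) (i - 1)) atTop
        (𝓝 (z (i + 1))) := by
      refine (hz' (i + 1)).congr (fun k => ?_)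
      exact hy (φ k) i
    exact tendsto_nhds_unique hlim2 hlim
  have hzB : Bd z := by
    refine ⟨R, fun i => ?_⟩
    exact le_of_tendsto (hz' i).abs (Eventually.of_forall (fun k => hyR (φ k) i))
  have hzr : ρ ≤ |z 0 - (1 + b0) / 2| := by
    refine ge_of_tendsto ((hz' 0).sub_const ((1 + b0) / 2)).abs (Eventually.of_forall (fun k => ?_))
    have h := (hn (φ k)).le
    show ρ ≤ |x (φ k) (0 + n (φ k)) - (1 + b0) / 2|
    rw [zero_add]
    exact h
  have hU := (h3.1 b0 ((1 + b0) ^ 2 / 4) z).mp hzO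
  rw [sub_self] at hU
  have hUB : Bd (fun i => z i - (1 + b0) / 2) := by
    obtain ⟨M, hM⟩ := hzB
    refine ⟨M + |(1 + b0) / 2|, fun i => ?_⟩
    have := abs_sub (z i) ((1 + b0) / 2)
    have := hM i
    linarith
  have h0 := (h2 b0 0 _ le_rfl hU hUB).2 0
  have h0' : z 0 - (1 + b0) / 2 = 0 := h0
  rw [h0', abs_zero] at hzr
  linarith

end Helper85.HN

end
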