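import Pool.Agent.Helper85.HN.St

/-! Project HN, module Sym: the symmetry of the inverse map. -/

set_option autoImplicit false

open Set Filter Topology

noncomputable section

namespace Helper85.HN

private lemma maps_Sym (b c : ℝ) (p : ℝ × ℝ) (hp : p ∈ KK b c) : hen b c p ∈ KK b c := by
  obtain ⟨x, hx, ⟨M, hM⟩, h0, h1⟩ := hp
  refine ⟨fun n => x (n + 1), ?_, ⟨M, fun n => hM _⟩, ?_, ?_⟩
  · intro n
    have h := hx (n + 1)
    have e : n + 1 - 1 = n - 1 + 1 := by ring
    rw [e] at h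
    exact h
  · have h := hx 0
    rw [zero_sub, h0, h1] at h
    exact h
  · show x (-1 + 1) = p.1
    rw [← h0]
    norm_num

private lemma inv_Sym (b c : ℝ) (hb : b ≠ 0) (p : ℝ × ℝ) (hp : p ∈ KK b c) :
    (p.2 / b, p.1 / b) ∈ KK (1 / b) (c / b ^ 2) := by
  obtain ⟨x, hx, ⟨M, hM⟩, h0, h1⟩ := hp
  refine ⟨fun n => x (-n - 1) / b, ?_, ⟨M / |b|, fun n => ?_⟩, ?_, ?_⟩
  · intro n
    have h := hx (-n - 1)
    have e1 : -n - 1 + 1 = -(n - 1) - 1 := by ring
    have e2 : -n - 1 - 1 = -(n + 1) - 1 := by ring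
    rw [e1, e2] at h
    show x (-(n + 1) - 1) / b = (x (-n - 1) / b) ^ 2 + c / b ^ 2 - 1 / b * (x (-(n - 1) - 1) / b)
    rw [h]
    field_simp
    ring
  · rw [abs_div]
    exact div_le_div_of_nonneg_right (hM _) (abs_nonneg b)
  · show x (-0 - 1) / b = p.2 / b
    rw [← h1]
    norm_num
  · show x (- -1 - 1) / b = p.1 / b
    rw [← h0]
    norm_num

theorem hSym : StSym := by
  intro b c hb hL
  obtain ⟨L, hc, hle, heq⟩ := hL
  have hid : ∀ p : ℝ × ℝ, hen (1 / b) (c / b ^ 2) ((hen b c p).2 / b, (hen b c p).1 / b) =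
      (p.2 / b, p.1 / b) := by
    intro p
    unfold hen
    ext
    · show (p.1 / b) ^ 2 + c / b ^ 2 - 1 / b * ((p.1 ^ 2 + c - b * p.2) / b) = p.2 / b
      field_simp
      ring
    · rfl
  refine ⟨fun p => - L (p.2 / b, p.1 / b), ?_, ?_, ?_⟩
  · refine (hc.comp ?_).neg
    exact (continuous_snd.div_const b).prodMk (continuous_fst.div_const b)
  · intro p hp
    have h := hle _ (inv_Sym b c hb _ (maps_Sym b c p hp))
    rw [hid p] at h
    exact neg_le_neg h
  · intro p hp h
    have h' := heq _ (inv_Sym b c hb _ (maps_Sym b c p hp))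
    rw [hid p] at h'
    have h2 := h' (neg_injective h).symm
    have e1 : p.2 / b = (hen b c p).2 / b := congrArg Prod.fst h2
    have e2 : p.1 / b = (hen b c p).1 / b := congrArg Prod.snd h2
    have f1 : p.2 = (hen b c p).2 := by
      have := congrArg (fun t => t * b) e1
      simpa [div_mul_cancel₀ _ hb] using this
    have f2 : p.1 = (hen b c p).1 := by
      have := congrArg (fun t => t * b) e2
      simpa [div_mul_cancel₀ _ hb] using this
    exact (Prod.ext f2 f1).symm

end Helper85.HN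

end
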