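import Pool.Agent.Helper85.HN.St

/-! # Project HN (MP_b39980), module `Th`: `DD k` against the symmetric difference -/

set_option autoImplicit false

namespace Helper85.HN

open Finset

private lemma third_Th (T : ℝ) (k : ℕ) (r : ℤ → ℝ) (hm : r (-1) = 0) (h0 : r 0 = 0) (h1 : r 1 = 0)
    (h : ∀ j : ℕ, j + 2 ≤ k → |r ((j : ℤ) + 2) - 3 * r ((j : ℤ) + 1) + 3 * r (j : ℤ) - r ((j : ℤ) - 1)| ≤ T) :
    ∀ j : ℕ, j + 1 ≤ k → |r ((j : ℤ) + 1)| ≤ T * (j * (j + 1) * (j + 2) / 6) ∧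
      |r ((j : ℤ) + 1) - r (j : ℤ)| ≤ T * (j * (j + 1) / 2) ∧
      |r ((j : ℤ) + 1) - 2 * r (j : ℤ) + r ((j : ℤ) - 1)| ≤ T * j := by
  intro j
  induction j with
  | zero =>
    intro _
    refine ⟨?_, ?_, ?_⟩ <;> simp [hm, h0, h1]
  | succ j ih =>
    intro hj
    obtain ⟨ha, hb, hc⟩ := ih (by omega)
    have hd := h j (by omega)
    have e1 : (((j + 1 : ℕ) : ℤ)) = (j : ℤ) + 1 := by push_cast; ring
    have e2 : (j : ℤ) + 1 + 1 = (j : ℤ) + 2 := by ring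
    have e3 : (j : ℤ) + 1 - 1 = (j : ℤ) := by ring
    rw [e1, e2, e3]
    push_cast
    set x2 := r ((j : ℤ) + 2)
    set x1 := r ((j : ℤ) + 1)
    set x0 := r (j : ℤ)
    set xm := r ((j : ℤ) - 1)
    have k3 : |x2 - 2 * x1 + x0| ≤ T * ((j : ℝ) + 1) := by
      have : x2 - 2 * x1 + x0 = (x2 - 3 * x1 + 3 * x0 - xm) + (x1 - 2 * x0 + xm) := by ring
      rw [this]
      refine (abs_add_le _ _).trans ?_
      linarith
    have k2 : |x2 - x1| ≤ T * (((j : ℝ) + 1) * ((j : ℝ) + 1 + 1) / 2) := by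
      have : x2 - x1 = (x2 - 2 * x1 + x0) + (x1 - x0) := by ring
      rw [this]
      refine (abs_add_le _ _).trans ?_
      nlinarith
    refine ⟨?_, k2, k3⟩
    have : x2 = (x2 - x1) + x1 := by ring
    rw [this]
    refine (abs_add_le _ _).trans ?_
    nlinarith

private lemma cub_Th (T : ℝ) (hT : 0 ≤ T) (k : ℕ) (r : ℤ → ℝ) (hm : r (-1) = 0) (h0 : r 0 = 0) (h1 : r 1 = 0)
    (h : ∀ j : ℕ, j + 2 ≤ k → |r ((j : ℤ) + 2) - 3 * r ((j : ℤ) + 1) + 3 * r (j : ℤ) - r ((j : ℤ) - 1)| ≤ T)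
    (j : ℕ) (hj : 1 ≤ j) (hjk : j ≤ k) : |r (j : ℤ)| ≤ T * ((j : ℝ) ^ 3 / 6) := by
  obtain ⟨m, rfl⟩ : ∃ m, j = m + 1 := ⟨j - 1, by omega⟩
  have h2 := (third_Th T k r hm h0 h1 h m (by omega)).1
  push_cast
  refine h2.trans (mul_le_mul_of_nonneg_left ?_ hT)
  have : (0 : ℝ) ≤ m := Nat.cast_nonneg m
  nlinarith

theorem hTh (h1 : StEx) (h2 : StBj) : StTh := by
  intro k w n T t hk hT ht hd
  obtain ⟨-, hB⟩ := h2 k hk
  have hB := hB t ht
  set s : ℝ := w (n + 1) - w (n - 1) with hs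
  set D : ℝ := w (n + 1) - 2 * w n + w (n - 1) with hD
  -- the quadratic polynomial
  set p : Polynomial ℝ := Polynomial.C (w n) + Polynomial.C (s / 2) * Polynomial.X +
    Polynomial.C (D / 2) * Polynomial.X ^ 2 with hp
  have hdeg : p.natDegree ≤ 2 * k := by
    have : p.natDegree ≤ 2 := by rw [hp]; compute_degree
    omega
  have hEx := h1 k p hk hdeg
  have hpe : ∀ x : ℝ, p.eval x = w n + s / 2 * x + D / 2 * x ^ 2 := by intro x; simp [hp]
  have hpd : (Polynomial.derivative p).eval 0 = s / 2 := by simp [hp]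
  rw [hpd] at hEx
  -- the remainder
  set r : ℤ → ℝ := fun j => w (n + j) - (w n + s / 2 * j + D / 2 * (j : ℝ) ^ 2) with hr
  have hd3 : ∀ i : ℤ, dl 3 w i = w (i + 3) - 3 * w (i + 2) + 3 * w (i + 1) - w i := by
    intro i
    simp only [dl]
    have e1 : i + 1 + 1 = i + 2 := by ring
    have e2 : i + 1 + 1 + 1 = i + 3 := by ring
    rw [e2, e1]
    ring
  have hthird : ∀ i : ℤ, r (i + 3) - 3 * r (i + 2) + 3 * r (i + 1) - r i = dl 3 w (n + i) := by
    intro i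
    rw [hd3, hr]
    simp only
    have e1 : n + (i + 3) = n + i + 3 := by ring
    have e2 : n + (i + 2) = n + i + 2 := by ring
    have e3 : n + (i + 1) = n + i + 1 := by ring
    rw [e1, e2, e3]
    push_cast
    ring
  have r0 : r 0 = 0 := by simp [hr]
  have r1 : r 1 = 0 := by
    simp only [hr, hs, hD]; push_cast; ring
  have rm : r (-1) = 0 := by
    simp only [hr, hs, hD]; push_cast
    have : n + -1 = n - 1 := by ring
    rw [this]; ring
  have hpos : ∀ j : ℕ, 1 ≤ j → j ≤ k → |r (j : ℤ)| ≤ T * ((j : ℝ) ^ 3 / 6) := by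
    refine cub_Th T hT k r rm r0 r1 ?_
    intro j hj
    have h3 := hthird ((j : ℤ) - 1)
    have e1 : (j : ℤ) - 1 + 3 = j + 2 := by ring
    have e2 : (j : ℤ) - 1 + 2 = j + 1 := by ring
    have e3 : (j : ℤ) - 1 + 1 = j := by ring
    rw [e1, e2, e3] at h3
    rw [h3]
    exact hd _ (by omega) (by omega)
  have hneg : ∀ j : ℕ, 1 ≤ j → j ≤ k → |r (-(j : ℤ))| ≤ T * ((j : ℝ) ^ 3 / 6) := by
    refine cub_Th T hT k (fun j => r (-j)) (by simpa using r1) (by simpa using r0) (by simpa using rm) ?_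
    intro j hj
    have h3 := hthird (-(j : ℤ) - 2)
    have e1 : -(j : ℤ) - 2 + 3 = -((j : ℤ) - 1) := by ring
    have e2 : -(j : ℤ) - 2 + 2 = -(j : ℤ) := by ring
    have e3 : -(j : ℤ) - 2 + 1 = -((j : ℤ) + 1) := by ring
    have e4 : -(j : ℤ) - 2 = -((j : ℤ) + 2) := by ring
    rw [e1, e2, e3] at h3
    have h4 := hd (n + (-(j : ℤ) - 2)) (by omega) (by omega)
    rw [← h3, e4] at h4
    rw [← abs_neg]
    refine le_trans (le_of_eq ?_) h4
    congr 1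
    ring
  -- the identity
  have hid : DD k w n - s / 2 = ∑ j ∈ Finset.Icc 1 k, ak k j * (r (j : ℤ) - r (-(j : ℤ))) := by
    rw [← hEx, DD, ← Finset.sum_sub_distrib]
    refine Finset.sum_congr rfl fun j _ => ?_
    rw [← mul_sub]
    congr 1
    rw [hpe, hpe, hr]
    simp only
    push_cast
    rw [← sub_eq_add_neg]
    ring
  rw [hid]
  refine (Finset.abs_sum_le_sum_abs _ _).trans ?_
  have hterm : ∀ j ∈ Finset.Icc 1 k, |ak k j * (r (j : ℤ) - r (-(j : ℤ)))| ≤ T * (|ak k j| * (j : ℝ) ^ 3) := by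
    intro j hj
    rw [Finset.mem_Icc] at hj
    rw [abs_mul]
    have a1 := hpos j hj.1 hj.2
    have a2 := hneg j hj.1 hj.2
    have a3 : |r (j : ℤ) - r (-(j : ℤ))| ≤ T * (j : ℝ) ^ 3 := by
      have h0 : (0 : ℝ) ≤ T * (j : ℝ) ^ 3 := by positivity
      calc |r (j : ℤ) - r (-(j : ℤ))| ≤ |r (j : ℤ)| + |r (-(j : ℤ))| := abs_sub _ _
        _ ≤ T * (j : ℝ) ^ 3 := by linarith
    calc |ak k j| * |r (j : ℤ) - r (-(j : ℤ))| ≤ |ak k j| * (T * (j : ℝ) ^ 3) :=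
          mul_le_mul_of_nonneg_left a3 (abs_nonneg _)
      _ = T * (|ak k j| * (j : ℝ) ^ 3) := by ring
  refine (Finset.sum_le_sum hterm).trans ?_
  rw [← Finset.mul_sum]
  exact mul_le_mul_of_nonneg_left hB hT

end Helper85.HN
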