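import Pool.Agent.Helper85.HN.St

/-! Module Top of project HN. -/

set_option autoImplicit false

open Set Filter Topology

namespace Helper85.HN

/-- The exponential horn function. -/
private lemma exp_bound_Top {e : ℝ} (he : 0 < e) (he1 : e < 1 / 10 ^ 48) :
    Real.exp (-(1 / 2000 / e ^ (1 / 4 : ℝ))) ≤ 1 / 2 := by
  set h : ℝ := e ^ (1 / 4 : ℝ) with hh
  have hh0 : 0 < h := Real.rpow_pos_of_pos he _
  have h4e : h ^ 4 = e := by
    rw [hh, ← Real.rpow_natCast, ← Real.rpow_mul he.le]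
    norm_num
  have hh1 : h ≤ 1 / 10 ^ 12 := by
    by_contra hcon
    push Not at hcon
    have h5 : (1 / 10 ^ 12 : ℝ) ^ 4 < h ^ 4 := pow_lt_pow_left₀ hcon (by positivity) (by norm_num)
    rw [h4e] at h5
    norm_num at h5 he1
    linarith
  have h1 : (1 : ℝ) ≤ 1 / 2000 / h := by
    rw [le_div_iff₀ hh0]
    calc 1 * h ≤ 1 / 10 ^ 12 := by linarith
      _ ≤ 1 / 2000 := by norm_num
  have h2 : Real.exp (-(1 / 2000 / h)) ≤ Real.exp (-1) := Real.exp_le_exp.2 (by linarith)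
  have h3 : Real.exp (-1) ≤ 1 / 2 := by
    rw [Real.exp_neg, inv_eq_one_div]
    apply one_div_le_one_div_of_le (by norm_num)
    have := Real.add_one_le_exp (1 : ℝ)
    linarith
  linarith

private lemma right_Top (h1 : StHor) (h4 : StSym) (b c : ℝ) (hb1 : 1 < b) (hb2 : b ≤ 1 + 1 / 10)
    (hc1 : (1 + b) ^ 2 / 4 - 1 / 10 ^ 48 < c) (hc2 : c < (1 + b) ^ 2 / 4)
    (hex : Real.exp (-(1 / 2000 / ((1 + b) ^ 2 / 4 - c) ^ (1 / 4 : ℝ))) ≤ b - 1) : Ly b c := by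
  have hb0 : 0 < b := by linarith
  refine h4 b c hb0.ne' ?_
  set e : ℝ := (1 + b) ^ 2 / 4 - c with he
  have he0 : 0 < e := by rw [he]; linarith
  have he1 : e < 1 / 10 ^ 48 := by rw [he]; linarith
  have hval : (1 + 1 / b) ^ 2 / 4 - c / b ^ 2 = e / b ^ 2 := by
    rw [he]
    field_simp
    ring
  have hb2' : (1 : ℝ) ≤ b ^ 2 := by nlinarith
  have hle : e / b ^ 2 ≤ e := div_le_self he0.le hb2'
  have hpos : 0 < e / b ^ 2 := by positivity
  refine h1 (1 / b) (c / b ^ 2) ?_ ?_ ?_ ?_ ?_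
  · rw [le_div_iff₀ hb0]
    linarith
  · rw [div_lt_one hb0]
    exact hb1
  · linarith [hval, hle]
  · linarith [hval]
  · rw [hval]
    have hr : (e / b ^ 2) ^ (1 / 4 : ℝ) ≤ e ^ (1 / 4 : ℝ) := Real.rpow_le_rpow hpos.le hle (by norm_num)
    have hr0 : 0 < (e / b ^ 2) ^ (1 / 4 : ℝ) := Real.rpow_pos_of_pos hpos _
    have hr1 : 0 < e ^ (1 / 4 : ℝ) := Real.rpow_pos_of_pos he0 _
    have e1 : Real.exp (-(1 / (1000 * (e / b ^ 2) ^ (1 / 4 : ℝ)))) ≤ Real.exp (-(1 / (1000 * e ^ (1 / 4 : ℝ)))) := by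
      apply Real.exp_le_exp.2
      apply neg_le_neg
      apply one_div_le_one_div_of_le (by positivity)
      linarith
    have e2 : Real.exp (-(1 / (1000 * e ^ (1 / 4 : ℝ)))) =
        Real.exp (-(1 / 2000 / e ^ (1 / 4 : ℝ))) * Real.exp (-(1 / 2000 / e ^ (1 / 4 : ℝ))) := by
      rw [← Real.exp_add]
      congr 1
      field_simp
      ring
    have e3 := exp_bound_Top he0 he1
    have e4 : (1 : ℝ) / 2 ≤ 1 / b := one_div_le_one_div_of_le hb0 (by linarith)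
    have e5 : 0 ≤ Real.exp (-(1 / 2000 / e ^ (1 / 4 : ℝ))) := (Real.exp_pos _).le
    have e6 : 1 - 1 / b = (b - 1) * (1 / b) := by
      field_simp
    rw [e6]
    calc Real.exp (-(1 / (1000 * (e / b ^ 2) ^ (1 / 4 : ℝ)))) ≤ _ := e1
      _ = _ := e2
      _ ≤ (b - 1) * (1 / b) := mul_le_mul hex (e3.trans e4) e5 (by linarith)

private lemma left_Top (h1 : StHor) (b c : ℝ) (hb1 : b < 1) (hb2 : 1 - 1 / 10 ≤ b)
    (hc1 : (1 + b) ^ 2 / 4 - 1 / 10 ^ 48 < c) (hc2 : c < (1 + b) ^ 2 / 4)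
    (hex : Real.exp (-(1 / 2000 / ((1 + b) ^ 2 / 4 - c) ^ (1 / 4 : ℝ))) ≤ 1 - b) : Ly b c := by
  refine h1 b c (by linarith) hb1 hc1 hc2 (le_trans ?_ hex)
  have he0 : 0 < (1 + b) ^ 2 / 4 - c := by linarith
  have hr1 : 0 < ((1 + b) ^ 2 / 4 - c) ^ (1 / 4 : ℝ) := Real.rpow_pos_of_pos he0 _
  apply Real.exp_le_exp.2
  apply neg_le_neg
  rw [div_div]
  apply one_div_le_one_div_of_le (by positivity)
  linarith

theorem hTop (h1 : StHor) (h2 : StInt) (h3 : StCvt) (h4 : StSym) (h5 : StLE) : StTop := by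
  -- above the parabola
  have hA : ∀ q : ℝ × ℝ, (1 + q.1) ^ 2 / 4 ≤ q.2 → q ∈ E0 := fun q hq => h5 q.1 q.2 (h3.2 q.1 q.2 hq)
  -- the horn
  have hH : ∀ b c : ℝ, |b - 1| < 1 / 10 ^ 48 → (1 + b) ^ 2 / 4 - 1 / 10 ^ 48 < c → c < (1 + b) ^ 2 / 4 →
      Real.exp (-(1 / 2000 / ((1 + b) ^ 2 / 4 - c) ^ (1 / 4 : ℝ))) ≤ |b - 1| → (b, c) ∈ E0 := by
    intro b c hb hc1 hc2 hex
    have hsmall : (1 / 10 ^ 48 : ℝ) ≤ 1 / 10 := by norm_num
    rcases lt_trichotomy b 1 with hlt | heq | hgt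
    · rw [abs_of_neg (by linarith)] at hb hex
      exact h5 b c (left_Top h1 b c hlt (by linarith) hc1 hc2 (by linarith))
    · rw [heq] at hex
      simp only [sub_self, abs_zero] at hex
      exact absurd hex (not_le.2 (Real.exp_pos _))
    · rw [abs_of_pos (by linarith)] at hb hex
      exact h5 b c (right_Top h1 h4 b c hgt (by linarith) hc1 hc2 hex)
  refine ⟨?_, hA, 1 / 2000, 1 / 10 ^ 48, by norm_num, by norm_num, hH, ?_⟩
  · intro q hq
    have hnot : q ∉ interior E0 := hq.2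
    constructor
    · by_contra hcon
      push Not at hcon
      apply hnot
      rw [mem_interior]
      refine ⟨{r : ℝ × ℝ | (1 + r.1) ^ 2 / 4 < r.2}, fun r hr => hA r (le_of_lt hr), ?_, hcon⟩
      exact isOpen_lt (by fun_prop) (by fun_prop)
    · intro heq
      by_cases hb : |q.1| = 1
      · rcases eq_or_eq_neg_of_abs_eq hb with h6 | h6
        · left
          ext
          · exact h6
          · rw [heq, h6]
            norm_num
        · right
          ext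
          · exact h6
          · rw [heq, h6]
            norm_num
      · exfalso
        apply hnot
        obtain ⟨δ, hδ, hL⟩ := h2 q.1 hb
        rw [mem_interior_iff_mem_nhds, Metric.mem_nhds_iff]
        refine ⟨δ, hδ, ?_⟩
        intro r hr
        rw [Metric.mem_ball, Prod.dist_eq, Real.dist_eq, Real.dist_eq, max_lt_iff] at hr
        refine h5 r.1 r.2 (hL r.1 r.2 hr.1 ?_)
        rw [← heq]
        exact hr.2
  · intro q hq hb hc1 hc2
    have hnot : q ∉ interior E0 := hq.2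
    by_contra hcon
    push Not at hcon
    apply hnot
    rw [mem_interior_iff_mem_nhds]
    have ev1 : ∀ᶠ r : ℝ × ℝ in 𝓝 q, |r.1 - 1| < 1 / 10 ^ 48 := by
      have : ContinuousAt (fun r : ℝ × ℝ => |r.1 - 1|) q := by fun_prop
      exact this.eventually_lt_const hb
    have ev2 : ∀ᶠ r : ℝ × ℝ in 𝓝 q, (1 + r.1) ^ 2 / 4 - 1 / 10 ^ 48 < r.2 := by
      have k1 : ContinuousAt (fun r : ℝ × ℝ => (1 + r.1) ^ 2 / 4 - 1 / 10 ^ 48) q := by fun_prop
      have k2 : ContinuousAt (fun r : ℝ × ℝ => r.2) q := by fun_prop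
      exact k1.eventually_lt k2 hc1
    have ev3 : ∀ᶠ r : ℝ × ℝ in 𝓝 q, r.2 < (1 + r.1) ^ 2 / 4 := by
      have k1 : ContinuousAt (fun r : ℝ × ℝ => (1 + r.1) ^ 2 / 4) q := by fun_prop
      have k2 : ContinuousAt (fun r : ℝ × ℝ => r.2) q := by fun_prop
      exact k2.eventually_lt k1 hc2
    have ev4 : ∀ᶠ r : ℝ × ℝ in 𝓝 q,
        Real.exp (-(1 / 2000 / ((1 + r.1) ^ 2 / 4 - r.2) ^ (1 / 4 : ℝ))) < |r.1 - 1| := by
      have k1 : ContinuousAt (fun r : ℝ × ℝ => (1 + r.1) ^ 2 / 4 - r.2) q := by fun_prop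
      have k2 : ContinuousAt (fun r : ℝ × ℝ => ((1 + r.1) ^ 2 / 4 - r.2) ^ (1 / 4 : ℝ)) q :=
        k1.rpow_const (Or.inr (by norm_num))
      have k3 : ContinuousAt (fun r : ℝ × ℝ => 1 / 2000 / ((1 + r.1) ^ 2 / 4 - r.2) ^ (1 / 4 : ℝ)) q :=
        continuousAt_const.div k2 (Real.rpow_pos_of_pos (by linarith) _).ne'
      have k4 : ContinuousAt (fun r : ℝ × ℝ =>
          Real.exp (-(1 / 2000 / ((1 + r.1) ^ 2 / 4 - r.2) ^ (1 / 4 : ℝ)))) q :=
        Real.continuous_exp.continuousAt.comp k3.neg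
      have k5 : ContinuousAt (fun r : ℝ × ℝ => |r.1 - 1|) q := by fun_prop
      exact k4.eventually_lt k5 hcon
    filter_upwards [ev1, ev2, ev3, ev4] with r r1 r2 r3 r4
    exact hH r.1 r.2 r1 r2 r3 r4.le

end Helper85.HN
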