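import Pool.Agent.Helper85.HN.St

/-! # Project HN (MP_b39980_an): module `Tra` -/

set_option autoImplicit false

open Set Filter Topology

noncomputable section

namespace Helper85.HN

/-- The Henon map as a homeomorphism (`b ≠ 0`). -/
def homeo_Tra (b c : ℝ) (hb : b ≠ 0) : (ℝ × ℝ) ≃ₜ (ℝ × ℝ) where
  toFun := hen b c
  invFun := fun p => (p.2, (p.2 ^ 2 + c - p.1) / b)
  left_inv := by
    intro p
    apply Prod.ext
    · rfl
    · simp only [hen]
      field_simp
      ring
  right_inv := by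
    intro p
    apply Prod.ext
    · simp only [hen]
      field_simp
      ring
    · rfl
  continuous_toFun := by
    unfold hen
    fun_prop
  continuous_invFun := by
    fun_prop

/-- The full orbit of a point. -/
def orb_Tra (b c : ℝ) (hb : b ≠ 0) (p : ℝ × ℝ) (n : ℤ) : ℝ := ((homeo_Tra b c hb ^ n) p).1

theorem homeo_apply_Tra (b c : ℝ) (hb : b ≠ 0) (p : ℝ × ℝ) : homeo_Tra b c hb p = hen b c p := rfl

theorem succ_Tra (b c : ℝ) (hb : b ≠ 0) (p : ℝ × ℝ) (n : ℤ) :
    (homeo_Tra b c hb ^ (n + 1)) p = hen b c ((homeo_Tra b c hb ^ n) p) := by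
  rw [add_comm, zpow_add, zpow_one]
  rfl

theorem snd_Tra (b c : ℝ) (hb : b ≠ 0) (p : ℝ × ℝ) (n : ℤ) :
    ((homeo_Tra b c hb ^ n) p).2 = orb_Tra b c hb p (n - 1) := by
  have h := succ_Tra b c hb p (n - 1)
  rw [sub_add_cancel] at h
  rw [h]
  rfl

theorem orbit_Tra (b c : ℝ) (hb : b ≠ 0) (p : ℝ × ℝ) : Orb b c (orb_Tra b c hb p) := by
  intro n
  have h := succ_Tra b c hb p n
  rw [← snd_Tra b c hb p n]
  simp only [orb_Tra]
  rw [h]
  rfl

theorem uniq_Tra (b c : ℝ) (hb : b ≠ 0) (p : ℝ × ℝ) (x : ℤ → ℝ) (hx : Orb b c x)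
    (h0 : x 0 = p.1) (h1 : x (-1) = p.2) (n : ℤ) :
    (homeo_Tra b c hb ^ n) p = (x n, x (n - 1)) := by
  have key : ∀ m : ℤ, hen b c (x m, x (m - 1)) = (x (m + 1), x m) := by
    intro m
    apply Prod.ext
    · exact (hx m).symm
    · rfl
  induction n using Int.induction_on with
  | zero =>
    apply Prod.ext
    · exact h0.symm
    · simpa using h1.symm
  | succ i ih =>
    rw [succ_Tra, ih, key]
    simp
  | pred i ih =>
    have h2 := succ_Tra b c hb p (-(i : ℤ) - 1)
    rw [sub_add_cancel, ih] at h2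
    have h3 := key (-(i : ℤ) - 1)
    rw [sub_add_cancel] at h3
    rw [← h3] at h2
    exact ((homeo_Tra b c hb).injective h2).symm

theorem shift_Tra (b c : ℝ) (hb : b ≠ 0) (p : ℝ × ℝ) :
    orb_Tra b c hb (hen b c p) = fun i => orb_Tra b c hb p (i + 1) := by
  funext n
  simp only [orb_Tra]
  rw [zpow_add, zpow_one]
  rfl

theorem cont_Tra (b c : ℝ) (hb : b ≠ 0) : Continuous (fun p => orb_Tra b c hb p) := by
  apply continuous_pi
  intro n
  exact continuous_fst.comp (homeo_Tra b c hb ^ n).continuous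

theorem hTra : StTra := by
  intro b c Φ hb hc hs hL
  refine ⟨fun p => Φ (orb_Tra b c hb p) 0, hc.comp (cont_Tra b c hb), ?_, ?_⟩
  · intro p hp
    obtain ⟨x, hx, hxb, h0, h1⟩ := hp
    have e : orb_Tra b c hb p = x := by
      funext n
      simp only [orb_Tra]
      rw [uniq_Tra b c hb p x hx h0 h1 n]
    simp only [shift_Tra, hs, zero_add]
    rw [e]
    exact (hL x hx hxb).1
  · intro p hp
    obtain ⟨x, hx, hxb, h0, h1⟩ := hp
    have e : orb_Tra b c hb p = x := by
      funext n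
      simp only [orb_Tra]
      rw [uniq_Tra b c hb p x hx h0 h1 n]
    simp only [shift_Tra, hs, zero_add]
    rw [e]
    intro heq
    obtain ⟨g1, g2⟩ := (hL x hx hxb).2 heq
    apply Prod.ext
    · have h3 := hx 0
      simp only [zero_add, zero_sub] at h3
      simp only [hen]
      rw [← h0, ← h1, ← h3, g1]
    · simp only [hen]
      rw [← h0, g2, h1]

end Helper85.HN

end
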