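import Pool.Agent.Helper85.HN.St

/-!
# Project HN, module Up: upper bound for bounded orbits
-/

set_option autoImplicit false

open Set Filter Topology

namespace Helper85.HN

theorem hUp : StUp := by
  intro b r u hb hr hU hB m
  obtain ⟨M, hM⟩ := hB
  have hbd : BddAbove (Set.range u) := ⟨M, by rintro _ ⟨n, rfl⟩; exact (abs_le.1 (hM n)).2⟩
  by_contra hcon
  have hm : r < u m := not_le.1 hcon
  set U : ℝ := ⨆ n, u n with hUdef
  have hle : ∀ n, u n ≤ U := fun n => le_ciSup hbd n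
  have hg : 0 < U - r := by linarith [hle m]
  set g : ℝ := U - r with hgdef
  obtain ⟨τ, hτ0, hτ1, hτ2⟩ : ∃ τ : ℝ, 0 < τ ∧ τ ≤ g / 2 ∧ (1 + b) * τ ≤ g ^ 2 / 8 := by
    refine ⟨min (g / 2) (g ^ 2 / (8 * (1 + b))), by positivity, min_le_left _ _, ?_⟩
    calc (1 + b) * min (g / 2) (g ^ 2 / (8 * (1 + b))) ≤ (1 + b) * (g ^ 2 / (8 * (1 + b))) := by
          gcongr; exact min_le_right _ _
      _ = g ^ 2 / 8 := by field_simp
  obtain ⟨n, hn⟩ := exists_lt_of_lt_ciSup (show U - τ < ⨆ n, u n by rw [← hUdef]; linarith)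
  have h1 := hU n
  have h2 := hle (n + 1)
  have h3 := mul_le_mul_of_nonneg_left (hle (n - 1)) hb
  have h4 : u n ^ 2 + (1 + b) * u n - r ^ 2 ≤ (1 + b) * U := by nlinarith
  have h5 : U - u n ≤ τ := by linarith
  have h6 : (1 + b) * (U - u n) ≤ g ^ 2 / 8 :=
    (mul_le_mul_of_nonneg_left h5 (by linarith)).trans hτ2
  have h7 : u n ^ 2 - r ^ 2 ≤ g ^ 2 / 8 := by nlinarith
  have h8 : g / 2 ≤ u n - r := by linarith
  have h9 : (g / 2) * (g / 2) ≤ (u n - r) * (u n + r) := by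
    apply mul_le_mul h8 (by linarith) (by positivity) (by linarith)
  nlinarith

end Helper85.HN
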