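import Pool.Agent.Helper85.HN.St

/-! # Project HN, module Vel: velocity bound -/

set_option autoImplicit false

namespace Helper85.HN

private theorem rec_Vel (b h : ℝ) (u : ℤ → ℝ) (hu : Uo b (h ^ 4) u) (n : ℤ) (j : ℕ) :
    b * (u (n - ((j + 2 : ℕ) : ℤ)) - u (n - ((j + 1 : ℕ) : ℤ)))
      = (u (n - ((j + 1 : ℕ) : ℤ)) - u (n - (j : ℤ))) + (u (n - ((j + 1 : ℕ) : ℤ)) ^ 2 - h ^ 4) := by
  have h1 := hu (n - ((j + 1 : ℕ) : ℤ))
  have e1 : n - ((j + 1 : ℕ) : ℤ) + 1 = n - (j : ℤ) := by push_cast; ring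
  have e2 : n - ((j + 1 : ℕ) : ℤ) - 1 = n - ((j + 2 : ℕ) : ℤ) := by push_cast; ring
  rw [e1, e2] at h1
  linarith only [h1]

private theorem low_Vel (b h : ℝ) (w : ℕ → ℝ) (hb0 : 1 / 2 ≤ b) (hb1 : b ≤ 1) (hh : 0 < h)
    (hh1 : h ≤ 1 / 100)
    (hw : ∀ j, b * (w (j + 2) - w (j + 1)) = (w (j + 1) - w j) + (w (j + 1) ^ 2 - h ^ 4))
    (hup : ∀ j, w j ≤ h ^ 2) (hlo : ∀ j, -(16 * h ^ 2) ≤ w j) (h0 : w 1 - w 0 < -(150 * h ^ 3)) :
    False := by
  have h3 : 0 < h ^ 3 := by positivity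
  have h4 : h ^ 4 ≤ h ^ 3 / 100 := by
    have : h ^ 4 = h ^ 3 * h := by ring
    rw [this]
    nlinarith only [h3, hh1]
  have h40 : 0 < h ^ 4 := by positivity
  have key : ∀ j, (w (j + 1) - w j) + 7 / 2 * h * w (j + 1) ≤ -(150 * h ^ 3) + 7 / 2 * h ^ 3 := by
    intro j
    induction j with
    | zero =>
      have h5 : h * w (0 + 1) ≤ h * h ^ 2 := mul_le_mul_of_nonneg_left (hup _) hh.le
      have h6 : h * h ^ 2 = h ^ 3 := by ring
      simp only [zero_add] at h5 ⊢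
      linarith only [h5, h6, h0]
    | succ j ih =>
      have h5 : h * (-(16 * h ^ 2)) ≤ h * w (j + 1) := mul_le_mul_of_nonneg_left (hlo _) hh.le
      have h6 : h * (-(16 * h ^ 2)) = -(16 * h ^ 3) := by ring
      have h7 : w (j + 1) ^ 2 ≤ 256 * h ^ 4 := by
        have h8 : w (j + 1) ^ 2 ≤ (16 * h ^ 2) ^ 2 := by
          refine sq_le_sq' (hlo _) ?_
          have := hup (j + 1)
          have h9 : 0 ≤ h ^ 2 := by positivity
          linarith only [this, h9]
        calc w (j + 1) ^ 2 ≤ (16 * h ^ 2) ^ 2 := h8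
          _ = 256 * h ^ 4 := by ring
      have h8 := hw j
      have h9 : b * (w (j + 2) - w (j + 1)) ≤ -(75 * h ^ 3) := by
        linarith only [h8, ih, h5, h6, h7, h4, h3, h40]
      have h10 : w (j + 2) - w (j + 1) < 0 := by
        by_contra hc
        have := mul_nonneg (by linarith only [hb0] : (0 : ℝ) ≤ b) (not_lt.mp hc)
        linarith only [this, h9, h3]
      have h11 : w (j + 2) - w (j + 1) ≤ b * (w (j + 2) - w (j + 1)) := by
        nlinarith only [h10, hb1]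
      have h12 : h * (w (j + 2) - w (j + 1)) ≤ h * (-(75 * h ^ 3)) :=
        mul_le_mul_of_nonneg_left (h11.trans h9) hh.le
      have h13 : h * (-(75 * h ^ 3)) = -(75 * h ^ 4) := by ring
      have h14 : (w (j + 1 + 1) - w (j + 1)) + 7 / 2 * h * w (j + 1 + 1)
          = (w (j + 2) - w (j + 1)) + 7 / 2 * (h * (w (j + 2) - w (j + 1)))
            + 7 / 2 * h * w (j + 1) := by ring
      rw [h14]
      linarith only [h11, h8, h7, ih, h12, h13, h40]
  have step : ∀ j, w (j + 1) - w j ≤ -(75 * h ^ 3) := by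
    intro j
    have h5 : h * (-(16 * h ^ 2)) ≤ h * w (j + 1) := mul_le_mul_of_nonneg_left (hlo _) hh.le
    have h6 : h * (-(16 * h ^ 2)) = -(16 * h ^ 3) := by ring
    have h7 := key j
    linarith only [h5, h6, h7, h3]
  have lin : ∀ j : ℕ, w j ≤ w 0 - 75 * h ^ 3 * (j : ℝ) := by
    intro j
    induction j with
    | zero => simp
    | succ j ih =>
      have := step j
      push_cast
      linarith only [this, ih]
  obtain ⟨N, hN⟩ := exists_nat_gt (17 * h ^ 2 / (75 * h ^ 3))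
  have h5 : 17 * h ^ 2 < 75 * h ^ 3 * (N : ℝ) := by
    rw [div_lt_iff₀ (by positivity)] at hN
    linarith only [hN]
  have h6 := lin N
  have h7 := hup 0
  have h8 := hlo N
  linarith only [h5, h6, h7, h8]

theorem hVel (h1 : StPass) (h2 : StLo) : StVel := by
  intro b h u hb0 hb1 hh hh1 hu hbd n
  have hb := h2 b h u hb0 hb1 hh hh1 hu hbd
  have h3 : 0 < h ^ 3 := by positivity
  have hr := rec_Vel b h u hu n
  have e0 : u (n - ((0 : ℕ) : ℤ)) = u n := by simp
  have e1 : u (n - ((1 : ℕ) : ℤ)) = u (n - 1) := by simp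
  rw [abs_le]
  constructor
  · by_contra hc
    have hc' := not_le.mp hc
    refine h1 b h (fun j => u (n - (j : ℤ))) (by linarith only [hb0]) hb1 hh
      (by linarith only [hh1]) hr (fun j => (hb _).1) ?_
    show 4 * h ^ 3 ≤ u (n - ((1 : ℕ) : ℤ)) - u (n - ((0 : ℕ) : ℤ))
    rw [e0, e1]
    linarith only [hc', h3]
  · by_contra hc
    have hc' := not_le.mp hc
    refine low_Vel b h (fun j => u (n - (j : ℤ))) hb0 hb1 hh hh1 hr (fun j => (hb _).1)
      (fun j => (hb _).2) ?_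
    show u (n - ((1 : ℕ) : ℤ)) - u (n - ((0 : ℕ) : ℤ)) < -(150 * h ^ 3)
    rw [e0, e1]
    linarith only [hc']

end Helper85.HN
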