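import Pool.Agent.Helper85.HN.St

/-!
# Project HN (MP_b39980_an): module Zer, bounded orbits for `e ≤ 0` (helper80)
-/

set_option autoImplicit false

open Set Filter Topology

namespace Helper85.HN

/-- The limits of `u` at an end where the monotone quantity converges. -/
private theorem lim_Zer {b e a : ℝ} {u : ℤ → ℝ} (hU : Uo b e u) {F : Filter ℤ}
    (hF : Tendsto (fun n : ℤ => n - 1) F F)
    (h : Tendsto (fun n : ℤ => u (n + 1) - b * u n) F (𝓝 a)) :
    Tendsto (fun n : ℤ => u n ^ 2) F (𝓝 e) := by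
  have h1 : Tendsto (fun n : ℤ => (u (n + 1) - b * u n) - (u (n - 1 + 1) - b * u (n - 1)) + e) F
      (𝓝 (a - a + e)) := (h.sub (h.comp hF)).add_const e
  rw [sub_self, zero_add] at h1
  refine h1.congr fun n => ?_
  have h2 := hU n
  rw [sub_add_cancel]
  linarith

/-- MODULE Zer. Bounded orbits for `e ≤ 0`. -/
theorem hZer : StZer := by
  intro b e u he hU hB
  obtain ⟨M, hM⟩ := hB
  set V : ℤ → ℝ := fun n => u (n + 1) - b * u n with hV
  have hbd : ∀ n, |V n| ≤ M + |b| * M := by
    intro n
    have h1 : |V n| ≤ |u (n + 1)| + |b * u n| := abs_sub _ _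
    rw [abs_mul] at h1
    have h2 := hM (n + 1)
    have h3 := mul_le_mul_of_nonneg_left (hM n) (abs_nonneg b)
    linarith
  have hmono : Monotone V := by
    apply monotone_int_of_le_succ
    intro n
    have h1 := hU (n + 1)
    have h2 : n + 1 - 1 = n := by ring
    rw [h2] at h1
    have h3 := sq_nonneg (u (n + 1))
    simp only [hV]
    linarith
  have hA : BddAbove (range V) := ⟨M + |b| * M, by
    rintro _ ⟨n, rfl⟩
    exact (abs_le.1 (hbd n)).2⟩
  have hBb : BddBelow (range V) := ⟨-(M + |b| * M), by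
    rintro _ ⟨n, rfl⟩
    exact (abs_le.1 (hbd n)).1⟩
  have hT := tendsto_atTop_ciSup hmono hA
  have hBo := tendsto_atBot_ciInf hmono hBb
  have hs1 : Tendsto (fun n : ℤ => n - 1) atTop atTop := by
    have := tendsto_atTop_add_const_right (atTop : Filter ℤ) (-1) tendsto_id
    exact this
  have hs2 : Tendsto (fun n : ℤ => n - 1) atBot atBot := by
    have := tendsto_atBot_add_const_right (atBot : Filter ℤ) (-1) tendsto_id
    exact this
  have l1 := lim_Zer hU hs1 hT
  have l2 := lim_Zer hU hs2 hBo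
  have he0 : e = 0 := by
    apply le_antisymm he
    exact ge_of_tendsto' l1 fun n => sq_nonneg _
  refine ⟨he0, ?_⟩
  have key : ∀ F : Filter ℤ, Tendsto (fun n : ℤ => u n ^ 2) F (𝓝 e) → Tendsto u F (𝓝 0) := by
    intro F hF
    rw [he0] at hF
    have h1 := (Real.continuous_sqrt.tendsto 0).comp hF
    rw [Real.sqrt_zero] at h1
    rw [tendsto_zero_iff_abs_tendsto_zero]
    refine h1.congr fun n => ?_
    exact Real.sqrt_sq_eq_abs (u n)
  have key2 : ∀ (F : Filter ℤ) (a : ℝ), F.NeBot → Tendsto (fun n : ℤ => n + 1) F F →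
      Tendsto V F (𝓝 a) → Tendsto u F (𝓝 0) → a = 0 := by
    intro F a hF hs h1 h2
    have h3 : Tendsto V F (𝓝 (0 - b * 0)) := (h2.comp hs).sub (h2.const_mul b)
    rw [mul_zero, sub_zero] at h3
    exact tendsto_nhds_unique h1 h3
  have hs3 : Tendsto (fun n : ℤ => n + 1) atTop atTop :=
    tendsto_atTop_add_const_right (atTop : Filter ℤ) 1 tendsto_id
  have hs4 : Tendsto (fun n : ℤ => n + 1) atBot atBot :=
    tendsto_atBot_add_const_right (atBot : Filter ℤ) 1 tendsto_id
  have a1 := key2 atTop _ inferInstance hs3 hT (key _ l1)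
  have a2 := key2 atBot _ inferInstance hs4 hBo (key _ l2)
  have hz : ∀ n, V n = 0 := by
    intro n
    apply le_antisymm
    · have := hmono.ge_of_tendsto hT n
      rwa [a1] at this
    · have := hmono.le_of_tendsto hBo n
      rwa [a2] at this
  intro n
  have h1 := hU n
  have h2 := hz n
  have h3 := hz (n - 1)
  simp only [hV] at h2 h3
  rw [sub_add_cancel] at h3
  have h4 : u n ^ 2 = 0 := by
    rw [he0] at h1
    linarith
  exact pow_eq_zero_iff (two_ne_zero) |>.1 h4

end Helper85.HN
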