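import Pool.Agent.Helper85.HN.M_Cnt
import Pool.Agent.Helper85.HN.M_Poly
import Pool.Agent.Helper85.HN.M_Iti
import Pool.Agent.Helper85.HN.M_Gen
import Pool.Agent.Helper85.HN.M_Kc
import Pool.Agent.Helper85.HN.M_Zer
import Pool.Agent.Helper85.HN.M_Cvt
import Pool.Agent.Helper85.HN.M_LE
import Pool.Agent.Helper85.HN.M_Sym
import Pool.Agent.Helper85.HN.M_Sma
import Pool.Agent.Helper85.HN.M_Tra
import Pool.Agent.Helper85.HN.M_Phi
import Pool.Agent.Helper85.HN.M_Up
import Pool.Agent.Helper85.HN.M_Pass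
import Pool.Agent.Helper85.HN.M_Lo
import Pool.Agent.Helper85.HN.M_Vel
import Pool.Agent.Helper85.HN.M_Lei
import Pool.Agent.Helper85.HN.M_Gl
import Pool.Agent.Helper85.HN.M_SSg
import Pool.Agent.Helper85.HN.M_Loc
import Pool.Agent.Helper85.HN.M_Ex
import Pool.Agent.Helper85.HN.M_Bj
import Pool.Agent.Helper85.HN.M_Th
import Pool.Agent.Helper85.HN.M_New
import Pool.Agent.Helper85.HN.M_Err
import Pool.Agent.Helper85.HN.M_Id
import Pool.Agent.Helper85.HN.M_RB
import Pool.Agent.Helper85.HN.M_RA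
import Pool.Agent.Helper85.HN.M_Par
import Pool.Agent.Helper85.HN.M_Int
import Pool.Agent.Helper85.HN.M_Num
import Pool.Agent.Helper85.HN.M_Hor
import Pool.Agent.Helper85.HN.M_Top

/-! Assembly of project HN. -/

set_option autoImplicit false

namespace Helper85.HN

theorem gGen : StGen := hGen hCnt hPoly hIti
theorem gKc : StKc := hKc
theorem gZer : StZer := hZer
theorem gCvt : StCvt := hCvt gKc gZer
theorem gLE : StLE := hLE gGen gKc
theorem gSym : StSym := hSym
theorem gSma : StSma := hSma gKc gZer gCvt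
theorem gPhi : StPhi := hPhi hTra gCvt
theorem gLo : StLo := hLo hUp hPass
theorem gVel : StVel := hVel hPass gLo
theorem gGl : StGl := hGl hLei
theorem gLoc : StLoc := hLoc hLei
theorem gTh : StTh := hTh hEx hBj
theorem gErr : StErr := hErr hEx hBj hNew
theorem gRB : StRB := hRB gVel gLo gGl hSSg gLoc gTh gErr hId
theorem gRA : StRA := hRA gVel gLo hId
theorem gPar : StPar := hPar gCvt hId
theorem gInt : StInt := hInt gSma gPar gSym
theorem gHor : StHor := hHor gPhi gRA gRB hNum

theorem main : StTop := hTop gHor gInt gCvt gSym gLE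

end Helper85.HN
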