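import Mathlib

/-!
# MP_b39980_an, project HN: the zero entropy locus of the real Henon family near the saddle-node parabola

Final theorem (module Top): near `(b,c) = (1,1)` the complement of the zero entropy locus `E0` lies in an exponentially
thin horn `|b - 1| < exp (-a ε^(-1/4))`, `ε = (1+b)²/4 - c`; the frontier of `E0` meets the parabola `c = (1+b)²/4` at most
at `(1,1)` and `(-1,0)`.

Idea: on the set of bounded orbits there is a continuous strict Lyapunov function; then the entropy is zero.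
Coordinates: `u = x - (1+b)/2`, `e = ε`; the orbit equation becomes `Uo b e u`.  With `v n = u n - u (n-1)`:
`v (n+1) = b v n + (u n)² - e`.  For `e = h^4` all bounded orbits satisfy `|u| ≤ 16 h²`, `|v| ≤ 150 h³`, and all finite
differences are controlled (`StGl`, `StLoc`).  The Lyapunov function is a discrete Noether energy built from the
central difference formula `DD k` of order `2k`, `k` of order `1/h`: its defect is exponentially small in `1/h`.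

Every module `M_XX.lean` in `Pool/Agent/Helper85/HN/` proves `theorem hXX : StXX` (with the hypotheses named in its row).
-/

set_option autoImplicit false

open Set Filter Topology

noncomputable section

namespace Helper85.HN

/-! ## Definitions -/

/-- The real Henon map. -/
def hen (b c : ℝ) (p : ℝ × ℝ) : ℝ × ℝ := (p.1 ^ 2 + c - b * p.2, p.1)

/-- `x` is a full orbit (first coordinates). -/
def Orb (b c : ℝ) (x : ℤ → ℝ) : Prop := ∀ n : ℤ, x (n + 1) = x n ^ 2 + c - b * x (n - 1)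

/-- Bounded sequence. -/
def Bd (x : ℤ → ℝ) : Prop := ∃ M : ℝ, ∀ n : ℤ, |x n| ≤ M

/-- The compact set `K` of points with bounded full orbit. -/
def KK (b c : ℝ) : Set (ℝ × ℝ) := {p | ∃ x : ℤ → ℝ, Orb b c x ∧ Bd x ∧ x 0 = p.1 ∧ x (-1) = p.2}

/-- The zero entropy locus (the entropy of the empty set is `⊥` in Mathlib). -/
def E0 : Set (ℝ × ℝ) := {q | Dynamics.coverEntropy (hen q.1 q.2) (KK q.1 q.2) ≤ 0}

/-- There is a continuous strict Lyapunov function on `K`. -/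
def Ly (b c : ℝ) : Prop := ∃ L : ℝ × ℝ → ℝ, Continuous L ∧ (∀ p ∈ KK b c, L (hen b c p) ≤ L p) ∧
  ∀ p ∈ KK b c, L (hen b c p) = L p → hen b c p = p

/-- The orbit equation in the coordinate `u = x - (1+b)/2`, `e = (1+b)²/4 - c`. -/
def Uo (b e : ℝ) (u : ℤ → ℝ) : Prop := ∀ n : ℤ, u (n + 1) - u n = b * (u n - u (n - 1)) + (u n ^ 2 - e)

/-- Iterated forward differences. -/
def dl : ℕ → (ℤ → ℝ) → ℤ → ℝ
  | 0, u => u
  | m + 1, u => fun n => dl m u (n + 1) - dl m u n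

/-- Coefficients of the central difference formula for the derivative. -/
def ak (k j : ℕ) : ℝ := (-1) ^ (j + 1) * ((2 * k).choose (k + j) : ℝ) / (j * ((2 * k).choose k : ℝ))

/-- The central difference formula: `DD k f n` approximates `f'(n)`. -/
def DD (k : ℕ) (f : ℤ → ℝ) (n : ℤ) : ℝ := ∑ j ∈ Finset.Icc 1 k, ak k j * (f (n + j) - f (n - j))

/-- Sum over `[p,q)`. -/
def tl (y : ℤ → ℝ) (p q : ℤ) : ℝ := ∑ i ∈ Finset.Ico p q, y i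

/-- The discrete energy: `WW (n+1) - WW n = DD k u n * (second difference) - DD k (u³/3 - e u) n`. -/
def WW (k : ℕ) (e : ℝ) (u : ℤ → ℝ) (n : ℤ) : ℝ := ∑ j ∈ Finset.Icc 1 k, ak k j *
  (tl (fun i => u i * u (i + j - 1)) (n - j) (n + 1) + tl (fun i => u i * u (i + j + 1)) (n - j) (n - 1)
    - 2 * tl (fun i => u i * u (i + j)) (n - j) n - tl (fun i => u i ^ 3 / 3 - e * u i) (n - j) (n + j))

/-- The Lyapunov function along an orbit. -/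
def LL (k : ℕ) (b e lam : ℝ) (u : ℤ → ℝ) (n : ℤ) : ℝ :=
  WW k e u n - (1 - b) * (u n - u (n - 1)) ^ 2 / 4 - lam * (u n - u (n - 1)) * (u (n - 1) ^ 2 - e)

/-- The local size of an orbit. -/
def SS (h : ℝ) (u : ℤ → ℝ) (n : ℤ) : ℝ := |u n - u (n - 1)| + |u (n - 1) ^ 2 - h ^ 4| / h

/-- The defect of the Leibniz rule. -/
def EE (k : ℕ) (u : ℤ → ℝ) (n : ℤ) : ℝ :=
  u n * DD k (fun i => (u i - u n) ^ 2) n + 1 / 3 * DD k (fun i => (u i - u n) ^ 3) n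

/-! ## Part N: entropy -/

/-- MODULE Cnt (100 lines). Words with few changes of letter.
Proof: induction on `n`, for all `c`. `n = 0`: the `card α` constant functions. Step: `W (n+1) c` = the functions
`Function.update w' (n+1) (w' n)` with `w' ∈ W n c`, and, if `c ≥ 1`, the functions `Function.update w' (n+1) a` with `w' ∈ W n (c-1)`,
`a : α`. Given `w` with at most `c` changes in `range (n+1)`: if `w (n+1) = w n` use the first kind, otherwise `w` has at most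
`c - 1` changes in `range n`: second kind. Cardinality: `a^(c+1) (n+1)^c + a · a^c (n+1)^(c-1) ≤ a^(c+1) (n+2)^c` with `a = card α`. -/
def StCnt : Prop := ∀ (N c n : ℕ), ∃ W : Finset (ℕ → Fin N), W.card ≤ N ^ (c + 1) * (n + 1) ^ c ∧
  ∀ w : ℕ → Fin N, ((Finset.range n).filter (fun i => w (i + 1) ≠ w i)).card ≤ c → ∃ w' ∈ W, ∀ i ≤ n, w' i = w i

/-- MODULE Poly (80 lines). Polynomial growth of the covers gives zero entropy.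
Proof: `Dynamics.coverEntropy T F = ⨆ U ∈ 𝓤 X, coverEntropyEntourage T F U`. For `U ∈ 𝓤 X` take a symmetric `V ∈ 𝓤 X` with
`V ○ V ⊆ U` (`comp_symm_mem_uniformity_sets`); `coverEntropyEntourage T F U ≤ coverEntropyEntourage T F (V ○ V)` (antitone) and
`coverEntropyEntourage_le_log_coverMincard_div`: `≤ log (coverMincard T F V n) / n` for every `n ≠ 0`. With
`coverMincard ≤ C (n+1)^M` this tends to `0` in `EReal` (`ENNReal.log` is monotone, `ENNReal.log (ENNReal.ofReal y) = Real.log y`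
for `y > 0`; `Real.log (C (n+1)^M) / n → 0`).  Alternatively use `expGrowthSup` and its lemmas. -/
def StPoly : Prop := ∀ (T : ℝ × ℝ → ℝ × ℝ) (F : Set (ℝ × ℝ)), MapsTo T F F →
  (∀ U ∈ uniformity (ℝ × ℝ), ∃ C M : ℕ, ∀ n : ℕ, Dynamics.coverMincard T F U n ≤ ((C * (n + 1) ^ M : ℕ) : ℕ∞)) →
  Dynamics.coverEntropy T F ≤ 0

/-- MODULE Iti (180 lines). Itineraries.
Proof. Let `P = {x ∈ K | f x = x}` (finite), `ε > 0` with `dist x y < ε → (x,y) ∈ U`. Choose `0 < δ ≤ ε/2` with `dist p q ≥ 2 δ` for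
distinct `p, q ∈ P`, and `0 < δ' ≤ δ` with `f (ball p δ') ⊆ ball p δ` for `p ∈ P` (continuity at `p = f p`). Put
`V p = ball p δ'`, `C = K \ ⋃ V p`, compact. If `x ∈ V p` and `f x ∈ V q` (`p, q ∈ P`) then `dist p q < 2 δ`, so `p = q`. Cover `C` by finitely many
balls of radius `ε/2`. Letters: the points of `P` (sets `V p`) and these balls (all have diameter `< ε`); transport the letters
to `Fin N`. Itinerary of `x ∈ K`: at time `i` the letter `p` if `f^[i] x ∈ V p` (unique), otherwise the letter of a ball containing `f^[i] x ∈ C`.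
If `w (i+1) ≠ w i` then `f^[i] x ∈ C` or `f^[i+1] x ∈ C`. On `C` the continuous function `L - L ∘ f` is positive, so `≥ m > 0` (if `C` is not
empty); `∑_{i<n} (L (f^[i] x) - L (f^[i+1] x)) ≤ max_K L - min_K L`, all terms are `≥ 0`: so at most `M` times `i` have
`f^[i] x ∈ C` and at most `2 M` changes. (`K = ∅`: trivial with `N = 0`; if `N` letters are needed but `K ≠ ∅` then `N ≥ 1` automatically.) -/
def StIti : Prop := ∀ (f : ℝ × ℝ → ℝ × ℝ) (K : Set (ℝ × ℝ)) (L : ℝ × ℝ → ℝ), Continuous f → IsCompact K → MapsTo f K K →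
  Continuous L → (∀ p ∈ K, L (f p) ≤ L p) → (∀ p ∈ K, L (f p) = L p → f p = p) → {p | p ∈ K ∧ f p = p}.Finite →
  ∀ U ∈ uniformity (ℝ × ℝ), ∃ (N c : ℕ) (A : Fin N → Set (ℝ × ℝ)),
    (∀ a, ∀ x ∈ A a, ∀ y ∈ A a, (x, y) ∈ U) ∧
    ∀ x ∈ K, ∃ w : ℕ → Fin N, (∀ i, f^[i] x ∈ A (w i)) ∧
      ∀ n : ℕ, ((Finset.range n).filter (fun i => w (i + 1) ≠ w i)).card ≤ c

/-- MODULE Gen (80 lines; theorem hGen (h1 : StCnt) (h2 : StPoly) (h3 : StIti) : StGen). Strict Lyapunov function and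
finitely many fixed points imply zero entropy.
Proof: StPoly; for `U` take `N, c, A` from StIti and `W` from StCnt (`N`, `c`, `n`). For every `w' ∈ W` for which some `y ∈ K` has
`f^[i] y ∈ A (w' i)` for all `i ≤ n` choose such a `y`; these `y` form a dynamical cover: for `x ∈ K` with itinerary `w`, take `w' ∈ W` with
`w' = w` on `[0,n]`; the chosen `y` satisfies `(f^[i] x, f^[i] y) ∈ U` for `i < n` (`Dynamics.mem_dynEntourage`; `IsDynCoverOf` is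
`IsCover (dynEntourage T U n) F s`, look at the order of the pair). So `coverMincard ≤ W.card ≤ N^(c+1) (n+1)^c`. -/
def StGen : Prop := ∀ (f : ℝ × ℝ → ℝ × ℝ) (K : Set (ℝ × ℝ)) (L : ℝ × ℝ → ℝ), Continuous f → IsCompact K → MapsTo f K K →
  Continuous L → (∀ p ∈ K, L (f p) ≤ L p) → (∀ p ∈ K, L (f p) = L p → f p = p) → {p | p ∈ K ∧ f p = p}.Finite →
  Dynamics.coverEntropy f K ≤ 0

/-- MODULE Kc (120 lines). A priori bound, compactness, invariance, fixed points.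
Proof. (1) Let `X = sup |x n|` (finite). `x n ^ 2 = x (n+1) - c + b x (n-1) ≤ (1+|b|) X + |c|` for all `n`, so
`X² ≤ (1+|b|) X + |c|`; if `X > 2 + |b| + |c|` then `X² > (1+|b|+|c|) X ≥ (1+|b|) X + |c|` (as `X ≥ 1`), contradiction. (2) By (1) `KK b c` is the image under
`x ↦ (x 0, x (-1))` of `{x | Orb b c x} ∩ pi univ (Icc (-R) R)`, a closed subset of a compact set (`isCompact_univ_pi`) of `ℤ → ℝ`.
(3) `hen` maps `KK` to itself: shift the orbit. (4) fixed points: `p.2 = p.1`, `p.1` is a root of `t² - (1+b) t + c`. -/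
def StKc : Prop := ∀ b c : ℝ,
  (∀ x, Orb b c x → Bd x → ∀ n, |x n| ≤ 2 + |b| + |c|) ∧ IsCompact (KK b c) ∧ MapsTo (hen b c) (KK b c) (KK b c) ∧
  {p | p ∈ KK b c ∧ hen b c p = p}.Finite

/-- MODULE Zer (100 lines). Bounded orbits for `e ≤ 0`.
Proof: `V n = u (n+1) - b u n` satisfies `V n - V (n-1) = u n ^ 2 - e ≥ 0` and `|V n| ≤ (1+|b|) M`. If `e < 0`: `V N - V 0 ≥ N |e|`
is unbounded. If `e = 0`: `∑ u n ^ 2 ≤ 2 (1+|b|) M` over every finite window, so `u n → 0` as `n → ±∞` (two natural number indexed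
sequences), so `V → 0` at both ends; `V` is monotone, so `V m ≤ 0 ≤ V (m-1)` for all `m`, hence `u m ^ 2 = V m - V (m-1) ≤ 0`. -/
def StZer : Prop := ∀ (b e : ℝ) (u : ℤ → ℝ), e ≤ 0 → Uo b e u → Bd u → e = 0 ∧ ∀ n, u n = 0

/-- MODULE Cvt (60 lines; theorem hCvt (h1 : StKc) (h2 : StZer) : StCvt). Change of coordinates; parameters on or above the parabola.
Proof. (1) algebra. (2) If `(1+b)²/4 ≤ c` then by (1) and StZer every bounded orbit is constant `(1+b)/2`: `KK b c` has at most one point, which is then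
fixed (`hen` maps `KK` to itself); take `L = 0`. -/
def StCvt : Prop :=
  (∀ (b c : ℝ) (x : ℤ → ℝ), Orb b c x ↔ Uo b ((1 + b) ^ 2 / 4 - c) (fun n => x n - (1 + b) / 2)) ∧
  (∀ (b c : ℝ), (1 + b) ^ 2 / 4 ≤ c → Ly b c)

/-- MODULE LE (30 lines; theorem hLE (h1 : StGen) (h2 : StKc) : StLE). -/
def StLE : Prop := ∀ b c : ℝ, Ly b c → (b, c) ∈ E0

/-- MODULE Sym (80 lines). The symmetry `(b,c) ↦ (1/b, c/b²)` (inverse map).
Proof: `Φ p = (p.2 / b, p.1 / b)`. If `x` is a bounded orbit for `(b,c)` then `X n = x (-n-1) / b` is one for `(1/b, c/b²)`: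
`x (-n-2) = (x (-n-1) ^ 2 + c - x (-n)) / b` gives `X (n+1) = X n ^ 2 + c/b² - (1/b) X (n-1)`. So `Φ` maps `KK b c` into `KK (1/b) (c/b²)`, and
`hen (1/b) (c/b²) (Φ (hen b c p)) = Φ p` (all `p`). For the Lyapunov function `L'` of `(1/b, c/b²)` put `L p = - L' (Φ p)`: for `p ∈ KK b c`, `q = Φ (hen b c p)`
(in `KK'`, as `hen b c p ∈ KK b c`): `L' (Φ p) = L' (hen' q) ≤ L' q`, with equality only if `Φ p = hen' q = q = Φ (hen b c p)`, i.e. `p = hen b c p`. -/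
def StSym : Prop := ∀ b c : ℝ, b ≠ 0 → Ly (1 / b) (c / b ^ 2) → Ly b c

/-- MODULE Sma (120 lines; theorem hSma (h1 : StKc) (h2 : StZer) (h3 : StCvt) : StSma). Near the parabola bounded orbits are small.
Proof by contradiction: there are `(b_m, c_m) → (b0, (1+b0)²/4)` and bounded orbits `x^m` with `|x^m (n_m) - (1+b0)/2| > ρ`; shift so that
`n_m = 0`. By StKc (1) `|x^m n| ≤ R` for all `m, n` with one `R`. `pi univ (Icc (-R) R) ⊆ (ℤ → ℝ)` is compact and `ℤ → ℝ` is first countable: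
`IsCompact.tendsto_subseq` gives a subsequence converging pointwise to `x`, an orbit for `(b0, (1+b0)²/4)` with `|x n| ≤ R` and
`|x 0 - (1+b0)/2| ≥ ρ`, against StZer with `e = 0`. -/
def StSma : Prop := ∀ b0 ρ : ℝ, 0 < ρ → ∃ δ > 0, ∀ b c : ℝ, |b - b0| < δ → |c - (1 + b0) ^ 2 / 4| < δ →
  ∀ x, Orb b c x → Bd x → ∀ n, |x n - (1 + b0) / 2| ≤ ρ

/-- MODULE Tra (120 lines). From a Lyapunov functional on orbits to `Ly`.
Proof: for `b ≠ 0` let `hinv p = (p.2, (p.2 ^ 2 + c - p.1) / b)` (two sided inverse of `hen b c`) and `orb p n = (hen^[n] p).1` for `n ≥ 0`,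
`(hinv^[-n] p).1` for `n < 0`. Then `orb p` satisfies `Orb b c`, `orb p 0 = p.1`, `orb p (-1) = p.2`; a full orbit is determined by `x 0, x (-1)`, so for
`p ∈ KK b c` the bounded orbit is `orb p`; `orb (hen b c p) n = orb p (n+1)`; `p ↦ orb p` is continuous into `ℤ → ℝ`. Put
`L p = Φ (orb p) 0`; `L (hen b c p) = Φ (fun i => orb p (i+1)) 0 = Φ (orb p) 1`; `x 1 = x 0` and `x 0 = x (-1)` mean `hen b c p = p`. -/
def StTra : Prop := ∀ (b c : ℝ) (Φ : (ℤ → ℝ) → ℤ → ℝ), b ≠ 0 → Continuous (fun u => Φ u 0) →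
  (∀ u n, Φ (fun i => u (i + 1)) n = Φ u (n + 1)) →
  (∀ x, Orb b c x → Bd x → Φ x 1 ≤ Φ x 0 ∧ (Φ x 1 = Φ x 0 → x 1 = x 0 ∧ x 0 = x (-1))) → Ly b c

/-- MODULE Phi (80 lines; theorem hPhi (h1 : StTra) (h2 : StCvt) : StPhi).
Proof: StTra with `Φ x n = LL k b e lam (fun i => x i - (1+b)/2) n`, `e = (1+b)²/4 - c`: continuity (finite sums of polynomials in coordinates;
`Finset.Ico` of constants), shift equivariance (reindex `tl`: `∑_{i ∈ Ico p q} y (i+1) = ∑_{i ∈ Ico (p+1) (q+1)} y i`). -/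
def StPhi : Prop := ∀ (b c lam : ℝ) (k : ℕ), b ≠ 0 →
  (∀ u, Uo b ((1 + b) ^ 2 / 4 - c) u → Bd u → LL k b ((1 + b) ^ 2 / 4 - c) lam u 1 ≤ LL k b ((1 + b) ^ 2 / 4 - c) lam u 0 ∧
    (LL k b ((1 + b) ^ 2 / 4 - c) lam u 1 = LL k b ((1 + b) ^ 2 / 4 - c) lam u 0 → u 1 = u 0 ∧ u 0 = u (-1))) → Ly b c

/-! ## Part A: a priori bounds -/

/-- MODULE Up (60 lines). Upper bound.
Proof: let `U = sup u` and suppose `U > r`. Adding: `u (n+1) + b u (n-1) = u n ^ 2 + (1+b) u n - r²`, so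
`u n ^ 2 + (1+b) u n - r² ≤ (1+b) U` for all `n` (`b ≥ 0`). Take `n` with `u n > U - τ`, `u n > r ≥ 0`: `τ → 0` gives `U² ≤ r²`, against `U > r ≥ 0`. -/
def StUp : Prop := ∀ (b r : ℝ) (u : ℤ → ℝ), 0 ≤ b → 0 ≤ r → Uo b (r ^ 2) u → Bd u → ∀ n, u n ≤ r

/-- MODULE Pass (80 lines). Passing the saddle.
Proof: `G j = w (j+1) - w j`, `b G (j+1) = G j + (w (j+1)² - h⁴)`, `m j = max (w j) (-h²) ∈ [-h², h²]`. Claim: for all `j`:
`G j + (h/2) m (j+1) ≥ 7/2 h³` (true for `j = 0`), so `G j ≥ 3 h³`. Step: if `w (j+1) < -h²` then `b G (j+1) ≥ G j > 0`, so `G (j+1) ≥ G j`, and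
`m (j+2) ≥ -h² = m (j+1)`. If `w (j+1) ≥ -h²` then `w (j+1)² - h⁴ ≥ -h⁴`, `G j - h⁴ ≥ 2 h³ > 0`, `G (j+1) ≥ G j - h⁴` and `G (j+1) ≥ 2 h³`; `m (j+2) = w (j+2) = m (j+1) + G (j+1)`
(as `w (j+2) ≥ -h²`), and `(h/2) G (j+1) ≥ h⁴`. Hence `w j ≥ w 0 + 3 h³ j`, unbounded: contradiction. -/
def StPass : Prop := ∀ (b h : ℝ) (w : ℕ → ℝ), 0 < b → b ≤ 1 → 0 < h → h ≤ 1 →
  (∀ j, b * (w (j + 2) - w (j + 1)) = (w (j + 1) - w j) + (w (j + 1) ^ 2 - h ^ 4)) → (∀ j, w j ≤ h ^ 2) →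
  4 * h ^ 3 ≤ w 1 - w 0 → False

/-- MODULE Lo (100 lines; theorem hLo (h1 : StUp) (h2 : StPass) : StLo). Lower bound.
Proof: `I = inf u > -∞`; suppose `u m < -16 h²` for some `m`; choose `n` with `u n ≤ I + h⁴` and `u n < -16 h²`. Put `w j = u (n - j)` (`j : ℕ`): the recurrence of
StPass holds (from `Uo` at `n - j - 1`), `w j ≤ h²` by StUp with `r = h²`. By StPass applied to `w (· + j)`: `w (j+1) - w j < 4 h³` for all `j`.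
`w 1 - w 0 ≥ -h⁴`. For `j ≤ 3/h`: `w j ≤ w 0 + 4 h³ j < -4 h²`, so `w j ^ 2 - h⁴ ≥ 15 h⁴`. By induction `w (j+1) - w j ≥ 15 h⁴ j - h⁴` for `j ≤ 3/h`
(first step: `b (w 2 - w 1) ≥ -h⁴ + 15 h⁴ > 0`; if `b G' ≥ y > 0`, `b ≤ 1` then `G' ≥ y`). At `j` with `1/h ≤ j ≤ 3/h` this is `≥ 14 h³ > 4 h³`: contradiction. -/
def StLo : Prop := ∀ (b h : ℝ) (u : ℤ → ℝ), 1 / 2 ≤ b → b ≤ 1 → 0 < h → h ≤ 1 / 100 → Uo b (h ^ 4) u → Bd u →
  ∀ n, u n ≤ h ^ 2 ∧ -(16 * h ^ 2) ≤ u n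

/-- MODULE Vel (80 lines; theorem hVel (h1 : StPass) (h2 : StLo) : StVel). Velocity bound.
Proof: `w j = u (n - j)`, `G j = w (j+1) - w j`, `b G (j+1) = G j + (w (j+1)² - h⁴)`; `G 0 = -(u n - u (n-1))`. StPass: `G 0 < 4 h³`. Suppose `G 0 < -150 h³`.
Claim for all `j`: `G j + 7/2 h w (j+1) ≤ -150 h³ + 7/2 h³`; then `G j ≤ -150 h³ + 7/2 h³ + 56 h³ ≤ -90 h³` (`w ≥ -16 h²`). Step: `w² - h⁴ ≤ 256 h⁴`, `G j + 256 h⁴ ≤ -75 h³ < 0` so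
`G (j+1) ≤ G j + 256 h⁴ ≤ -75 h³` (dividing a negative number by `b ≤ 1`), and `7/2 h (w (j+1) + G (j+1)) ≤ 7/2 h w (j+1) - 262 h⁴`. Hence `w j ≤ w 0 - 75 h³ j`:
contradiction with `w ≥ -16 h²`. -/
def StVel : Prop := ∀ (b h : ℝ) (u : ℤ → ℝ), 1 / 2 ≤ b → b ≤ 1 → 0 < h → h ≤ 1 / 100 → Uo b (h ^ 4) u → Bd u →
  ∀ n, |u n - u (n - 1)| ≤ 150 * h ^ 3

/-! ## Part B: differences -/

/-- MODULE Lei (60 lines). Discrete Leibniz rule. Induction on `m` (Pascal). -/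
def StLei : Prop := (∀ (m : ℕ) (u v : ℤ → ℝ) (n : ℤ), dl m (fun i => u i * v i) n =
    ∑ j ∈ Finset.range (m + 1), (m.choose j : ℝ) * dl j u (n + ((m - j : ℕ) : ℤ)) * dl (m - j) v n) ∧
  (∀ (m : ℕ) (u v : ℤ → ℝ) (x : ℝ) (n : ℤ), dl m (fun i => u i + x * v i) n = dl m u n + x * dl m v n) ∧
  (∀ (m : ℕ) (x : ℝ) (n : ℤ), 1 ≤ m → dl m (fun _ => x) n = 0) ∧
  (∀ (m j : ℕ) (u : ℤ → ℝ) (n : ℤ), dl m (dl j u) n = dl (m + j) u n) ∧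
  (∀ (m : ℕ) (u : ℤ → ℝ) (s n : ℤ), dl m (fun i => u (i + s)) n = dl m u (n + s))

/-- MODULE Gl (120 lines; theorem hGl (h1 : StLei) : StGl). Global bounds of all differences.
Proof: strong induction on `m`. `m = 0, 1` hypotheses (`150 ≤ 160`). From `Uo`: `dl 2 u i = (u (i+1)² - h⁴) - (1-b) (u (i+1) - u i)`. `m = 2`: `|·| ≤ 256 h⁴ + h · 150 h³ ≤ 3200 h⁴`.
For `m ≥ 1`: `dl (m+2) u n = dl m (u²) (n+1) - (1-b) dl (m+1) u n` and by Leibniz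
`|dl m (u²)| ≤ ∑_j C(m,j) 16 j! h² (10h)^j · 16 (m-j)! h² (10h)^(m-j) = 256 (m+1)! h⁴ (10h)^m`; the friction term is `≤ h · 16 (m+1)! h² (10h)^(m+1) = 160 (m+1)! h⁴ (10h)^m`. Sum `≤ 416 (m+1)! h⁴ (10 h)^m ≤ 1600 (m+2)! h⁴ (10h)^m`
`= 16 (m+2)! h² (10h)^(m+2)`. -/
def StGl : Prop := ∀ (b h : ℝ) (u : ℤ → ℝ), 1 - h ≤ b → b ≤ 1 → 0 < h → h ≤ 1 / 100 → Uo b (h ^ 4) u →
  (∀ n, |u n| ≤ 16 * h ^ 2) → (∀ n, |u n - u (n - 1)| ≤ 150 * h ^ 3) →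
  ∀ (m : ℕ) (n : ℤ), |dl m u n| ≤ 16 * (m.factorial : ℝ) * h ^ 2 * (10 * h) ^ m

/-- MODULE SSg (100 lines). Slow variation of the local size.
Proof: put `v i = u i - u (i-1)`, `g i = u i ^ 2 - h⁴`. `v (i+1) = b v i + g i`, `g i = g (i-1) + v i (u i + u (i-1))`, `|u i + u (i-1)| ≤ 32 h²`. Forward:
`SS (i+1) = |v (i+1)| + |g i|/h ≤ |v i| + (1 + 1/h) |g i| ≤ |v i| (1 + 32 h + 32 h²) + (1+h) |g (i-1)|/h ≤ (1 + 36 h) SS i`. Backward: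
`v i = (v (i+1) - g i)/b`, `1/b ≤ 1 + 2h`: `SS i ≤ (1+32h) |v i| + |g i|/h ≤ (1+32h)(1+2h)(|v (i+1)| + |g i|) + |g i|/h ≤ (1 + 36 h) SS (i+1)`. Iterate `|j|` times:
`(1+36h)^|j| ≤ exp (36 h |j|) ≤ exp 1 ≤ 3`. -/
def StSSg : Prop := ∀ (b h : ℝ) (u : ℤ → ℝ), 1 - h ≤ b → b ≤ 1 → 0 < h → h ≤ 1 / 100 → Uo b (h ^ 4) u →
  (∀ n, |u n| ≤ 16 * h ^ 2) → ∀ n j : ℤ, 36 * h * |(j : ℝ)| ≤ 1 → SS h u (n + j) ≤ 3 * SS h u n

/-- MODULE Loc (140 lines; theorem hLoc (h1 : StLei) : StLoc). Local bounds of all differences.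
Proof: strong induction on `m`. `m = 1` hypothesis. `m = 2`: `|dl 2 u i| ≤ |u (i+1)² - h⁴| + h |u (i+1) - u i| ≤ 2 h R ≤ 10 h R`. `m + 2 ≥ 3`:
`dl (m+2) u i = dl m (u²) (i+1) - (1-b) dl (m+1) u i`; Leibniz at `i+1`: terms `C(m,j) dl j u (i+1+(m-j)) · dl (m-j) u (i+1)`. For `j ≥ 1` bound `dl j` locally
(`p ≤ i+1+m-j`, `i+1+m ≤ q`) and `dl (m-j)` globally: `C(m,j) R (j-1)! (10h)^(j-1) 16 (m-j)! h² (10h)^(m-j) = 16 h² R (10h)^(m-1) m!/j`; `j = 0`: `16 h² · R (m-1)! (10h)^(m-1)`.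
Sum `≤ 16 h² R (10h)^(m-1) (m · m! + (m-1)!) ≤ 16 h² R (10h)^(m-1) (m+1)! = (16/100) R (10h)^(m+1) (m+1)!`; friction `≤ h R m! (10h)^m ≤ (1/10) R (10h)^(m+1) (m+1)!`. -/
def StLoc : Prop := ∀ (b h R : ℝ) (u : ℤ → ℝ) (p q : ℤ), 1 - h ≤ b → b ≤ 1 → 0 < h → h ≤ 1 / 100 → Uo b (h ^ 4) u →
  (∀ (m : ℕ) (n : ℤ), |dl m u n| ≤ 16 * (m.factorial : ℝ) * h ^ 2 * (10 * h) ^ m) →
  (∀ i : ℤ, p ≤ i → i + 1 ≤ q → |u (i + 1) - u i| ≤ R) → (∀ i : ℤ, p ≤ i → i ≤ q → |u i ^ 2 - h ^ 4| ≤ h * R) →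
  ∀ (m : ℕ) (i : ℤ), 1 ≤ m → p ≤ i → i + m ≤ q → |dl m u i| ≤ R * ((m - 1).factorial : ℝ) * (10 * h) ^ (m - 1)

/-! ## Part C: the central difference formula -/

/-- MODULE Ex (120 lines). Exactness on polynomials of degree `≤ 2k`.
Proof: write `p = C (p 0) + X q`, `natDegree q ≤ 2k - 1`, `q 0 = p' 0`. `ak k j (p j - p (-j)) = ak k j (j q(j) + j q(-j))`
`= (-1)^(j+1) C(2k,k+j)/C(2k,k) (q j + q (-j))`. So the sum is `-(1/C(2k,k)) ∑_{0<|j|≤k} (-1)^j C(2k,k+j) q(j)`, and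
`∑_{|j|≤k} (-1)^j C(2k,k+j) q(j) = ± (2k-th forward difference of q at -k) = 0` (`fwdDiff_iter_eq_sum_shift`, `Polynomial.fwdDiff_iter_eq_zero_of_degree_lt`), so the sum is
`q 0`. -/
def StEx : Prop := ∀ (k : ℕ) (p : Polynomial ℝ), 1 ≤ k → p.natDegree ≤ 2 * k →
  ∑ j ∈ Finset.Icc 1 k, ak k j * (p.eval (j : ℝ) - p.eval (-(j : ℝ))) = (Polynomial.derivative p).eval 0

/-- MODULE Bj (80 lines). Moments of the coefficients.
Proof: `B j = C(2k,k+j)`; `|ak k j| = B j/(j B 0) ≤ 1` (`Nat.choose_le_centralBinom` or `choose_le_middle`). `(k+j+1) B (j+1) = (k-j) B j`. Telescoping: `T j = (k+j) B j`, `T j - T (j+1) = 2 j B j`, so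
`∑_{j=1}^k 2 j B j = T 1 = (k+1) B 1 = k B 0`; `U j = (k+j) B j (k + j(j-1))`, `U j - U (j+1) = 2 j³ B j`, so `∑ 2 j³ B j = U 1 = k² B 0`. Hence `∑ |ak k j| j² = k/2`, `∑ |ak k j| j⁴ = k²/2`
and `j³ ≤ (t j² + j⁴/t)/2`. -/
def StBj : Prop := ∀ k : ℕ, 1 ≤ k → (∀ j ∈ Finset.Icc 1 k, |ak k j| ≤ 1) ∧
  ∀ t : ℝ, 0 < t → ∑ j ∈ Finset.Icc 1 k, |ak k j| * (j : ℝ) ^ 3 ≤ (t * k + (k : ℝ) ^ 2 / t) / 4

/-- MODULE Th (120 lines; theorem hTh (h1 : StEx) (h2 : StBj) : StTh). `DD k` against the symmetric difference.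
Proof: for `|j| ≤ k` put `r j = w (n+j) - (w n + j (w (n+1) - w (n-1))/2 + j²/2 (w (n+1) - 2 w n + w (n-1)))`; `r (-1) = r 0 = r 1 = 0` and the third differences of `r` are those of
`w`, so `|r (±j)| ≤ T (j+1) j (j-1)/6 ≤ T j³/6` for `1 ≤ j ≤ k` (three summations, or induction on `j` for `|r|`, `|first differences| ≤ T j²/2`-type bounds; any bound `|r (±j)| ≤ T j³/6` or the weaker `T j³/2`
is fine as the statement has room: only `|r| ≤ T j³/2` is needed). StEx for polynomials of degree `≤ 2`: `DD k w n - (w (n+1) - w (n-1))/2 = ∑ ak k j (r j - r (-j))`, and `∑ |ak k j| T j³` is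
bounded by StBj. -/
def StTh : Prop := ∀ (k : ℕ) (w : ℤ → ℝ) (n : ℤ) (T t : ℝ), 1 ≤ k → 0 ≤ T → 0 < t →
  (∀ i : ℤ, n - k ≤ i → i + 3 ≤ n + k → |dl 3 w i| ≤ T) →
  |DD k w n - (w (n + 1) - w (n - 1)) / 2| ≤ T * ((t * k + (k : ℝ) ^ 2 / t) / 4)

/-- MODULE New (140 lines). Newton interpolation with exponentially small remainder.
Proof: for `N : ℕ`: `w (n - k + N) = ∑_{m ≤ N} C(N,m) dl m w (n-k)` (induction, or `shift_eq_sum_fwdDiff_iter`). Put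
`P = ∑_{m ≤ d} (dl m w (n-k) / m!) • (descPochhammer ℝ m).comp (X + C k)`; `P.eval j = ∑_{m ≤ d} C(j+k,m) dl m w (n-k)` for integers `j ≥ -k`. Remainder for `|j| ≤ k`, `N = j + k ≤ 2k`:
`∑_{m=d+1}^{2k} C(N,m) R (m-1)! (10h)^(m-1) ≤ R ∑_{m ≥ d+1} (2k)^m (10h)^(m-1)` (`C(N,m) (m-1)! ≤ N^m`) `= 2 k R ∑_{m ≥ d+1} (20kh)^(m-1) ≤ 2 k R (1/10)^d (10/9) ≤ 3 k R (1/10)^d`. -/
def StNew : Prop := ∀ (k d : ℕ) (w : ℤ → ℝ) (n : ℤ) (R h : ℝ), 1 ≤ k → 0 ≤ R → 0 < h → 20 * k * h ≤ 1 / 10 →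
  (∀ m : ℕ, d + 1 ≤ m → m ≤ 2 * k → |dl m w (n - k)| ≤ R * ((m - 1).factorial : ℝ) * (10 * h) ^ (m - 1)) →
  ∃ P : Polynomial ℝ, P.natDegree ≤ d ∧ ∀ j : ℤ, |j| ≤ k → |w (n + j) - P.eval (j : ℝ)| ≤ 3 * k * R * (1 / 10) ^ d

/-- MODULE Err (160 lines; theorem hErr (h1 : StEx) (h2 : StBj) (h3 : StNew) : StErr). The Leibniz defect is exponentially small.
Proof: `k = 3 l`, `d = 2 l`, `η = 3 k (1/10)^(2l)`. StNew gives `P`; put `Q = P - C (P.eval 0)`, `y j = u (n+j) - u n`, `ρ j = y j - Q.eval j`, so `|ρ j| ≤ 2 η R`, `|y j| ≤ k R` (sum of first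
differences, `m = 1`), `2 η ≤ 2 k`. `DD k` applied to `Q²` and `Q³` (degrees `4 l, 6 l ≤ 2 k`) gives by StEx the derivative at `0`, which vanishes as `Q.eval 0 = 0`. So
`DD k (y²) = ∑ ak (..)` of `ρ (y + Q) = ρ (2 y - ρ)` and `DD k (y³)` of `ρ (y² + y Q + Q²)`; `|Q j| ≤ 3 k R`, `|ak| ≤ 1`: `|DD k y²| ≤ 2k · 2ηR · 4kR = 16 k² η R²`,
`|DD k y³| ≤ 2k · 2ηR · 13 k² R² = 52 k³ η R³`. With `|u n| ≤ 16 h²`, `k h ≤ 1/200`, `k³ R ≤ 1300 (kh)³ ≤ 1300/8·10⁻⁶`: `|EE| ≤ (256/40000 + 18 · 1300/(8 · 10^6)) η R² ≤ η R²`. -/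
def StErr : Prop := ∀ (l : ℕ) (u : ℤ → ℝ) (n : ℤ) (R h : ℝ), 1 ≤ l → 0 ≤ R → 0 < h → R ≤ 1300 * h ^ 3 →
  200 * (3 * l : ℝ) * h ≤ 1 → |u n| ≤ 16 * h ^ 2 →
  (∀ (m : ℕ) (i : ℤ), 1 ≤ m → n - (3 * l : ℕ) ≤ i → i + m ≤ n + (3 * l : ℕ) →
    |dl m u i| ≤ R * ((m - 1).factorial : ℝ) * (10 * h) ^ (m - 1)) →
  |EE (3 * l) u n| ≤ 9 * l * (1 / 10) ^ (2 * l) * R ^ 2

/-- MODULE Id (120 lines). The exact identity for the Lyapunov function.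
Proof: (1) `tl y (p+1) (q+1) - tl y p q = y q - y p` for `p ≤ q`; with the products of `WW`:
`(u (n+1) u (n+j) - u (n-j) u (n-1)) + (u (n-1) u (n+j) - u (n-j) u (n+1)) - 2 (u n u (n+j) - u (n-j) u n)`
`= (u (n+j) - u (n-j)) (u (n+1) - 2 u n + u (n-1))`. (2) With `F x = x³/3 - e x`: `F x - F y - (y² - e)(x - y) = y (x-y)² + (x-y)³/3`, and `DD k` kills constants, so
`DD k (F ∘ u) n = (u n ² - e) DD k u n + EE k u n`. (3) Put `v = u n - u (n-1)`, `s = u (n+1) - u (n-1)`, `g = u n ² - e`; `Uo` gives `u (n+1) - 2 u n + u (n-1) = g - (1-b) v`; then algebra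
(`v s/2 + ((u (n+1) - u n)² - v²)/4 = s²/4`). -/
def StId : Prop := ∀ (k : ℕ) (b e lam : ℝ) (u : ℤ → ℝ) (n : ℤ), Uo b e u →
  LL k b e lam u (n + 1) - LL k b e lam u n = -(1 - b) * (u (n + 1) - u (n - 1)) ^ 2 / 4
    - (1 - b) * (u n - u (n - 1)) * (DD k u n - (u (n + 1) - u (n - 1)) / 2) - EE k u n
    - lam * ((u n ^ 2 - e) ^ 2 - (1 - b) * (u n - u (n - 1)) * (u n ^ 2 - e)
      + (u n - u (n - 1)) ^ 2 * (u n + u (n - 1)))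

/-! ## Part D: the Lyapunov inequality -/

/-- MODULE RB (150 lines; theorem hRB (h1 : StVel) (h2 : StLo) (h3 : StGl) (h4 : StSSg) (h5 : StLoc) (h6 : StTh) (h7 : StErr) (h8 : StId) : StRB). Small friction.
Proof: `k = 3 l`, `β = 1 - b ∈ (0, h]`, `lam = β/(1000 h²)`, `v, s, g` as in StId, `n = 0` (or general), `G = |g|/h`. `(1+b) v = s - g`, so `|v| ≤ |s| + h G`; `u 1 - u 0 = b v + g`.
`R = 3 SS h u 1`, `SS h u 1 = |u 1 - u 0| + G ≤ |v| + h G + G ≤ |s| + 2 G`, so `R² ≤ 18 s² + 72 G²`; also `SS ≤ 150 h³ + 256 h³`, `R ≤ 1300 h³`. StSSg (`36 h |j| ≤ 1` for `|j| ≤ k`) gives the hypotheses of StLoc with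
`p = -k`, `q = k`. StTh with `T = 200 h² R` (`m = 3`), `t = 10^5`: `h² (t k + k²/t)/4 ≤ 10^(-8)` since `k h ≤ 1/200`, `h ≤ 10^(-12)`: `|θ| ≤ 10^(-5) R` for `θ = DD k u 0 - s/2`
(in fact `200 · h² (tk + k²/t)/4 ≤ 4 · 10^(-8)`). StErr: `|EE| ≤ η R²`, `η = 9 l (1/10)^(2l)`, and `3000000 η ≤ β`. Then
`LL 1 - LL 0 ≤ -β s²/4 + β |v| |θ| + η R² - (β/1000) G² + (β²/(1000 h²)) |v| h G + (β/1000) 32 v²`, with `β |v||θ| ≤ β 10^(-5) R²`..., `(β²/(1000h)) |v| G ≤ (β/1000) (v² + G²/4)`, `v² ≤ 2 s² + 2 h² G²`.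
Total `≤ -β (s²/8 + G²/2000)`. Equality: `s = 0`, `g = 0`, so `v = 0`, `u 1 = u 0 = u (-1)`.  (If `10^(-5)` is too weak use the better constant `4 · 10^(-8)`.) -/
def StRB : Prop := ∀ (b h : ℝ) (u : ℤ → ℝ) (l : ℕ), 0 < h → h ≤ 1 / 10 ^ 12 → 1 - h ≤ b → b < 1 → 1 ≤ l →
  600 * (l : ℝ) * h ≤ 1 → 9 * l * (1 / 10) ^ (2 * l) * 3000000 ≤ 1 - b → Uo b (h ^ 4) u → Bd u →
  LL (3 * l) b (h ^ 4) ((1 - b) / (1000 * h ^ 2)) u 1 ≤ LL (3 * l) b (h ^ 4) ((1 - b) / (1000 * h ^ 2)) u 0 ∧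
  (LL (3 * l) b (h ^ 4) ((1 - b) / (1000 * h ^ 2)) u 1 = LL (3 * l) b (h ^ 4) ((1 - b) / (1000 * h ^ 2)) u 0 →
    u 1 = u 0 ∧ u 0 = u (-1))

/-- MODULE RA (120 lines; theorem hRA (h1 : StVel) (h2 : StLo) (h3 : StId) : StRA). Larger friction, `k = 1`.
Proof: `β = 1 - b`, `lam = β/(1000 (h²+β²))`. `ak 1 1 = 1/2`, so `DD 1 u 0 = s/2` and, with `d = u 1 - 2 u 0 + u (-1) = g - β v`, `EE 1 u 0 = 1/2 (u 0 s d + s (s² + 3 d²)/12)`. `(1+b) v = s - g`, so `|v| ≤ |s| + |g|`,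
`|d| ≤ 2|g| + β|s|`; `|d|, |s| ≤ 300 h³`, `|u| ≤ 16 h²`. `|EE| ≤ 8 h² |s||d| + |s| (300 h³ |s| + 900 h³ |d|)/24 ≤ (13 h³ + 9 β h²) s² + 18 h² |s||g|`. The `lam` term is
`≤ -lam g² + lam β |s||g| + lam β g² + 64 lam h² (s² + g²)`. Use `lam β |s||g| ≤ lam g²/8 + 2 lam β² s²`, `18 h² |s||g| ≤ lam g²/8 + 648 h⁴ s²/lam`, `lam β ≤ 1/1000`, `lam h² ≤ β/1000`,
`h⁴/lam = 1000 (h⁶/β + h⁴ β)`, `h⁶/β ≤ β/(25 · 10^6)`. Total `≤ -β s²/8 - lam g²/2` (checked numerically with room). Equality: `s = 0`, `g = 0`, `v = 0`. -/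
def StRA : Prop := ∀ (b h : ℝ) (u : ℤ → ℝ), 0 < h → h ≤ 1 / 10 ^ 4 → 9 / 10 ≤ b → b < 1 → 5000 * h ^ 3 ≤ 1 - b →
  Uo b (h ^ 4) u → Bd u →
  LL 1 b (h ^ 4) ((1 - b) / (1000 * (h ^ 2 + (1 - b) ^ 2))) u 1 ≤ LL 1 b (h ^ 4) ((1 - b) / (1000 * (h ^ 2 + (1 - b) ^ 2))) u 0 ∧
  (LL 1 b (h ^ 4) ((1 - b) / (1000 * (h ^ 2 + (1 - b) ^ 2))) u 1 =
    LL 1 b (h ^ 4) ((1 - b) / (1000 * (h ^ 2 + (1 - b) ^ 2))) u 0 → u 1 = u 0 ∧ u 0 = u (-1))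

/-- MODULE Par (150 lines; theorem hPar (h1 : StCvt) (h2 : StId) : StPar). Dissipative parameters near the parabola (including `b = 0`).
Proof: `Ly` with `L p` = `LL 1 b e lam u 0` for `u 0 = p.1 - (1+b)/2`, `u (-1) = p.2 - (1+b)/2`, explicitly
`(u0 - u1)²/2 - (F u0 + F u1)/2 - (1-b)(u0-u1)²/4 - lam (u0-u1)(u1² - e)`, `F x = x³/3 - e x`, `e = (1+b)²/4 - c`, `lam = (1-b1)²/16`. Along a bounded orbit StId with `k = 1` gives (see RA)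
`ΔL = -β s²/4 - EE - lam (g² - β v g + v² (u 0 + u (-1)))`, `EE = 1/2 (u0 s d + s (s²+3d²)/12)`, `(1+b) v = s - g`, `(1+b) d = 2 g - β s`, so `g² - β v g = (2 g² - β s g)/(1+b)`. With `|u| ≤ ρ`, `|s| ≤ 2ρ`, `|d| ≤ 4ρ`:
`|EE| ≤ ρ (s² + d²)`, `d² ≤ 8 (g² + s²)/(1-b1)²`, `v² ≤ 2 (s²+g²)/(1-b1)²`; `β s g ≤ s² + g²` (`β ≤ 2`) so the `lam` term is `≤ -lam g²/2 + lam s²/(1-b1) + lam 2ρ v²` and `lam/(1-b1) = (1-b1)/16 ≤ β/16`. For `ρ` small (depending on `b1`):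
`ΔL ≤ -(1-b1) s²/16 - lam g²/4`; equality gives `s = g = 0`, `v = 0`. -/
def StPar : Prop := ∀ b1 : ℝ, 0 ≤ b1 → b1 < 1 → ∃ ρ > 0, ∀ b c : ℝ, |b| ≤ b1 →
  (∀ x, Orb b c x → Bd x → ∀ n, |x n - (1 + b) / 2| ≤ ρ) → Ly b c

/-- MODULE Int (80 lines; theorem hInt (h1 : StSma) (h2 : StPar) (h3 : StSym) : StInt).
Proof: `|b| < 1`: StPar with `b1 = (1+|b|)/2` gives `ρ`; StSma at `b` with `ρ/2`; `|(1+b')/2 - (1+b)/2| ≤ δ/2`. `|b| > 1`: apply the first case at `1/b`: the map `(b',c') ↦ (1/b', c'/b'²)` is continuous at `(b, (1+b)²/4)` with value `(1/b, (1+1/b)²/4)`; StSym. -/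
def StInt : Prop := ∀ b : ℝ, |b| ≠ 1 → ∃ δ > 0, ∀ b' c' : ℝ, |b' - b| < δ → |c' - (1 + b) ^ 2 / 4| < δ → Ly b' c'

/-- MODULE Num (80 lines). Choice of `l` for given `h`.
Proof: `l = ⌊1/(600 h)⌋₊ ≥ 1/(1200 h)` (as `1/(600h) ≥ 1`), `(1/10)^(2l) ≤ exp (-(2 log 10) l) ≤ exp (-4.6/(1200 h)) ≤ exp (-0.0038/h)`, `9 l 3000000 ≤ 45000/h`, and
`45000/h ≤ exp (0.0008/h)` for `h ≤ 10^(-12)` (e.g. `exp y ≥ y²/2`). So the left side is `≤ exp (-0.003/h) ≤ exp (-1/(1000 h))`. -/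
def StNum : Prop := ∀ h : ℝ, 0 < h → h ≤ 1 / 10 ^ 12 → ∃ l : ℕ, 1 ≤ l ∧ 600 * (l : ℝ) * h ≤ 1 ∧
  9 * l * (1 / 10) ^ (2 * l) * 3000000 ≤ Real.exp (-(1 / (1000 * h)))

/-- MODULE Hor (100 lines; theorem hHor (h1 : StPhi) (h2 : StRA) (h3 : StRB) (h4 : StNum) : StHor). The horn, `b < 1`.
Proof: `h = ((1+b)²/4 - c)^(1/4)`, so `h^4 = (1+b)²/4 - c`, `0 < h ≤ 10^(-12)` for `δ = 10^(-48)`. If `1 - b ≤ h`: StNum and StRB; otherwise StRA (`5000 h³ ≤ h ≤ 1 - b`). Then StPhi. -/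
def StHor : Prop := ∀ b c : ℝ, 9 / 10 ≤ b → b < 1 → (1 + b) ^ 2 / 4 - 1 / 10 ^ 48 < c → c < (1 + b) ^ 2 / 4 →
  Real.exp (-(1 / (1000 * ((1 + b) ^ 2 / 4 - c) ^ (1 / 4 : ℝ)))) ≤ 1 - b → Ly b c

/-- MODULE Top (150 lines; theorem hTop (h1 : StHor) (h2 : StInt) (h3 : StCvt) (h4 : StSym) (h5 : StLE) : StTop).
Proof: `a = 1/2000`. `b < 1`: StHor. `b > 1` (`b ≤ 1 + δ`): StSym; `b' = 1/b`, `ε' = ε/b²` (`(1+1/b)²/4 - c/b² = ε/b²`), `1 - b' = (b-1)/b`, and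
`exp (-(1/1000) ε'^(-1/4)) ≤ exp (-(1/1000) ε^(-1/4)) ≤ exp (-(1/2000) ε^(-1/4))/b` (as `ε^(-1/4)` is huge, `b ≤ 2`). `b = 1` does not satisfy the hypothesis `exp (..) ≤ |b-1|`. `c ≥ (1+b)²/4`: StCvt. Frontier: the interior of `E0` contains
the points with `c > (1+b)²/4`, the points `(b,(1+b)²/4)` with `|b| ≠ 1` (StInt) and the points of the region with strict inequality (open set inside `E0`). -/
def StTop : Prop :=
  (∀ q ∈ frontier E0, q.2 ≤ (1 + q.1) ^ 2 / 4 ∧ (q.2 = (1 + q.1) ^ 2 / 4 → q = (1, 1) ∨ q = (-1, 0))) ∧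
  (∀ q : ℝ × ℝ, (1 + q.1) ^ 2 / 4 ≤ q.2 → q ∈ E0) ∧
  ∃ a δ : ℝ, 0 < a ∧ 0 < δ ∧
    (∀ b c : ℝ, |b - 1| < δ → (1 + b) ^ 2 / 4 - δ < c → c < (1 + b) ^ 2 / 4 →
      Real.exp (-(a / ((1 + b) ^ 2 / 4 - c) ^ (1 / 4 : ℝ))) ≤ |b - 1| → (b, c) ∈ E0) ∧
    ∀ q ∈ frontier E0, |q.1 - 1| < δ → (1 + q.1) ^ 2 / 4 - δ < q.2 → q.2 < (1 + q.1) ^ 2 / 4 →
      |q.1 - 1| ≤ Real.exp (-(a / ((1 + q.1) ^ 2 / 4 - q.2) ^ (1 / 4 : ℝ)))

end Helper85.HN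

end
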